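import Mathlib

/-!
# The Schur–Siegel–Smyth trace problem: definitions
-/

namespace Pool.Agent.STP

open Polynomial

/-- `α` is a totally positive algebraic integer: it is an algebraic integer and all its conjugates
(the complex roots of its minimal polynomial over `ℚ`) are real and strictly positive. -/
def IsTotallyPositive (α : ℂ) : Prop :=
  IsIntegral ℤ α ∧ ∀ z ∈ (minpoly ℚ α).aroots ℂ, ∃ r : ℝ, 0 < r ∧ z = r

/-- The mean trace of an algebraic number: the average of its conjugates. -/
noncomputable def meanTrace (α : ℂ) : ℂ :=
  ((minpoly ℚ α).aroots ℂ).sum / ((minpoly ℚ α).natDegree : ℂ)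

/-- The set `𝒯` of mean traces of totally positive algebraic integers. -/
def meanTraceSet : Set ℝ := {t | ∃ α : ℂ, IsTotallyPositive α ∧ meanTrace α = (t : ℂ)}

/-- `x` is a limit point of `S`: every neighbourhood of `x` contains infinitely many elements
of `S`. -/
def IsLimitPoint (S : Set ℝ) (x : ℝ) : Prop := ∀ U ∈ nhds x, (U ∩ S).Infinite

end Pool.Agent.STP
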