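import Mathlib

namespace Pool.Agent.STP

open MeasureTheory Module

/-- Minkowski's linear forms theorem, in the form needed here. -/
lemma minkowski_linear {d : ℕ} (f : (Fin d → ℝ) →ₗ[ℝ] (Fin d → ℝ)) {r : ℝ} (hr : 0 < r)
    (hdet : 1 < |LinearMap.det f| * r ^ d) :
    ∃ g : Fin d → ℤ, g ≠ 0 ∧ ∃ h : Fin d → ℝ, (∀ i, |h i| ≤ r) ∧ f h = fun i => (g i : ℝ) := by
  classical
  set b : Basis (Fin d) ℝ (Fin d → ℝ) := Pi.basisFun ℝ (Fin d) with hb
  set L : AddSubgroup (Fin d → ℝ) := (Submodule.span ℤ (Set.range b)).toAddSubgroup with hL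
  have hfund : IsAddFundamentalDomain L (ZSpan.fundamentalDomain b) volume :=
    ZSpan.isAddFundamentalDomain b volume
  have hvol : volume (ZSpan.fundamentalDomain b) = 1 := by
    rw [hb, ZSpan.fundamentalDomain_pi_basisFun, Real.volume_pi_Ico]
    simp
  have : Countable L := by
    change Countable (Submodule.span ℤ (Set.range b))
    infer_instance
  have hmain : volume (ZSpan.fundamentalDomain b) * 2 ^ (finrank ℝ (Fin d → ℝ))
      < volume (f '' (Metric.closedBall (0 : Fin d → ℝ) r)) := by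
    rw [hvol, Measure.addHaar_image_linearMap, Real.volume_pi_closedBall _ hr.le]
    simp only [finrank_fintype_fun_eq_card, Fintype.card_fin, one_mul]
    rw [← ENNReal.ofReal_mul (abs_nonneg _)]
    have h2 : (2 : ENNReal) ^ d = ENNReal.ofReal (2 ^ d) := by
      rw [ENNReal.ofReal_pow (by norm_num)]; simp
    rw [h2]
    apply (ENNReal.ofReal_lt_ofReal_iff_of_nonneg (by positivity)).2
    rw [mul_pow]
    have : (0 : ℝ) < 2 ^ d := by positivity
    nlinarith
  have hsymm : ∀ x ∈ f '' (Metric.closedBall (0 : Fin d → ℝ) r),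
      -x ∈ f '' (Metric.closedBall (0 : Fin d → ℝ) r) := by
    rintro _ ⟨h, hh, rfl⟩
    exact ⟨-h, by simpa using hh, by simp⟩
  have hconv : Convex ℝ (f '' (Metric.closedBall (0 : Fin d → ℝ) r)) :=
    (convex_closedBall _ _).linear_image f
  obtain ⟨x, hx0, hx⟩ := exists_ne_zero_mem_lattice_of_measure_mul_two_pow_lt_measure hfund
    hsymm hconv hmain
  · obtain ⟨h, hh, hfh⟩ := hx
    have hxmem : (x : Fin d → ℝ) ∈ Submodule.span ℤ (Set.range b) := x.2
    have hcoord : ∀ i, ∃ z : ℤ, (z : ℝ) = (x : Fin d → ℝ) i := by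
      intro i
      obtain ⟨z, hz⟩ := (b.mem_span_iff_repr_mem ℤ _).1 hxmem i
      refine ⟨z, ?_⟩
      simpa [hb] using hz
    choose g hg using hcoord
    refine ⟨g, ?_, h, ?_, ?_⟩
    · rintro rfl
      apply hx0
      ext i
      simpa using (hg i).symm
    · intro i
      have : ‖h‖ ≤ r := by simpa using hh
      exact (norm_le_pi_norm h i).trans this
    · rw [hfh]; ext i; exact (hg i).symm

end Pool.Agent.STP
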