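import Mathlib
import Pool.Agent.Lib.MP_8ca0c8_nt.Minkowski

namespace Pool.Agent.STP

open Polynomial Module

/-- the real polynomial attached to an integer polynomial -/
noncomputable abbrev toR (P : ℤ[X]) : ℝ[X] := P.map (Int.castRingHom ℝ)

lemma toR_monic {P : ℤ[X]} (hP : P.Monic) : (toR P).Monic := hP.map _

lemma natDegree_toR {P : ℤ[X]} (hP : P.Monic) : (toR P).natDegree = P.natDegree :=
  hP.natDegree_map _

lemma degree_toR (P : ℤ[X]) : (toR P).degree = P.degree :=
  degree_map_eq_of_injective (RingHom.injective_int _) P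

/-- integer coefficient vector to polynomial -/
noncomputable def vecPoly {d : ℕ} (v : Fin d → ℤ) : ℤ[X] := ∑ i : Fin d, monomial (i : ℕ) (v i)

lemma vecPoly_degree_lt {d : ℕ} (v : Fin d → ℤ) : (vecPoly v).degree < d := by
  unfold vecPoly
  refine (degree_sum_le _ _).trans_lt ?_
  refine (Finset.sup_lt_iff (WithBot.bot_lt_coe d)).2 ?_
  intro i _
  exact (degree_monomial_le _ _).trans_lt (WithBot.coe_lt_coe.2 i.2)

lemma vecPoly_coeff {d : ℕ} (v : Fin d → ℤ) (i : Fin d) : (vecPoly v).coeff i = v i := by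
  unfold vecPoly
  rw [finsetSum_coeff]
  simp only [coeff_monomial]
  rw [Finset.sum_eq_single i]
  · simp
  · intro j _ hj
    rw [if_neg]
    intro h
    exact hj (Fin.ext h)
  · simp

lemma mk_vecPoly {P : ℤ[X]} (hPr : (toR P).Monic) (v : Fin (toR P).natDegree → ℤ) :
    (AdjoinRoot.powerBasisAux' hPr).equivFun.symm (fun i => (v i : ℝ))
      = AdjoinRoot.mk (toR P) (toR (vecPoly v)) := by
  rw [Basis.equivFun_symm_apply]
  have h : ∀ i : Fin (toR P).natDegree, (AdjoinRoot.powerBasisAux' hPr) i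
      = AdjoinRoot.mk (toR P) (monomial (i : ℕ) 1) := by
    intro i
    have := AdjoinRoot.powerBasisAux'_repr_symm_apply hPr (Finsupp.single i 1)
    rw [Basis.repr_symm_single, one_smul] at this
    rw [this]
    congr 1
    rw [Finset.sum_eq_single i]
    · simp
    · intro j _ hj
      simp [hj.symm]
    · simp
  simp only [h]
  unfold toR vecPoly
  rw [Polynomial.map_sum, map_sum]
  refine Finset.sum_congr rfl fun i _ => ?_
  rw [map_monomial]
  have : (monomial (i : ℕ)) ((Int.castRingHom ℝ) (v i)) = (v i : ℝ) • (monomial (i : ℕ) (1 : ℝ)) := by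
    rw [smul_monomial]; simp
  rw [this]
  exact (map_smul (AdjoinRoot.mkₐ (toR P) : ℝ[X] →ₐ[ℝ] AdjoinRoot (toR P)) _ _).symm

/-- A nonzero integer polynomial of smaller degree is invertible modulo an irreducible one. -/
lemma exists_inverse {P : ℤ[X]} (hirr : Irreducible (P.map (Int.castRingHom ℚ)))
    {G : ℤ[X]} (hG : G ≠ 0) (hdeg : G.degree < P.degree) :
    ∃ w : ℝ[X], AdjoinRoot.mk (toR P) w * AdjoinRoot.mk (toR P) (toR G) = 1 := by
  have hcop : IsCoprime (toR P) (toR G) := by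
    have h1 : IsCoprime (P.map (Int.castRingHom ℚ)) (G.map (Int.castRingHom ℚ)) := by
      refine (dvd_or_isCoprime _ _ hirr).resolve_left ?_
      intro hdvd
      have hne : G.map (Int.castRingHom ℚ) ≠ 0 := by
        rw [Ne, Polynomial.map_eq_zero_iff (RingHom.injective_int _)]
        exact hG
      have h2 := degree_le_of_dvd hdvd hne
      rw [degree_map_eq_of_injective (RingHom.injective_int _),
        degree_map_eq_of_injective (RingHom.injective_int _)] at h2
      exact absurd (h2.trans_lt hdeg) (lt_irrefl _)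
    have h2 := h1.map (Polynomial.mapRingHom (algebraMap ℚ ℝ))
    simp only [coe_mapRingHom, Polynomial.map_map] at h2
    have h3 : (algebraMap ℚ ℝ).comp (Int.castRingHom ℚ) = Int.castRingHom ℝ := RingHom.ext_int _ _
    rw [h3] at h2
    exact h2
  obtain ⟨u, w, huw⟩ := hcop
  refine ⟨w, ?_⟩
  rw [← map_mul, ← map_one (AdjoinRoot.mk (toR P)), AdjoinRoot.mk_eq_mk]
  exact ⟨-u, by linear_combination huw⟩

lemma exists_bound_mul {d : ℕ} {V : Type*} [CommRing V] [Algebra ℝ V] (b : Basis (Fin d) ℝ V) :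
    ∃ C : ℝ, 0 ≤ C ∧ ∀ r : ℝ, 0 ≤ r → ∀ h w : Fin d → ℝ, (∀ i, |h i| ≤ r) → (∀ i, |w i| ≤ 1) →
      ∀ i, |b.repr (b.equivFun.symm h * b.equivFun.symm w) i| ≤ C * r := by
  classical
  refine ⟨∑ i : Fin d, ∑ j : Fin d, ∑ l : Fin d, |b.repr (b i * b j) l|, ?_, ?_⟩
  · exact Finset.sum_nonneg fun i _ => Finset.sum_nonneg fun j _ =>
      Finset.sum_nonneg fun l _ => abs_nonneg _
  intro r hr h w hh hw i
  have hprod : b.equivFun.symm h * b.equivFun.symm w
      = ∑ j : Fin d, ∑ l : Fin d, (h j * w l) • (b j * b l) := by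
    rw [Basis.equivFun_symm_apply, Basis.equivFun_symm_apply, Finset.sum_mul_sum]
    refine Finset.sum_congr rfl fun j _ => Finset.sum_congr rfl fun l _ => ?_
    rw [smul_mul_smul_comm]
  rw [hprod]
  simp only [map_sum, map_smul, Finsupp.coe_finsetSum, Finset.sum_apply, Finsupp.coe_smul,
    Pi.smul_apply, smul_eq_mul]
  refine (Finset.abs_sum_le_sum_abs _ _).trans ?_
  rw [Finset.sum_mul]
  refine Finset.sum_le_sum fun j _ => ?_
  refine (Finset.abs_sum_le_sum_abs _ _).trans ?_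
  rw [Finset.sum_mul]
  refine Finset.sum_le_sum fun l _ => ?_
  rw [abs_mul, abs_mul]
  have h1 : |h j| * |w l| ≤ r := by
    calc |h j| * |w l| ≤ r * 1 := mul_le_mul (hh j) (hw l) (abs_nonneg _) hr
      _ = r := mul_one r
  have h2 : |b.repr (b j * b l) i| ≤ ∑ l' : Fin d, |b.repr (b j * b l) l'| :=
    Finset.single_le_sum (f := fun l' => |b.repr (b j * b l) l'|) (fun _ _ => abs_nonneg _)
      (Finset.mem_univ i)
  calc |h j| * |w l| * |b.repr (b j * b l) i|
      ≤ r * ∑ l' : Fin d, |b.repr (b j * b l) l'| := mul_le_mul h1 h2 (abs_nonneg _) hr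
    _ = _ := mul_comm _ _

/-- A short vector `h` in the lattice `a ^ (-m) * ℤ[x]`. -/
lemma exists_short {d : ℕ} (hd : 0 < d) {V : Type*} [CommRing V] [Algebra ℝ V]
    (b : Basis (Fin d) ℝ V) (a : V) (hN : 1 < |Algebra.norm ℝ a|) :
    ∃ θ : ℝ, 0 < θ ∧ θ < 1 ∧ ∀ m : ℕ, ∃ g : Fin d → ℤ, g ≠ 0 ∧ ∃ h : Fin d → ℝ,
      (∀ i, |h i| ≤ 2 * θ ^ m) ∧
      a ^ m * b.equivFun.symm h = b.equivFun.symm (fun i => (g i : ℝ)) := by
  have : Module.Finite ℝ V := Module.Finite.of_basis b
  have : Module.Free ℝ V := Module.Free.of_basis b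
  set N : ℝ := |Algebra.norm ℝ a| with hNdef
  have hN0 : 0 < N := lt_trans zero_lt_one hN
  have hθ0 : 0 < N ^ (-(1 / (d : ℝ))) := Real.rpow_pos_of_pos hN0 _
  have hθ1 : N ^ (-(1 / (d : ℝ))) < 1 := Real.rpow_lt_one_of_one_lt_of_neg hN (by
    have : (0 : ℝ) < d := by exact_mod_cast hd
    have : 0 < 1 / (d : ℝ) := by positivity
    linarith)
  have hθd : (N ^ (-(1 / (d : ℝ)))) ^ d = N⁻¹ := by
    rw [← Real.rpow_natCast, ← Real.rpow_mul hN0.le]
    have : (d : ℝ) ≠ 0 := by exact_mod_cast hd.ne'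
    have h2 : -(1 / (d : ℝ)) * d = -1 := by field_simp
    rw [h2, Real.rpow_neg_one]
  generalize N ^ (-(1 / (d : ℝ))) = θ at hθ0 hθ1 hθd
  refine ⟨θ, hθ0, hθ1, ?_⟩
  intro m
  set f : (Fin d → ℝ) →ₗ[ℝ] (Fin d → ℝ) :=
    (b.equivFun : V →ₗ[ℝ] (Fin d → ℝ)) ∘ₗ (Algebra.lmul ℝ V (a ^ m)) ∘ₗ
      (b.equivFun.symm : (Fin d → ℝ) →ₗ[ℝ] V) with hf
  have hdet : |LinearMap.det f| = N ^ m := by
    rw [hf, LinearMap.det_conj, ← Algebra.norm_apply, map_pow, abs_pow]
  have hcond : 1 < |LinearMap.det f| * (2 * θ ^ m) ^ d := by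
    rw [hdet, mul_pow, ← pow_mul, mul_comm m d, pow_mul, hθd, inv_pow]
    have h1 : N ^ m * (2 ^ d * (N ^ m)⁻¹) = 2 ^ d := by
      field_simp
    rw [h1]
    exact one_lt_pow₀ (by norm_num) hd.ne'
  obtain ⟨g0, hg0, h, hh, hfh⟩ := minkowski_linear f (by positivity) hcond
  refine ⟨g0, hg0, h, hh, ?_⟩
  rw [LinearEquiv.eq_symm_apply]
  exact hfh

/-- The field step: modulo an irreducible monic integer polynomial `P` for which the norm of `A` is
bigger than `1` in absolute value, every real polynomial is congruent to an even integer polynomial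
plus `A ^ m * q` with `q` exponentially small. -/
theorem field_step (P : ℤ[X]) (hP : P.Monic) (hirr : Irreducible (P.map (Int.castRingHom ℚ)))
    (A : ℝ[X]) (hN : 1 < |Algebra.norm ℝ (AdjoinRoot.mk (toR P) A)|) :
    ∃ C θ : ℝ, 0 ≤ C ∧ 0 < θ ∧ θ < 1 ∧ ∀ m : ℕ, ∀ ρ : ℝ[X], ∃ g : ℤ[X], ∃ q : ℝ[X],
      g.degree < P.degree ∧ q.degree < P.degree ∧ (∀ i, |q.coeff i| ≤ C * θ ^ m) ∧
      toR P ∣ ρ - 2 * toR g - A ^ m * q := by
  classical
  have hPr : (toR P).Monic := toR_monic hP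
  have hdpos : 0 < (toR P).natDegree := by
    rw [natDegree_toR hP, ← hP.natDegree_map (Int.castRingHom ℚ)]
    exact hirr.natDegree_pos
  have hPdeg : P.degree = (toR P).natDegree := by
    rw [natDegree_toR hP, degree_eq_natDegree hP.ne_zero]
  obtain ⟨C0, hC00, hC0⟩ := exists_bound_mul (AdjoinRoot.powerBasisAux' hPr)
  obtain ⟨θ, hθ0, hθ1, hshort⟩ := exists_short hdpos (AdjoinRoot.powerBasisAux' hPr)
    (AdjoinRoot.mk (toR P) A) hN
  refine ⟨C0 * 2, θ, by positivity, hθ0, hθ1, ?_⟩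
  intro m ρ
  obtain ⟨g0, hg0, h, hh, hAH⟩ := hshort m
  rw [mk_vecPoly hPr g0] at hAH
  have hG0ne : vecPoly g0 ≠ 0 := by
    intro h0
    apply hg0
    ext i
    have := vecPoly_coeff g0 i
    rw [h0] at this
    simpa using this.symm
  obtain ⟨w, hunit⟩ := exists_inverse hirr hG0ne (by rw [hPdeg]; exact vecPoly_degree_lt g0)
  generalize hG0 : vecPoly g0 = G0 at *
  generalize hbb : (AdjoinRoot.powerBasisAux' hPr).equivFun = E at *
  generalize he : AdjoinRoot.mk (toR P) (w * ρ) = e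
  obtain ⟨v, hv⟩ : ∃ v : Fin (toR P).natDegree → ℤ, ∀ i, |E e i - 2 * v i| ≤ 1 := by
    refine ⟨fun i => round (E e i / 2), fun i => ?_⟩
    have := abs_sub_round (E e i / 2)
    have h2 : E e i - 2 * (round (E e i / 2) : ℝ) = 2 * (E e i / 2 - round (E e i / 2)) := by
      ring
    rw [h2, abs_mul]
    norm_num at this ⊢
    linarith
  generalize hH : E.symm h = H at *
  have hesplit : e = 2 * AdjoinRoot.mk (toR P) (toR (vecPoly v)) + E.symm (fun i => E e i - 2 * v i) := by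
    rw [← mk_vecPoly hPr v, hbb]
    apply E.injective
    ext i
    rw [two_mul, map_add, map_add]
    simp only [LinearEquiv.apply_symm_apply, Pi.add_apply]
    ring
  have hcoord : ∀ i, |(AdjoinRoot.powerBasisAux' hPr).repr (H * E.symm (fun i => E e i - 2 * v i)) i|
      ≤ C0 * (2 * θ ^ m) := by
    intro i
    have := hC0 (2 * θ ^ m) (by positivity) h (fun i => E e i - 2 * v i) hh hv i
    rw [hH] at this
    exact this
  generalize hW : E.symm (fun i => E e i - 2 * v i) = W at *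
  have hq0 : AdjoinRoot.mk (toR P) (AdjoinRoot.modByMonicHom hPr (H * W)) = H * W :=
    AdjoinRoot.mk_leftInverse hPr _
  have hqdeg : (AdjoinRoot.modByMonicHom hPr (H * W)).degree < P.degree := by
    obtain ⟨z, hz⟩ := AdjoinRoot.mk_surjective (g := toR P) (H * W)
    rw [← hz, AdjoinRoot.modByMonicHom_mk, ← degree_toR P]
    exact degree_modByMonic_lt _ hPr
  refine ⟨(G0 * vecPoly v) %ₘ P, AdjoinRoot.modByMonicHom hPr (H * W), ?_, hqdeg, ?_, ?_⟩
  · exact degree_modByMonic_lt _ hP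
  · intro i
    by_cases hi : i < (toR P).natDegree
    · have := hcoord ⟨i, hi⟩
      rw [← mul_assoc] at this
      exact this
    · rw [hPdeg] at hqdeg
      rw [coeff_eq_zero_of_degree_lt (hqdeg.trans_le (by exact_mod_cast not_lt.1 hi))]
      simp only [abs_zero]
      positivity
  · rw [← AdjoinRoot.mk_eq_zero, map_sub, map_sub, map_mul, map_mul, map_pow, hq0]
    have h1 : AdjoinRoot.mk (toR P) (toR ((G0 * vecPoly v) %ₘ P))
        = AdjoinRoot.mk (toR P) (toR G0) * AdjoinRoot.mk (toR P) (toR (vecPoly v)) := by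
      have h0 : toR ((G0 * vecPoly v) %ₘ P) = (toR G0 * toR (vecPoly v)) %ₘ toR P := by
        unfold toR
        rw [Polynomial.map_modByMonic _ hP, Polynomial.map_mul]
      rw [h0, ← map_mul, AdjoinRoot.mk_eq_mk]
      rw [modByMonic_eq_sub_mul_div _, sub_sub_cancel_left, dvd_neg]
      exact dvd_mul_right _ _
    have h2 : AdjoinRoot.mk (toR P) ρ = AdjoinRoot.mk (toR P) (toR G0) * e := by
      rw [← he, map_mul, ← mul_assoc, mul_comm (AdjoinRoot.mk (toR P) (toR G0)), hunit, one_mul]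
    have h3 : AdjoinRoot.mk (toR P) (2 : ℝ[X]) = 2 := map_ofNat _ 2
    rw [h1, h2, hesplit, h3, ← mul_assoc, ← mul_assoc, hAH]
    ring

end Pool.Agent.STP
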