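import Mathlib
import Pool.Agent.Lib.MP_8ca0c8_nt.Defs
import Pool.Agent.Lib.MP_8ca0c8_nt.Field

namespace Pool.Agent.STP

open Polynomial

lemma card_pos_of_prod {ι : Type*} [Fintype ι] {P : ℤ[X]} (hP : P.Monic)
    (z : ι → ℝ) (hprod : toR P = ∏ i, (X - C (z i))) : P.natDegree = Fintype.card ι := by
  rw [← natDegree_toR hP, hprod, natDegree_prod_of_monic _ _ fun i _ => monic_X_sub_C _]
  simp

/-- An Eisenstein polynomial with all roots real and positive gives an element of `𝒯`. -/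
lemma mem_meanTraceSet {ι : Type*} [Fintype ι] [Nonempty ι] {P : ℤ[X]} (hP : P.Monic)
    (heven : ∀ i, i < P.natDegree → (2 : ℤ) ∣ P.coeff i) (h4 : ¬ (4 : ℤ) ∣ P.coeff 0)
    (z : ι → ℝ) (hz : ∀ i, 0 < z i) (hprod : toR P = ∏ i, (X - C (z i))) :
    (∑ i, z i) / (P.natDegree : ℝ) ∈ meanTraceSet := by
  classical
  have hcard := card_pos_of_prod hP z hprod
  have hdpos : 0 < P.natDegree := by rw [hcard]; exact Fintype.card_pos
  have hirr : Irreducible P := by
    refine irreducible_of_eisenstein_criterion (P := Ideal.span {(2 : ℤ)}) ?_ ?_ ?_ ?_ ?_ ?_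
    · rw [Ideal.span_singleton_prime (by norm_num)]
      exact Int.prime_two
    · rw [hP.leadingCoeff, Ideal.mem_span_singleton]
      norm_num
    · intro n hn
      rw [Ideal.mem_span_singleton]
      exact heven n (by
        rw [degree_eq_natDegree hP.ne_zero] at hn
        exact_mod_cast hn)
    · exact natDegree_pos_iff_degree_pos.1 hdpos
    · rw [Ideal.span_singleton_pow, Ideal.mem_span_singleton]
      exact h4
    · exact hP.isPrimitive
  have hirrQ : Irreducible (P.map (algebraMap ℤ ℚ)) :=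
    (Monic.irreducible_iff_irreducible_map_fraction_map hP).1 hirr
  have hPC : P.map (algebraMap ℤ ℂ) = ∏ i, (X - C (z i : ℂ)) := by
    have h1 : P.map (algebraMap ℤ ℂ) = (toR P).map (algebraMap ℝ ℂ) := by
      rw [toR, Polynomial.map_map]; congr 1
    rw [h1, hprod, Polynomial.map_prod]
    simp
  obtain ⟨i₀⟩ := (inferInstance : Nonempty ι)
  set α : ℂ := (z i₀ : ℂ) with hα
  have hroot : (P.map (algebraMap ℤ ℂ)).eval α = 0 := by
    rw [hPC, eval_prod]
    exact Finset.prod_eq_zero (Finset.mem_univ i₀) (by simp [hα])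
  have hmin : minpoly ℚ α = P.map (algebraMap ℤ ℚ) := by
    symm
    refine minpoly.eq_of_irreducible_of_monic hirrQ ?_ (hP.map _)
    rw [aeval_def, eval₂_map, ← eval_map]
    have : (algebraMap ℚ ℂ).comp (algebraMap ℤ ℚ) = algebraMap ℤ ℂ := RingHom.ext_int _ _
    rw [this]
    exact hroot
  have hroots : (minpoly ℚ α).aroots ℂ = Finset.univ.val.map (fun i => (z i : ℂ)) := by
    rw [hmin, aroots_def, Polynomial.map_map]
    have : (algebraMap ℚ ℂ).comp (algebraMap ℤ ℚ) = algebraMap ℤ ℂ := RingHom.ext_int _ _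
    rw [this, hPC]
    have : (∏ i, (X - C (z i : ℂ))) = ((Finset.univ.val.map (fun i => (z i : ℂ))).map
        (fun a => X - C a)).prod := by
      rw [Multiset.map_map]; rfl
    rw [this, roots_multiset_prod_X_sub_C]
  refine ⟨α, ⟨?_, ?_⟩, ?_⟩
  · refine ⟨P, hP, ?_⟩
    rw [← eval_map]; exact hroot
  · intro w hw
    rw [hroots, Multiset.mem_map] at hw
    obtain ⟨i, _, hi⟩ := hw
    exact ⟨z i, hz i, hi.symm⟩
  · unfold meanTrace
    rw [hroots, hmin, hP.natDegree_map]
    have : (Finset.univ.val.map (fun i => (z i : ℂ))).sum = ∑ i, (z i : ℂ) := rfl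
    rw [this]
    push_cast
    rfl

/-- norm of `X - r` -/
lemma abs_norm_X_sub_C {P : ℤ[X]} (hP : P.Monic) (r : ℝ) :
    |Algebra.norm ℝ (AdjoinRoot.mk (toR P) (X - C r))| = |(toR P).eval r| := by
  classical
  have hPr : (toR P).Monic := toR_monic hP
  set pb := AdjoinRoot.powerBasis' hPr with hpb
  have h1 : (Algebra.leftMulMatrix pb.basis pb.gen).charpoly = toR P := by
    rw [charpoly_leftMulMatrix]
    have : pb.gen = AdjoinRoot.root (toR P) := rfl
    rw [this, AdjoinRoot.minpoly_root hPr.ne_zero, hPr.leadingCoeff]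
    simp
  have h2 : AdjoinRoot.mk (toR P) (X - C r) = -(algebraMap ℝ _ r - pb.gen) := by
    have : pb.gen = AdjoinRoot.root (toR P) := rfl
    rw [this, map_sub, AdjoinRoot.mk_X, AdjoinRoot.mk_C]
    rw [neg_sub]; rfl
  rw [h2, Algebra.norm_eq_matrix_det pb.basis, map_neg, map_sub, Matrix.det_neg, abs_mul,
    abs_pow, abs_neg, abs_one, one_pow, one_mul]
  have h3 : Algebra.leftMulMatrix pb.basis (algebraMap ℝ _ r) = Matrix.scalar _ r := by
    rw [AlgHom.commutes]
    rfl
  rw [h3, ← Matrix.eval_charpoly, h1]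

lemma abs_norm_prod {P : ℤ[X]} (hP : P.Monic) {k : ℕ} (r : Fin k → ℝ) :
    |Algebra.norm ℝ (AdjoinRoot.mk (toR P) (∏ l, (X - C (r l))))| = ∏ l, |(toR P).eval (r l)| := by
  rw [map_prod, map_prod, Finset.abs_prod]
  exact Finset.prod_congr rfl fun l _ => abs_norm_X_sub_C hP (r l)

end Pool.Agent.STP
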