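import Mathlib

/-!
# Homogeneous Chebyshev (Dickson) sequence

`dk a b n` is the Dickson polynomial `D_n(a, b)`, i.e. `u ^ n + v ^ n` when `a = u + v`, `b = u * v`.
-/

namespace Pool.Agent.STP

open Polynomial

/-- The Dickson sequence: `dk 0 = 2`, `dk 1 = a`, `dk (n+2) = a * dk (n+1) - b * dk n`. -/
def dk {R : Type*} [CommRing R] (a b : R) : ℕ → R
  | 0 => 2
  | 1 => a
  | (n + 2) => a * dk a b (n + 1) - b * dk a b n

variable {R : Type*} [CommRing R] (a b : R)

@[simp] lemma dk_zero : dk a b 0 = 2 := rfl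
@[simp] lemma dk_one : dk a b 1 = a := rfl
lemma dk_add_two (n : ℕ) : dk a b (n + 2) = a * dk a b (n + 1) - b * dk a b n := rfl

lemma map_dk {S : Type*} [CommRing S] (f : R →+* S) (n : ℕ) :
    f (dk a b n) = dk (f a) (f b) n := by
  induction n using Nat.twoStepInduction with
  | zero => simpa using map_ofNat f 2
  | one => simp
  | more n ih1 ih2 => simp [dk_add_two, ih1, ih2]

/-- Product formula. -/
lemma dk_mul (q : ℕ) : ∀ p : ℕ,
    dk a b q * dk a b (q + p) = dk a b (2 * q + p) + b ^ q * dk a b p := by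
  induction q using Nat.twoStepInduction with
  | zero => intro p; simp; ring
  | one =>
    intro p
    have h : 2 * 1 + p = p + 2 := by ring
    rw [h, dk_add_two, dk_one, add_comm 1 p]
    ring
  | more q ih1 ih2 =>
    intro p
    have e1 := ih2 (p + 1)
    have e2 := ih1 (p + 2)
    have h1 : q + 2 + p = q + 1 + (p + 1) := by ring
    have h2 : q + (p + 2) = q + 1 + (p + 1) := by ring
    rw [h2] at e2
    rw [dk_add_two a b q, h1, sub_mul, mul_assoc, mul_assoc, e1, e2]
    have h3 : 2 * (q + 2) + p = 2 * q + p + 2 + 2 := by ring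
    have h4 : 2 * (q + 1) + (p + 1) = 2 * q + p + 2 + 1 := by ring
    have h5 : 2 * q + (p + 2) = 2 * q + p + 2 := by ring
    rw [h3, h4, h5, dk_add_two a b (2 * q + p + 2), dk_add_two a b p]
    ring

/-- Composition formula. -/
lemma dk_comp (m n : ℕ) : dk a b (m * n) = dk (dk a b m) (b ^ m) n := by
  induction n using Nat.twoStepInduction with
  | zero => simp
  | one => simp
  | more n ih1 ih2 =>
    have h := dk_mul a b m (m * n)
    have h1 : m * (n + 2) = 2 * m + m * n := by ring
    have h2 : m * (n + 1) = m + m * n := by ring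
    rw [dk_add_two, ← ih1, ← ih2, h1, h2, h]
    ring

lemma dvd_dk_sub_pow (n : ℕ) : b ∣ dk a b (n + 1) - a ^ (n + 1) := by
  induction n using Nat.twoStepInduction with
  | zero => simp
  | one => exact ⟨-2, by simp [dk_add_two]; ring⟩
  | more n ih1 ih2 =>
    obtain ⟨c, hc⟩ := ih2
    refine ⟨a * c - dk a b (n + 1), ?_⟩
    have : dk a b (n + 2 + 1) = a * dk a b (n + 1 + 1) - b * dk a b (n + 1) := rfl
    rw [this]
    have h2 : dk a b (n + 1 + 1) = b * c + a ^ (n + 1 + 1) := by rw [← hc]; ring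
    rw [h2]; ring

/-- Trigonometric evaluation. -/
lemma dk_cos (e θ : ℝ) (n : ℕ) :
    dk (2 * e * Real.cos θ) (e ^ 2) n = 2 * e ^ n * Real.cos (n * θ) := by
  induction n using Nat.twoStepInduction with
  | zero => simp
  | one => simp
  | more n ih1 ih2 =>
    rw [dk_add_two, ih1, ih2]
    have h1 : ((n + 2 : ℕ) : ℝ) * θ = (n + 1) * θ + θ := by push_cast; ring
    have h2 : (n : ℝ) * θ = (n + 1) * θ - θ := by ring
    have h3 : ((n + 1 : ℕ) : ℝ) * θ = (n + 1) * θ := by push_cast; ring
    rw [h1, h3, h2, Real.cos_add, Real.cos_sub]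
    ring

lemma abs_dk_le (x e : ℝ) (he : 0 ≤ e) (h : |x| ≤ 2 * e) (n : ℕ) :
    |dk x (e ^ 2) n| ≤ 2 * e ^ n := by
  rcases he.eq_or_lt with h0 | h0
  · subst h0
    have hx : x = 0 := by simpa using h
    subst hx
    have := dk_cos 0 0 n
    simp only [mul_zero, zero_mul] at this
    rw [this]
    simp
  · have hx : x = 2 * e * Real.cos (Real.arccos (x / (2 * e))) := by
      rw [Real.cos_arccos]
      · field_simp
      · rw [le_div_iff₀ (by positivity)]; linarith [(abs_le.1 h).1]
      · rw [div_le_iff₀ (by positivity)]; linarith [(abs_le.1 h).2]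
    rw [hx, dk_cos, abs_mul, abs_of_pos (by positivity : (0:ℝ) < 2 * e ^ n)]
    exact mul_le_of_le_one_right (by positivity) (Real.abs_cos_le_one _)

section Degree

variable {F : Type*} [Field F]

lemma degree_dk_sub {A B : F[X]} {k β : ℕ} (hA : A.degree ≤ k) (hB : B.degree ≤ (2 * β : ℕ))
    (hβ : β ≤ k) : ∀ n : ℕ, (dk A B (n + 2) - A ^ (n + 2)).degree ≤ (k * n + 2 * β : ℕ) ∧
      (dk A B n).degree ≤ (k * n : ℕ) ∧ (dk A B (n + 1)).degree ≤ (k * (n + 1) : ℕ) := by
  intro n
  induction n with
  | zero =>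
    refine ⟨?_, ?_, by simpa using hA⟩
    · have : dk A B (0 + 2) - A ^ (0 + 2) = C (-2) * B := by
        have h2 : (C (-2) : F[X]) = -2 := by
          rw [C_neg]; rfl
        rw [h2]
        simp [dk_add_two]; ring
      rw [this]
      refine (degree_mul_le _ _).trans ?_
      calc (C (-2) : F[X]).degree + B.degree ≤ 0 + B.degree := add_le_add degree_C_le le_rfl
        _ = B.degree := zero_add _
        _ ≤ _ := by simpa using hB
    · have h2 : (2 : F[X]) = C 2 := rfl
      rw [dk_zero, h2]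
      simpa using degree_C_le (a := (2 : F))
  | succ n ih =>
    obtain ⟨h1, h2, h3⟩ := ih
    have hb : (B * dk A B (n + 1)).degree ≤ (k * (n + 1) + 2 * β : ℕ) := by
      refine (degree_mul_le _ _).trans ?_
      refine (add_le_add hB h3).trans ?_
      rw [← Nat.cast_add]; exact_mod_cast (by omega)
    have key : (dk A B (n + 1 + 2) - A ^ (n + 1 + 2)).degree ≤ (k * (n + 1) + 2 * β : ℕ) := by
      have : dk A B (n + 1 + 2) - A ^ (n + 1 + 2)
          = A * (dk A B (n + 2) - A ^ (n + 2)) - B * dk A B (n + 1) := by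
        rw [dk_add_two]; ring
      rw [this]
      refine (degree_sub_le _ _).trans (max_le ?_ hb)
      refine (degree_mul_le _ _).trans ((add_le_add hA h1).trans ?_)
      rw [← Nat.cast_add]; exact_mod_cast (by nlinarith)
    refine ⟨key, h3, ?_⟩
    have : dk A B (n + 1 + 1) = (dk A B (n + 2) - A ^ (n + 2)) + A ^ (n + 2) := by ring
    rw [this]
    refine (degree_add_le _ _).trans (max_le (h1.trans ?_) ?_)
    · exact_mod_cast (by nlinarith)
    · refine (degree_pow_le _ _).trans ?_
      calc (n + 2) • A.degree ≤ (n + 2) • (k : WithBot ℕ) := nsmul_le_nsmul_right hA _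
        _ = ((n + 2) * k : ℕ) := by simp
        _ ≤ (k * (n + 1 + 1) : ℕ) := by exact_mod_cast (by nlinarith)

end Degree

end Pool.Agent.STP
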