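import Mathlib
import Pool.Agent.Lib.MP_8ca0c8_nt.Dickson

namespace Pool.Agent.STP

open Polynomial

/-- `2 * D ^ i ∣ choose (2 * J! * |D| ^ J * t) i` for `1 ≤ i ≤ J`. -/
lemma choose_dvd (D : ℤ) (J t i : ℕ) (hi : 1 ≤ i) (hiJ : i ≤ J) :
    ∃ w : ℤ, ((2 * J.factorial * D.natAbs ^ J * t).choose i : ℤ) = 2 * (D ^ i * w) := by
  obtain ⟨q, hq⟩ : i ∣ J.factorial := Nat.dvd_factorial hi hiJ
  rcases Nat.eq_zero_or_pos (2 * J.factorial * D.natAbs ^ J * t) with h0 | h0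
  · rw [h0]
    obtain ⟨i', rfl⟩ : ∃ i', i = i' + 1 := ⟨i - 1, by omega⟩
    exact ⟨0, by simp⟩
  obtain ⟨n', hn'⟩ : ∃ n', 2 * J.factorial * D.natAbs ^ J * t = n' + 1 := ⟨_, (Nat.succ_pred_eq_of_pos h0).symm⟩
  obtain ⟨i', rfl⟩ : ∃ i', i = i' + 1 := ⟨i - 1, by omega⟩
  have h1 : (n' + 1) * n'.choose i' = (n' + 1).choose (i' + 1) * (i' + 1) := Nat.add_one_mul_choose_eq n' i'
  have h2 : (n' + 1).choose (i' + 1) = 2 * D.natAbs ^ J * (q * t * n'.choose i') := by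
    have h3 : (i' + 1) * ((n' + 1).choose (i' + 1)) = (i' + 1) * (2 * D.natAbs ^ J * (q * t * n'.choose i')) := by
      rw [mul_comm (i' + 1), ← h1, ← hn', hq]; ring
    exact Nat.eq_of_mul_eq_mul_left (Nat.succ_pos _) h3
  obtain ⟨u, hu⟩ : ∃ u : ℤ, (D.natAbs : ℤ) ^ J = D ^ (i' + 1) * u := by
    have h4 : D ∣ (D.natAbs : ℤ) := Int.dvd_natAbs.2 (dvd_refl D)
    exact (pow_dvd_pow_of_dvd h4 (i' + 1)).trans (pow_dvd_pow _ hiJ)
  refine ⟨u * (q * t * n'.choose i'), ?_⟩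
  rw [hn', h2]
  push_cast
  rw [← Int.natCast_natAbs, hu]
  ring

lemma reverse_pow' {F : Type*} [Field F] (V : F[X]) (n : ℕ) : (V ^ n).reverse = V.reverse ^ n := by
  induction n with
  | zero => rw [pow_zero, pow_zero, ← C_1, reverse_C]
  | succ n ih => rw [pow_succ, reverse_mul_of_domain, ih, pow_succ]

/-- The top coefficients of a suitable power are even integers. -/
lemma pow_top_even (V : ℚ[X]) (hV : V.Monic) (J : ℕ) :
    ∃ M : ℕ, 2 ≤ M ∧ ∀ t : ℕ, 1 ≤ t → ∀ i, i < V.natDegree * (M * t) →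
      V.natDegree * (M * t) ≤ i + J → ∃ z : ℤ, (V ^ (M * t)).coeff i = 2 * z := by
  obtain ⟨D, hDm, hb⟩ := IsLocalization.integerNormalization_spec (nonZeroDivisors ℤ) V
  have hD0 : D ≠ 0 := nonZeroDivisors.ne_zero hDm
  have hDabs : 1 ≤ D.natAbs := Nat.one_le_iff_ne_zero.2 (Int.natAbs_ne_zero.2 hD0)
  refine ⟨2 * J.factorial * D.natAbs ^ J, ?_, ?_⟩
  · have h1 : 1 ≤ J.factorial := Nat.factorial_pos J
    have h2 : 1 ≤ D.natAbs ^ J := Nat.one_le_pow _ _ hDabs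
    nlinarith [Nat.mul_le_mul h1 h2]
  intro t ht i hi hiJ
  set n := 2 * J.factorial * D.natAbs ^ J * t with hn
  set N := V.natDegree with hN
  -- the reversed polynomial
  set W := V.reverse with hW
  have hW0 : W.coeff 0 = 1 := by
    rw [hW, coeff_zero_reverse, hV.leadingCoeff]
  have hWg : W = X * W.divX + 1 := by
    have := divX_mul_X_add W
    rw [hW0, C_1] at this
    rw [mul_comm]; exact this.symm
  set g := W.divX with hg
  obtain ⟨G, hG⟩ : ∃ G : ℤ[X], G.map (algebraMap ℤ ℚ) = C (D : ℚ) * g := by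
    set V' := IsLocalization.integerNormalization (nonZeroDivisors ℤ) V with hV'
    refine ⟨(reflect N V').divX, ?_⟩
    ext j
    rw [coeff_map, coeff_divX, coeff_reflect, coeff_C_mul, hg, coeff_divX, hW, coeff_reverse]
    have h1 := congrArg (fun p => p.coeff (revAt N (j + 1))) hb
    simp only [coeff_map, coeff_smul] at h1
    rw [h1, ← hN]
    simp
  have hgi : ∀ l j : ℕ, ∃ z : ℤ, (D : ℚ) ^ l * (g ^ l).coeff j = z := by
    intro l j
    refine ⟨(G ^ l).coeff j, ?_⟩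
    have h1 : (G ^ l).map (algebraMap ℤ ℚ) = C ((D : ℚ) ^ l) * g ^ l := by
      rw [Polynomial.map_pow, hG, mul_pow, C_pow]
    have h2 := congrArg (fun p => p.coeff j) h1
    simp only [coeff_map, coeff_C_mul] at h2
    rw [← h2]; simp
  have hcoef : (V ^ n).coeff i = (W ^ n).coeff (N * n - i) := by
    rw [hW, ← reverse_pow', coeff_reverse, natDegree_pow, ← hN, mul_comm n N,
      revAt_le (Nat.sub_le _ _), Nat.sub_sub_self hi.le]
  obtain ⟨j, hj⟩ : ∃ j, N * n - i = j := ⟨_, rfl⟩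
  have hj1 : 1 ≤ j := by omega
  have hjJ : j ≤ J := by omega
  rw [hcoef, hj, hWg, add_pow, finsetSum_coeff]
  have hterm : ∀ l ∈ Finset.range (n + 1), ∃ z : ℤ,
      ((X * g) ^ l * 1 ^ (n - l) * ((n.choose l : ℕ) : ℚ[X])).coeff j = (2 * z : ℚ) := by
    intro l _
    rw [one_pow, mul_one, mul_pow, ← C_eq_natCast, coeff_mul_C, coeff_X_pow_mul']
    split_ifs with hlj
    · rcases Nat.eq_zero_or_pos l with hl | hl
      · subst hl
        refine ⟨0, ?_⟩
        have : j ≠ 0 := by omega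
        simp [coeff_one, this]
      · obtain ⟨z, hz⟩ := hgi l (j - l)
        obtain ⟨w, hw⟩ := choose_dvd D J t l hl (hlj.trans hjJ)
        refine ⟨z * w, ?_⟩
        have hw' : ((n.choose l : ℕ) : ℚ) = 2 * ((D : ℚ) ^ l * w) := by
          rw [hn]; exact_mod_cast hw
        rw [hw']
        push_cast
        rw [← hz]; ring
    · exact ⟨0, by simp⟩
  choose! z hz using hterm
  refine ⟨∑ l ∈ Finset.range (n + 1), z l, ?_⟩
  rw [Finset.sum_congr rfl hz, ← Finset.mul_sum]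
  push_cast
  rfl

lemma dk_monic {F : Type*} [Field F] {A B : F[X]} {k β : ℕ} (hA : A.Monic) (hAk : A.natDegree = k)
    (hB : B.degree ≤ (2 * β : ℕ)) (hβ : β < k) (m : ℕ) (hm : 1 ≤ m) :
    (dk A B m).Monic ∧ (dk A B m).natDegree = k * m := by
  have hAd : A.degree = k := by rw [degree_eq_natDegree hA.ne_zero, hAk]
  rcases Nat.lt_or_ge m 2 with h | h
  · have : m = 1 := by omega
    subst this
    rw [dk_one, mul_one]
    exact ⟨hA, hAk⟩
  · obtain ⟨n, rfl⟩ : ∃ n, m = n + 2 := ⟨m - 2, by omega⟩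
    have h1 := (degree_dk_sub hAd.le hB hβ.le n).1
    have h2 : (dk A B (n + 2)) = A ^ (n + 2) + (dk A B (n + 2) - A ^ (n + 2)) := by ring
    have h3 : (A ^ (n + 2)).degree = (k * (n + 2) : ℕ) := by
      rw [degree_eq_natDegree (hA.pow _).ne_zero, natDegree_pow, hAk, mul_comm]
    have h4 : (dk A B (n + 2) - A ^ (n + 2)).degree < (A ^ (n + 2)).degree := by
      rw [h3]
      refine h1.trans_lt ?_
      have : k * n + 2 * β < k * (n + 2) := by nlinarith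
      exact_mod_cast this
    have h5 : (dk A B (n + 2)).Monic := by
      rw [h2]; exact (hA.pow _).add_of_left h4
    refine ⟨h5, ?_⟩
    have h6 : (dk A B (n + 2)).degree = (k * (n + 2) : ℕ) := by
      rw [h2, degree_add_eq_left_of_degree_lt h4, h3]
    exact natDegree_eq_of_degree_eq_some h6

/-- Robinson's trick. -/
theorem integrality {A B : ℚ[X]} {k β : ℕ} (hA : A.Monic) (hAk : A.natDegree = k)
    (hB : B.degree ≤ (2 * β : ℕ)) (hβ : β < k) (S : ℕ) :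
    ∃ M : ℕ, 1 ≤ M ∧ ∀ t : ℕ, 1 ≤ t → ∀ i, i < k * (M * t) →
      k * (M * t) ≤ i + S * (k - β) → ∃ z : ℤ, (dk A B (M * t)).coeff i = 2 * z := by
  obtain ⟨hV, hVk⟩ := dk_monic hA hAk hB hβ (S + 1) (Nat.le_add_left _ _)
  obtain ⟨M₂, hM₂, H⟩ := pow_top_even (dk A B (S + 1)) hV (S * (k - β))
  refine ⟨(S + 1) * M₂, by nlinarith, ?_⟩
  intro t ht i hi hiJ
  rw [hVk] at H
  have e1 : k * ((S + 1) * M₂ * t) = k * (S + 1) * (M₂ * t) := by ring
  rw [e1] at hi hiJ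
  obtain ⟨z, hz⟩ := H t ht i hi hiJ
  refine ⟨z, ?_⟩
  rw [← hz, mul_assoc (S + 1), dk_comp]
  obtain ⟨n, hn⟩ : ∃ n, M₂ * t = n + 2 := ⟨M₂ * t - 2, by
    have : 2 * 1 ≤ M₂ * t := Nat.mul_le_mul hM₂ ht
    omega⟩
  have hBd : (B ^ (S + 1)).degree ≤ (2 * (β * (S + 1)) : ℕ) := by
    refine (degree_pow_le _ _).trans ?_
    calc (S + 1) • B.degree ≤ (S + 1) • ((2 * β : ℕ) : WithBot ℕ) := nsmul_le_nsmul_right hB _
      _ = ((2 * (β * (S + 1)) : ℕ) : WithBot ℕ) := by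
        rw [← Nat.cast_smul_eq_nsmul (WithBot ℕ), smul_eq_mul, ← Nat.cast_mul]
        congr 1; ring
  have hVd : (dk A B (S + 1)).degree ≤ ((k * (S + 1) : ℕ) : WithBot ℕ) := by
    rw [degree_eq_natDegree hV.ne_zero, hVk]
  have h1 := (degree_dk_sub hVd hBd (Nat.mul_le_mul_right _ hβ.le) n).1
  rw [hn] at hi hiJ ⊢
  have h2 : (dk (dk A B (S + 1)) (B ^ (S + 1)) (n + 2) - dk A B (S + 1) ^ (n + 2)).coeff i = 0 := by
    apply coeff_eq_zero_of_degree_lt
    refine h1.trans_lt ?_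
    obtain ⟨γ, hγ⟩ : ∃ γ, k = β + γ := ⟨k - β, by omega⟩
    have hkβ : k - β = γ := by omega
    have hγ1 : 1 ≤ γ := by omega
    rw [hkβ] at hiJ
    have : k * (S + 1) * n + 2 * (β * (S + 1)) < i := by
      have e2 : k * (S + 1) * (n + 2) = k * (S + 1) * n + 2 * (β * (S + 1)) + 2 * (γ * (S + 1)) := by
        rw [hγ]; ring
      have e3 : S * γ < 2 * (γ * (S + 1)) := by nlinarith
      omega
    exact_mod_cast this
  rw [coeff_sub] at h2
  linarith

end Pool.Agent.STP
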