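import Mathlib
import Pool.Agent.Lib.MP_8ca0c8_nt.Dickson
import Pool.Agent.Lib.MP_8ca0c8_nt.Field

namespace Pool.Agent.STP

open Polynomial Module

lemma toR_mul (P Q : ℤ[X]) : toR (P * Q) = toR P * toR Q := Polynomial.map_mul _

lemma toR_add (P Q : ℤ[X]) : toR (P + Q) = toR P + toR Q := Polynomial.map_add _

lemma toR_X : toR X = X := Polynomial.map_X _

/-- `Good T P`: modulo `P`, every real polynomial is an even integer polynomial plus `T m * q` with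
`q` exponentially small. -/
def Good (T : ℕ → ℝ[X]) (P : ℤ[X]) : Prop :=
  ∃ C θ : ℝ, 0 ≤ C ∧ 0 < θ ∧ θ < 1 ∧ ∀ m : ℕ, 1 ≤ m → ∀ ρ : ℝ[X], ∃ g : ℤ[X], ∃ q : ℝ[X],
      g.degree < P.degree ∧ q.degree < P.degree ∧ (∀ i, |q.coeff i| ≤ C * θ ^ m) ∧
      toR P ∣ ρ - 2 * toR g - T m * q

lemma good_of_norm (P : ℤ[X]) (hP : P.Monic) (hirr : Irreducible (P.map (Int.castRingHom ℚ)))
    (A : ℝ[X]) (hN : 1 < |Algebra.norm ℝ (AdjoinRoot.mk (toR P) A)|) (T : ℕ → ℝ[X])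
    (hT : ∀ m, 1 ≤ m → toR P ∣ T m - A ^ m) : Good T P := by
  obtain ⟨C, θ, hC, hθ0, hθ1, h⟩ := field_step P hP hirr A hN
  refine ⟨C, θ, hC, hθ0, hθ1, fun m hm ρ => ?_⟩
  obtain ⟨g, q, h1, h2, h3, h4⟩ := h m ρ
  refine ⟨g, q, h1, h2, h3, ?_⟩
  have : ρ - 2 * toR g - T m * q = (ρ - 2 * toR g - A ^ m * q) - (T m - A ^ m) * q := by ring
  rw [this]
  exact dvd_sub h4 ((hT m hm).mul_right q)

lemma good_one (T : ℕ → ℝ[X]) : Good T 1 := by
  refine ⟨0, 1 / 2, le_rfl, by norm_num, by norm_num, fun m _ ρ => ⟨0, 0, ?_, ?_, ?_, ?_⟩⟩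
  · rw [degree_zero, degree_one]; exact WithBot.bot_lt_coe 0
  · rw [degree_zero, degree_one]; exact WithBot.bot_lt_coe 0
  · intro i; simp
  · simp [toR]

lemma coeff_mul_bound (p q : ℝ[X]) {M : ℝ} (hM : 0 ≤ M) (hq : ∀ i, |q.coeff i| ≤ M) (i : ℕ) :
    |(p * q).coeff i| ≤ (∑ j ∈ p.support, |p.coeff j|) * M := by
  rw [coeff_mul]
  refine (Finset.abs_sum_le_sum_abs _ _).trans ?_
  have h1 : ∑ x ∈ Finset.HasAntidiagonal.antidiagonal i, |p.coeff x.1 * q.coeff x.2|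
      ≤ ∑ x ∈ Finset.HasAntidiagonal.antidiagonal i, |p.coeff x.1| * M := by
    refine Finset.sum_le_sum fun x _ => ?_
    rw [abs_mul]
    exact mul_le_mul_of_nonneg_left (hq _) (abs_nonneg _)
  refine h1.trans ?_
  rw [← Finset.sum_mul]
  refine mul_le_mul_of_nonneg_right ?_ hM
  rw [Finset.Nat.sum_antidiagonal_eq_sum_range_succ_mk]
  calc ∑ j ∈ Finset.range (i + 1), |p.coeff j|
      = ∑ j ∈ (Finset.range (i + 1)).filter (fun j => p.coeff j ≠ 0), |p.coeff j| := by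
        rw [Finset.sum_filter_of_ne]
        intro x _ hx hx2
        apply hx; rw [hx2, abs_zero]
    _ ≤ _ := by
        apply Finset.sum_le_sum_of_subset_of_nonneg
        · intro j hj
          rw [Polynomial.mem_support_iff]
          exact (Finset.mem_filter.1 hj).2
        · intro j _ _; exact abs_nonneg _

lemma degree_mul_lt_of {R : Type*} [CommRing R] [IsDomain R] {p q r : R[X]} (hp : p ≠ 0)
    (h : q.degree < r.degree) : (p * q).degree < (p * r).degree := by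
  rw [degree_mul, degree_mul]
  exact WithBot.add_lt_add_left (by rwa [Ne, degree_eq_bot]) h

lemma degree_lt_mul_left {R : Type*} [CommRing R] [IsDomain R] {p q r : R[X]} (hp : p.Monic)
    (h : q.degree < r.degree) : q.degree < (p * r).degree := by
  refine h.trans_le ?_
  rw [degree_mul]
  have : (0 : WithBot ℕ) ≤ p.degree := zero_le_degree_iff.2 hp.ne_zero
  calc r.degree = 0 + r.degree := (zero_add _).symm
    _ ≤ _ := by gcongr

lemma good_mul {T : ℕ → ℝ[X]} {P₁ P₂ : ℤ[X]} (h₁ : P₁.Monic) (h₂ : P₂.Monic)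
    (hg₁ : Good T P₁) (hg₂ : Good T P₂) : Good T (P₁ * P₂) := by
  obtain ⟨C₁, θ₁, hC₁, hθ₁, hθ₁', H₁⟩ := hg₁
  obtain ⟨C₂, θ₂, hC₂, hθ₂, hθ₂', H₂⟩ := hg₂
  set S := ∑ j ∈ (toR P₁).support, |(toR P₁).coeff j| with hS
  have hS0 : 0 ≤ S := Finset.sum_nonneg fun _ _ => abs_nonneg _
  refine ⟨C₁ + S * C₂, max θ₁ θ₂, by positivity, lt_max_of_lt_left hθ₁, max_lt hθ₁' hθ₂', ?_⟩
  intro m hm ρ
  obtain ⟨g₁, q₁, a₁, b₁, c₁, d₁⟩ := H₁ m hm ρ
  obtain ⟨ρ₁, hρ₁⟩ := d₁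
  obtain ⟨g₂, q₂, a₂, b₂, c₂, d₂⟩ := H₂ m hm ρ₁
  obtain ⟨ρ₂, hρ₂⟩ := d₂
  refine ⟨g₁ + P₁ * g₂, q₁ + toR P₁ * q₂, ?_, ?_, ?_, ?_⟩
  · refine (degree_add_le _ _).trans_lt (max_lt ?_ (degree_mul_lt_of h₁.ne_zero a₂))
    rw [mul_comm]
    exact degree_lt_mul_left h₂ a₁
  · rw [← degree_toR, toR_mul]
    refine (degree_add_le _ _).trans_lt (max_lt ?_ (degree_mul_lt_of (toR_monic h₁).ne_zero ?_))
    · rw [mul_comm]
      refine degree_lt_mul_left (toR_monic h₂) ?_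
      rwa [degree_toR]
    · rwa [degree_toR]
  · intro i
    rw [coeff_add]
    refine (abs_add_le _ _).trans ?_
    have e1 : |q₁.coeff i| ≤ C₁ * max θ₁ θ₂ ^ m := (c₁ i).trans
      (mul_le_mul_of_nonneg_left (pow_le_pow_left₀ hθ₁.le (le_max_left _ _) m) hC₁)
    have e2 : |(toR P₁ * q₂).coeff i| ≤ S * (C₂ * max θ₁ θ₂ ^ m) := by
      refine coeff_mul_bound _ _ (by positivity) (fun j => (c₂ j).trans ?_) i
      exact mul_le_mul_of_nonneg_left (pow_le_pow_left₀ hθ₂.le (le_max_right _ _) m) hC₂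
    calc _ ≤ _ := add_le_add e1 e2
      _ = _ := by ring
  · refine ⟨ρ₂, ?_⟩
    have e1 : toR (P₁ * P₂) = toR P₁ * toR P₂ := toR_mul _ _
    have e2 : toR (g₁ + P₁ * g₂) = toR g₁ + toR P₁ * toR g₂ := by
      rw [toR_add, toR_mul]
    rw [e1, e2]
    linear_combination hρ₁ + toR P₁ * hρ₂

lemma good_pow {T : ℕ → ℝ[X]} {P : ℤ[X]} (h : P.Monic) (hg : Good T P) (n : ℕ) :
    Good T (P ^ n) := by
  induction n with
  | zero => rw [pow_zero]; exact good_one T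
  | succ n ih => rw [pow_succ]; exact good_mul (h.pow n) h ih hg

lemma good_prod {T : ℕ → ℝ[X]} {ι : Type*} (s : Finset ι) (Q : ι → ℤ[X]) (b : ι → ℕ)
    (h : ∀ i ∈ s, (Q i).Monic) (hg : ∀ i ∈ s, Good T (Q i)) : Good T (∏ i ∈ s, Q i ^ b i) := by
  classical
  induction s using Finset.induction_on with
  | empty => simpa using good_one T
  | insert a s ha ih =>
    rw [Finset.prod_insert ha]
    refine good_mul ((h a (Finset.mem_insert_self _ _)).pow _) ?_ ?_ ?_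
    · exact monic_prod_of_monic _ _ fun i hi => (h i (Finset.mem_insert_of_mem hi)).pow _
    · exact good_pow (h a (Finset.mem_insert_self _ _)) (hg a (Finset.mem_insert_self _ _)) _
    · exact ih (fun i hi => h i (Finset.mem_insert_of_mem hi))
        (fun i hi => hg i (Finset.mem_insert_of_mem hi))

/-- the variant with odd constant term -/
lemma good_X_mul {T : ℕ → ℝ[X]} {P : ℤ[X]} (hP : P.Monic) (hg : Good T P) {a : ℝ} (ha : 1 < |a|)
    (hT : ∀ m, 1 ≤ m → (T m).coeff 0 = a ^ m) :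
    ∃ D θ : ℝ, 0 ≤ D ∧ 0 < θ ∧ θ < 1 ∧ ∀ m : ℕ, 1 ≤ m → ∀ ρ : ℝ[X], ∃ g : ℤ[X], ∃ q : ℝ[X],
      g.degree < (X * P).degree ∧ q.degree < (X * P).degree ∧ (∀ i, |q.coeff i| ≤ D * θ ^ m) ∧
      Odd (g.coeff 0) ∧ toR (X * P) ∣ ρ - 2 * toR g - T m * q := by
  obtain ⟨D, θ, hC, hθ, hθ', H⟩ := hg
  have ha0 : 0 < |a| := lt_trans zero_lt_one ha
  have hai : |a|⁻¹ < 1 := inv_lt_one_of_one_lt₀ ha
  refine ⟨2 + D, max |a|⁻¹ θ, by positivity, lt_max_of_lt_right hθ, max_lt hai hθ', ?_⟩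
  intro m hm ρ
  -- constant term
  obtain ⟨n, hn⟩ : ∃ n : ℤ, |ρ.coeff 0 - 2 * ((2 * n + 1 : ℤ) : ℝ)| ≤ 2 := by
    refine ⟨round ((ρ.coeff 0 - 2) / 4), ?_⟩
    have := abs_sub_round ((ρ.coeff 0 - 2) / 4)
    have h2 : ρ.coeff 0 - 2 * ((2 * round ((ρ.coeff 0 - 2) / 4) + 1 : ℤ) : ℝ)
        = 4 * ((ρ.coeff 0 - 2) / 4 - round ((ρ.coeff 0 - 2) / 4)) := by
      push_cast; ring
    rw [h2, abs_mul]
    norm_num at this ⊢
    linarith
  set q0 : ℝ := (ρ.coeff 0 - 2 * ((2 * n + 1 : ℤ) : ℝ)) / a ^ m with hq0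
  have ham : a ^ m ≠ 0 := pow_ne_zero _ (abs_pos.1 ha0)
  have hq0b : |q0| ≤ 2 * (max |a|⁻¹ θ) ^ m := by
    rw [hq0, abs_div, abs_pow, div_eq_mul_inv, ← inv_pow]
    exact mul_le_mul hn (pow_le_pow_left₀ (by positivity) (le_max_left _ _) m) (by positivity)
      (by norm_num)
  have hX : (X : ℝ[X]) ∣ ρ - 2 * toR (C (2 * n + 1 : ℤ)) - T m * Polynomial.C q0 := by
    rw [X_dvd_iff, coeff_sub, coeff_sub, coeff_mul_C, hT m hm, hq0, toR, map_C]
    have : (2 : ℝ[X]) = Polynomial.C 2 := rfl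
    rw [this, ← C_mul, coeff_C_zero]
    simp only [eq_intCast]
    field_simp
    ring
  obtain ⟨ρ₁, hρ₁⟩ := hX
  obtain ⟨g, q, h1, h2, h3, ρ₂, hρ₂⟩ := H m hm ρ₁
  have hXPr : toR (X * P) = X * toR P := by rw [toR_mul, toR_X]
  have hdeg0 : (0 : WithBot ℕ) < (X * P).degree := by
    rw [degree_mul, degree_X]
    have : (0 : WithBot ℕ) ≤ P.degree := zero_le_degree_iff.2 hP.ne_zero
    calc (0 : WithBot ℕ) < 1 := zero_lt_one
      _ = 1 + 0 := (add_zero _).symm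
      _ ≤ _ := by gcongr
  refine ⟨Polynomial.C (2 * n + 1) + X * g, Polynomial.C q0 + X * q, ?_, ?_, ?_, ?_, ?_⟩
  · exact (degree_add_le _ _).trans_lt (max_lt (degree_C_le.trans_lt hdeg0)
      (degree_mul_lt_of X_ne_zero h1))
  · refine (degree_add_le _ _).trans_lt (max_lt (degree_C_le.trans_lt hdeg0) ?_)
    rw [← degree_toR, hXPr]
    refine degree_mul_lt_of X_ne_zero ?_
    rwa [degree_toR]
  · intro i
    rcases i with _ | i
    · rw [coeff_add, coeff_C_zero, coeff_X_mul_zero, add_zero]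
      refine hq0b.trans ?_
      have : 0 ≤ D * max |a|⁻¹ θ ^ m := by positivity
      linarith
    · rw [coeff_add, coeff_C_succ, coeff_X_mul, zero_add]
      refine (h3 i).trans ?_
      have e1 : D * θ ^ m ≤ D * max |a|⁻¹ θ ^ m :=
        mul_le_mul_of_nonneg_left (pow_le_pow_left₀ hθ.le (le_max_right _ _) m) hC
      have e2 : 0 ≤ 2 * max |a|⁻¹ θ ^ m := by positivity
      linarith
  · rw [coeff_add, coeff_C_zero, coeff_X_mul_zero, add_zero]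
    exact ⟨n, rfl⟩
  · refine ⟨ρ₂, ?_⟩
    have e2 : toR (Polynomial.C (2 * n + 1) + X * g) = toR (C (2 * n + 1 : ℤ)) + X * toR g := by
      rw [toR_add, toR_mul, toR_X]
    rw [hXPr, e2]
    linear_combination hρ₁ + X * hρ₂

end Pool.Agent.STP
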