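import Mathlib
import Pool.Agent.Lib.MP_8ca0c8_nt.Approx

namespace Pool.Agent.STP

open Polynomial Module

/-- Removing the top coefficients. -/
lemma top_step {T : ℝ[X]} {N : ℕ} (hT : T.Monic) (hTN : T.natDegree = N) (β : ℕ) :
    ∀ s : ℕ, ∀ R : ℝ[X], R.degree < (N + β + s : ℕ) → ∃ g : ℤ[X], ∃ q : ℝ[X],
      g.degree < (N + β + s : ℕ) ∧ q.degree < (β + s : ℕ) ∧ (∀ i, |q.coeff i| ≤ 1) ∧
      (R - 2 * toR g - T * q).degree < (N + β : ℕ) := by
  intro s
  induction s with
  | zero =>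
    intro R hR
    refine ⟨0, 0, ?_, ?_, ?_, ?_⟩
    · rw [degree_zero]; exact WithBot.bot_lt_coe _
    · rw [degree_zero]; exact WithBot.bot_lt_coe _
    · intro i; simp
    · simpa [toR] using hR
  | succ s ih =>
    intro R hR
    set r := R.coeff (N + β + s) with hr
    obtain ⟨v, hv⟩ : ∃ v : ℤ, |r - 2 * v| ≤ 1 := by
      refine ⟨round (r / 2), ?_⟩
      have := abs_sub_round (r / 2)
      have h2 : r - 2 * (round (r / 2) : ℝ) = 2 * (r / 2 - round (r / 2)) := by ring
      rw [h2, abs_mul]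
      norm_num at this ⊢
      linarith
    set R₁ := R - 2 * toR (monomial (N + β + s) v) - T * monomial (β + s) (r - 2 * v) with hR₁
    have hgm : (toR (monomial (N + β + s) v)) = monomial (N + β + s) (v : ℝ) := by
      simp [toR]
    have hle : R₁.degree ≤ (N + β + s : ℕ) := by
      rw [hR₁, hgm]
      refine (degree_sub_le _ _).trans (max_le ((degree_sub_le _ _).trans (max_le ?_ ?_)) ?_)
      · refine (degree_le_iff_coeff_zero _ _).2 fun j hj => coeff_eq_zero_of_degree_lt (hR.trans_le ?_)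
        have hj' : N + β + s < j := by exact_mod_cast hj
        exact_mod_cast (by omega)
      · have : (2 : ℝ[X]) = C 2 := rfl
        rw [this, C_mul_monomial]
        exact degree_monomial_le _ _
      · refine (degree_mul_le _ _).trans ?_
        rw [degree_eq_natDegree hT.ne_zero, hTN]
        calc (N : WithBot ℕ) + (monomial (β + s) (r - 2 * v)).degree
            ≤ (N : WithBot ℕ) + ((β + s : ℕ) : WithBot ℕ) := by
              gcongr; exact degree_monomial_le _ _
          _ = _ := by rw [← Nat.cast_add, add_assoc]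
    have hcoef : R₁.coeff (N + β + s) = 0 := by
      rw [hR₁, hgm, coeff_sub, coeff_sub]
      have : (2 : ℝ[X]) = C 2 := rfl
      rw [this, C_mul_monomial, coeff_monomial, if_pos rfl]
      have h3 : N + β + s = N + (β + s) := by ring
      rw [h3, coeff_mul_monomial, ← hTN, hT.coeff_natDegree, hTN, ← h3, ← hr]
      ring
    have hlt : R₁.degree < (N + β + s : ℕ) := by
      refine lt_of_le_of_ne hle ?_
      intro he
      have := natDegree_eq_of_degree_eq_some he
      have h2 : R₁.leadingCoeff = 0 := by rw [leadingCoeff, this, hcoef]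
      rw [leadingCoeff_eq_zero] at h2
      rw [h2, degree_zero] at he
      exact absurd he.symm (WithBot.coe_ne_bot)
    obtain ⟨g, q, h1, h2, h3, h4⟩ := ih R₁ hlt
    refine ⟨monomial (N + β + s) v + g, monomial (β + s) (r - 2 * v) + q, ?_, ?_, ?_, ?_⟩
    · refine (degree_add_le _ _).trans_lt (max_lt ((degree_monomial_le _ _).trans_lt ?_) (h1.trans ?_))
      · exact_mod_cast (by omega)
      · exact_mod_cast (by omega)
    · refine (degree_add_le _ _).trans_lt (max_lt ((degree_monomial_le _ _).trans_lt ?_) (h2.trans ?_))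
      · exact_mod_cast (by omega)
      · exact_mod_cast (by omega)
    · intro i
      rw [coeff_add, coeff_monomial]
      split_ifs with hi
      · rw [← hi, coeff_eq_zero_of_degree_lt h2, add_zero]
        exact hv
      · rw [zero_add]; exact h3 i
    · have : R - 2 * toR (monomial (N + β + s) v + g) - T * (monomial (β + s) (r - 2 * v) + q)
          = R₁ - 2 * toR g - T * q := by
        rw [toR_add, hR₁]; ring
      rw [this]
      exact h4

/-- evaluation bound -/
lemma abs_eval_le {q : ℝ[X]} {k : ℕ} (hq : q.degree < k) {M : ℝ} (hM : ∀ i, |q.coeff i| ≤ M)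
    {x ρ : ℝ} (hρ : 1 ≤ ρ) (hx : |x| ≤ ρ) : |q.eval x| ≤ M * (k * ρ ^ k) := by
  have hM0 : 0 ≤ M := (abs_nonneg _).trans (hM 0)
  rcases Nat.eq_zero_or_pos k with hk | hk
  · subst hk
    have : q = 0 := by
      rw [← degree_eq_bot]
      have h2 : q.degree < 0 := by simpa using hq
      exact Nat.WithBot.lt_zero_iff.1 h2
    rw [this]; simp
  have hlt : q.natDegree < k := by
    rcases eq_or_ne q 0 with h0 | h0
    · rw [h0, natDegree_zero]; exact hk
    · exact (natDegree_lt_iff_degree_lt h0).2 hq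
  rw [eval_eq_sum_range' hlt]
  refine (Finset.abs_sum_le_sum_abs _ _).trans ?_
  calc ∑ i ∈ Finset.range k, |q.coeff i * x ^ i| ≤ ∑ i ∈ Finset.range k, M * ρ ^ k := by
        refine Finset.sum_le_sum fun i hi => ?_
        rw [abs_mul, abs_pow]
        refine mul_le_mul (hM i) ?_ (by positivity) hM0
        calc |x| ^ i ≤ ρ ^ i := pow_le_pow_left₀ (abs_nonneg _) hx i
          _ ≤ ρ ^ k := pow_le_pow_right₀ hρ (Finset.mem_range.1 hi).le
    _ = M * (k * ρ ^ k) := by
        rw [Finset.sum_const, Finset.card_range, nsmul_eq_mul]; ring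

/-- General assumptions on the approximation data. -/
structure Data (A : ℝ[X]) (B : ℤ[X]) (c : ℝ) (K : Set ℝ) (T : ℕ → ℝ[X]) (k β : ℕ) (b₀ ρ : ℝ) :
    Prop where
  hc : 1 < c
  hβk : β < k
  hB : B.Monic
  hBdeg : B.natDegree = β
  hT0 : T 0 = 2
  hTmonic : ∀ m, 1 ≤ m → (T m).Monic
  hTdeg : ∀ m, 1 ≤ m → (T m).natDegree = k * m
  hb₀ : 0 < b₀
  hρ : 1 ≤ ρ
  hKρ : ∀ x ∈ K, |x| ≤ ρ
  hKB : ∀ x ∈ K, b₀ ≤ |(toR B).eval x|
  hKT : ∀ x ∈ K, ∀ m, |(T m).eval x| ≤ 2 * (c * |(toR B).eval x|) ^ m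
  hgood : Good T B

variable {A : ℝ[X]} {B : ℤ[X]} {c : ℝ} {K : Set ℝ} {T : ℕ → ℝ[X]} {k β : ℕ} {b₀ ρ : ℝ}

lemma Data.step (D : Data A B c K T k β b₀ ρ) : ∃ C : ℝ, 0 ≤ C ∧ ∀ m : ℕ, ∀ R : ℝ[X],
    R.degree < (k * (m + 1) : ℕ) → ∃ g : ℤ[X], ∃ q R' : ℝ[X],
      g.degree < (k * (m + 1) : ℕ) ∧ q.degree < k ∧ (∀ i, |q.coeff i| ≤ C) ∧
      R'.degree < (k * m : ℕ) ∧ R = 2 * toR g + T m * q + toR B * R' := by
  obtain ⟨E, θ, hC, hθ, hθ', H⟩ := D.hgood
  refine ⟨1 + E, by positivity, ?_⟩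
  intro m R hR
  rcases Nat.eq_zero_or_pos m with hm | hm
  · -- m = 0
    subst hm
    simp only [zero_add, mul_one] at hR ⊢
    obtain ⟨g, hgd, hgc⟩ : ∃ g : ℤ[X], g.degree < k ∧
        ∀ i, i < k → g.coeff i = round (R.coeff i / 2) := by
      refine ⟨vecPoly (fun i : Fin k => round (R.coeff i / 2)), vecPoly_degree_lt _, ?_⟩
      intro i hi
      exact vecPoly_coeff (fun i : Fin k => round (R.coeff i / 2)) ⟨i, hi⟩
    have hqd : (C (1 / 2 : ℝ) * R - toR g).degree < k := by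
      refine (degree_sub_le _ _).trans_lt (max_lt ?_ (by rwa [degree_toR]))
      rw [degree_C_mul (by norm_num)]; exact hR
    refine ⟨g, C (1 / 2 : ℝ) * R - toR g, 0, hgd, hqd, ?_, ?_, ?_⟩
    · intro i
      by_cases hi : i < k
      · rw [coeff_sub, coeff_C_mul, toR, coeff_map, hgc i hi]
        have := abs_sub_round (R.coeff i / 2)
        have h2 : 1 / 2 * R.coeff i - (Int.castRingHom ℝ) (round (R.coeff i / 2))
            = R.coeff i / 2 - round (R.coeff i / 2) := by simp; ring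
        rw [h2]
        linarith
      · rw [coeff_eq_zero_of_degree_lt (hqd.trans_le (by exact_mod_cast not_lt.1 hi)), abs_zero]
        positivity
    · rw [degree_zero]; exact WithBot.bot_lt_coe _
    · rw [D.hT0]
      have h2 : (2 : ℝ[X]) * C (1 / 2 : ℝ) = 1 := by
        have : (2 : ℝ[X]) = C 2 := rfl
        rw [this, ← C_mul]; norm_num
      linear_combination (-R) * h2
  · have h1 : k * (m + 1) = k * m + β + (k - β) := by
      have := D.hβk; rw [mul_add, mul_one]; omega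
    rw [h1] at hR
    obtain ⟨g₁, q₁, a₁, b₁, c₁, d₁⟩ := top_step (D.hTmonic m hm) (D.hTdeg m hm) β (k - β) R hR
    obtain ⟨g₂, q₂, a₂, b₂, c₂, R', hR'⟩ := H m hm (R - 2 * toR g₁ - T m * q₁)
    have hBd : B.degree = β := by rw [degree_eq_natDegree D.hB.ne_zero, D.hBdeg]
    have hk2 : β + (k - β) = k := by have := D.hβk; omega
    refine ⟨g₁ + g₂, q₁ + q₂, R', ?_, ?_, ?_, ?_, ?_⟩
    · rw [h1]
      refine (degree_add_le _ _).trans_lt (max_lt a₁ (a₂.trans_le ?_))
      rw [hBd]; exact_mod_cast (by omega)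
    · refine (degree_add_le _ _).trans_lt (max_lt ?_ (b₂.trans ?_))
      · rwa [hk2] at b₁
      · rw [hBd]; exact_mod_cast D.hβk
    · intro i
      rw [coeff_add]
      refine (abs_add_le _ _).trans (add_le_add (c₁ i) ((c₂ i).trans ?_))
      exact mul_le_of_le_one_right hC (pow_le_one₀ hθ.le hθ'.le)
    · have h3 : (toR B * R').degree < (k * m + β : ℕ) := by
        rw [← hR']
        refine (degree_sub_le _ _).trans_lt (max_lt ((degree_sub_le _ _).trans_lt (max_lt d₁ ?_)) ?_)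
        · have h2' : (2 : ℝ[X]) = C 2 := rfl
          rw [h2', degree_C_mul (by norm_num), degree_toR]
          refine a₂.trans_le ?_
          rw [hBd]; exact_mod_cast (by omega)
        · rw [degree_mul, degree_eq_natDegree (D.hTmonic m hm).ne_zero, D.hTdeg m hm, Nat.cast_add]
          refine WithBot.add_lt_add_left WithBot.coe_ne_bot ?_
          rw [← hBd]; exact b₂
      have h4 : (toR B * R').degree = β + R'.degree := by
        rw [degree_mul, degree_toR, hBd]
      rw [h4, Nat.cast_add, add_comm] at h3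
      exact lt_of_add_lt_add_right h3
    · rw [toR_add]
      linear_combination hR'

lemma Data.phase2 (D : Data A B c K T k β b₀ ρ) : ∃ C : ℝ, 0 < C ∧ ∀ M : ℕ, ∀ R : ℝ[X],
    R.degree < (k * M : ℕ) → ∃ G : ℤ[X], G.degree < (k * M : ℕ) ∧
      ∀ x ∈ K, |(R - 2 * toR G).eval x| ≤ C * (c * |(toR B).eval x|) ^ M := by
  obtain ⟨C₂, hC₂, H⟩ := D.step
  set C₃ : ℝ := C₂ * (k * ρ ^ k) with hC₃
  have hρ0 : 0 < ρ := lt_of_lt_of_le zero_lt_one D.hρ
  have hC₃0 : 0 ≤ C₃ := by positivity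
  have hc1 : 0 < c - 1 := by linarith [D.hc]
  have hb₀ := D.hb₀
  set C₄ : ℝ := (2 * C₃ + 1) / ((c - 1) * b₀) with hC₄
  have hC₄0 : 0 < C₄ := by positivity
  refine ⟨C₄, hC₄0, ?_⟩
  intro M
  induction M with
  | zero =>
    intro R hR
    have hR0 : R = 0 := by
      rw [← degree_eq_bot]
      have h2 : R.degree < 0 := by simpa using hR
      exact Nat.WithBot.lt_zero_iff.1 h2
    refine ⟨0, ?_, ?_⟩
    · rw [degree_zero]; exact WithBot.bot_lt_coe _
    · intro x hx
      rw [hR0]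
      simp [toR, hC₄0.le]
  | succ M ih =>
    intro R hR
    obtain ⟨g, q, R', h1, h2, h3, h4, h5⟩ := H M R hR
    obtain ⟨G', h6, h7⟩ := ih R' h4
    refine ⟨g + B * G', ?_, ?_⟩
    · refine (degree_add_le _ _).trans_lt (max_lt h1 ?_)
      have hBd : B.degree = β := by rw [degree_eq_natDegree D.hB.ne_zero, D.hBdeg]
      rw [degree_mul, hBd]
      have h8 : ((k * (M + 1) : ℕ) : WithBot ℕ) = (k : WithBot ℕ) + ((k * M : ℕ) : WithBot ℕ) := by
        rw [← Nat.cast_add]; congr 1; ring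
      rw [h8]
      have hβk : (β : WithBot ℕ) ≤ (k : WithBot ℕ) := by exact_mod_cast D.hβk.le
      calc (β : WithBot ℕ) + G'.degree ≤ (k : WithBot ℕ) + G'.degree := by gcongr
        _ < _ := WithBot.add_lt_add_left WithBot.coe_ne_bot h6
    · intro x hx
      have e1 : (R - 2 * toR (g + B * G')).eval x
          = (T M).eval x * q.eval x + (toR B).eval x * (R' - 2 * toR G').eval x := by
        have : R - 2 * toR (g + B * G') = T M * q + toR B * (R' - 2 * toR G') := by
          rw [toR_add, toR_mul]; linear_combination h5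
        rw [this, eval_add, eval_mul, eval_mul]
      rw [e1]
      set y := c * |(toR B).eval x| with hy
      have hBx : b₀ ≤ |(toR B).eval x| := D.hKB x hx
      have hc0 : 0 < c := by linarith [D.hc]
      have hy0 : 0 ≤ y := by positivity
      have h8 : |(T M).eval x| ≤ 2 * y ^ M := D.hKT x hx M
      have h9 : |q.eval x| ≤ C₃ := abs_eval_le h2 h3 D.hρ (D.hKρ x hx)
      have h10 := h7 x hx
      calc |(T M).eval x * q.eval x + (toR B).eval x * (R' - 2 * toR G').eval x|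
          ≤ |(T M).eval x| * |q.eval x| + |(toR B).eval x| * |(R' - 2 * toR G').eval x| := by
            rw [← abs_mul, ← abs_mul]; exact abs_add_le _ _
        _ ≤ 2 * y ^ M * C₃ + |(toR B).eval x| * (C₄ * y ^ M) := by
            gcongr
        _ = (2 * C₃ + |(toR B).eval x| * C₄) * y ^ M := by ring
        _ ≤ (C₄ * y) * y ^ M := by
            refine mul_le_mul_of_nonneg_right ?_ (by positivity)
            have h11 : 2 * C₃ ≤ C₄ * ((c - 1) * b₀) := by
              rw [hC₄]; field_simp; linarith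
            have h12 : C₄ * ((c - 1) * b₀) ≤ C₄ * ((c - 1) * |(toR B).eval x|) := by
              gcongr
            rw [hy]
            linarith
        _ = C₄ * y ^ (M + 1) := by ring

/-- The approximation theorem. -/
theorem Data.approx (D : Data A B c K T k β b₀ ρ) (hX : X ∣ B) {a : ℝ} (ha : 1 < |a|)
    (hTa : ∀ m, 1 ≤ m → (T m).coeff 0 = a ^ m) :
    ∃ S : ℕ, 1 ≤ S ∧ ∃ m₀ : ℕ, ∀ m, m₀ ≤ m → S * (k - β) < k * m ∧ ∀ F : ℝ[X],
      F.degree < (k * m - S * (k - β) : ℕ) → ∃ G : ℤ[X], G.degree < (k * m - S * (k - β) : ℕ) ∧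
        Odd (G.coeff 0) ∧
        ∀ x ∈ K, |(F - 2 * toR G).eval x| < (c * |(toR B).eval x|) ^ m := by
  obtain ⟨C₄, hC₄, H₂⟩ := D.phase2
  have hc := D.hc
  have hc0 : 0 < c := by linarith
  have hβk := D.hβk
  have hb₀ := D.hb₀
  have hρ := D.hρ
  -- choice of S
  obtain ⟨S, hS⟩ : ∃ S : ℕ, 2 * C₄ < c ^ S := pow_unbounded_of_one_lt _ hc
  have hS' : 2 * C₄ < c ^ (S + 1) := hS.trans_le (pow_le_pow_right₀ hc.le (Nat.le_succ S))
  generalize hSS : S + 1 = S₁ at hS'
  have hS1 : 1 ≤ S₁ := by omega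
  obtain ⟨C₅, θ, hC₅, hθ, hθ', H₁⟩ := good_X_mul (D.hB.pow S₁) (good_pow D.hB D.hgood S₁) ha hTa
  set C₆ : ℝ := C₅ * ((1 + β * S₁ : ℕ) * ρ ^ (1 + β * S₁)) with hC₆
  have hC₆0 : 0 ≤ C₆ := by positivity
  obtain ⟨n₀, hn₀⟩ : ∃ n₀ : ℕ, ∀ n, n₀ ≤ n → 4 * C₆ * θ ^ n < (c * b₀) ^ (S₁ + 1) := by
    have hlim : Filter.Tendsto (fun n : ℕ => 4 * C₆ * θ ^ n) Filter.atTop (nhds (4 * C₆ * 0)) :=
      (tendsto_pow_atTop_nhds_zero_of_lt_one hθ.le hθ').const_mul _
    rw [mul_zero] at hlim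
    have hpos : (0 : ℝ) < (c * b₀) ^ (S₁ + 1) := by positivity
    have := (hlim.eventually (gt_mem_nhds hpos))
    exact Filter.eventually_atTop.1 this
  refine ⟨S₁, hS1, n₀ + S₁ + 2, ?_⟩
  intro m hm
  obtain ⟨m', hm'⟩ : ∃ m', m = m' + (S₁ + 1) := ⟨m - (S₁ + 1), by omega⟩
  have hm'1 : 1 ≤ m' := by omega
  have hm'n : n₀ ≤ m' := by omega
  obtain ⟨γ, hγ⟩ : ∃ γ, k = β + γ := ⟨k - β, by omega⟩
  have hγ1 : 1 ≤ γ := by omega
  have hkβ : k - β = γ := by omega
  rw [hkβ]
  have hkm : k * m = S₁ * γ + (β * S₁ + k * (m' + 1)) := by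
    rw [hm']; nth_rewrite 1 [hγ]; nth_rewrite 1 [hγ]; ring
  have hsub : k * m - S₁ * γ = β * S₁ + k * (m' + 1) := by omega
  have hk1 : 1 ≤ k := by omega
  refine ⟨?_, ?_⟩
  · rw [hkm]
    have : 0 < k * (m' + 1) := by positivity
    omega
  rw [hsub]
  intro F hF
  have hBd : B.degree = β := by rw [degree_eq_natDegree D.hB.ne_zero, D.hBdeg]
  have hXB : (X * B ^ S₁ : ℤ[X]).degree = (1 + β * S₁ : ℕ) := by
    rw [degree_mul, degree_X, degree_pow, hBd]
    simp [mul_comm]
  obtain ⟨g, q, h1, h2, h3, h4, R, h5⟩ := H₁ m' hm'1 F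
  rw [hXB] at h1 h2
  have hXBm : (X * B ^ S₁ : ℤ[X]).Monic := monic_X.mul (D.hB.pow S₁)
  have h2k : 2 ≤ k * (m' + 1) := by nlinarith
  -- degree of `X * R`
  have hR : ((X : ℝ[X]) * R).degree < (k * (m' + 1) : ℕ) := by
    have e1 : (toR (X * B ^ S₁) * R).degree < (β * S₁ + k * (m' + 1) : ℕ) := by
      rw [← h5]
      refine (degree_sub_le _ _).trans_lt (max_lt ((degree_sub_le _ _).trans_lt (max_lt hF ?_)) ?_)
      · have h2' : (2 : ℝ[X]) = C 2 := rfl
        rw [h2', degree_C_mul (by norm_num), degree_toR]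
        exact h1.trans_le (by exact_mod_cast (by omega))
      · rw [degree_mul, degree_eq_natDegree (D.hTmonic m' hm'1).ne_zero, D.hTdeg m' hm'1]
        have h6 : ((β * S₁ + k * (m' + 1) : ℕ) : WithBot ℕ)
            = ((k * m' : ℕ) : WithBot ℕ) + ((k + β * S₁ : ℕ) : WithBot ℕ) := by
          rw [← Nat.cast_add]; congr 1; ring
        rw [h6]
        refine WithBot.add_lt_add_left WithBot.coe_ne_bot (h2.trans_le ?_)
        exact_mod_cast (by omega)
    have e2 : toR (X * B ^ S₁) * R = toR (B ^ S₁) * (X * R) := by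
      rw [toR_mul, toR_X]; ring
    rw [e2, degree_mul, degree_toR, degree_pow, hBd] at e1
    have e3 : ((β * S₁ + k * (m' + 1) : ℕ) : WithBot ℕ)
        = S₁ • (β : WithBot ℕ) + ((k * (m' + 1) : ℕ) : WithBot ℕ) := by
      rw [Nat.cast_add]; congr 1; simp [mul_comm]
    rw [e3] at e1
    exact lt_of_add_lt_add_left e1
  obtain ⟨G', h6, h7⟩ := H₂ (m' + 1) (X * R) hR
  refine ⟨g + B ^ S₁ * G', ?_, ?_, ?_⟩
  · refine (degree_add_le _ _).trans_lt (max_lt (h1.trans_le ?_) ?_)
    · exact_mod_cast (by omega)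
    · rw [degree_mul, degree_pow, hBd]
      have e3 : ((β * S₁ + k * (m' + 1) : ℕ) : WithBot ℕ)
          = S₁ • (β : WithBot ℕ) + ((k * (m' + 1) : ℕ) : WithBot ℕ) := by
        rw [Nat.cast_add]; congr 1; simp [mul_comm]
      rw [e3]
      refine WithBot.add_lt_add_left ?_ h6
      have : S₁ • (β : WithBot ℕ) = ((S₁ * β : ℕ) : WithBot ℕ) := by simp
      rw [this]; exact WithBot.coe_ne_bot
  · rw [coeff_add]
    have hz : (B ^ S₁ * G').coeff 0 = 0 := by
      have : X ∣ B ^ S₁ * G' := (hX.trans (dvd_pow_self B (by omega))).mul_right _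
      exact X_dvd_iff.1 this
    rw [hz, add_zero]
    exact h4
  · intro x hx
    set y := c * |(toR B).eval x| with hy
    have hBx : b₀ ≤ |(toR B).eval x| := D.hKB x hx
    have hBpos : 0 < |(toR B).eval x| := hb₀.trans_le hBx
    have hy0 : 0 < y := by positivity
    have e1 : (F - 2 * toR (g + B ^ S₁ * G')).eval x
        = (T m').eval x * q.eval x + ((toR B).eval x) ^ S₁ * (X * R - 2 * toR G').eval x := by
      have : F - 2 * toR (g + B ^ S₁ * G') = T m' * q + (toR B) ^ S₁ * (X * R - 2 * toR G') := by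
        have e0 : toR (B ^ S₁) = (toR B) ^ S₁ := Polynomial.map_pow _ _
        have e2 : toR (X * B ^ S₁) = X * (toR B) ^ S₁ := by rw [toR_mul, toR_X, e0]
        rw [e2] at h5
        rw [toR_add, toR_mul, e0]; linear_combination h5
      rw [this, eval_add, eval_mul, eval_mul, eval_pow]
    rw [e1]
    have h8 : |(T m').eval x| ≤ 2 * y ^ m' := D.hKT x hx m'
    have h9 : |q.eval x| ≤ C₆ * θ ^ m' := by
      have := abs_eval_le h2 h3 hρ (D.hKρ x hx)
      rw [hC₆]; linarith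
    have h10 := h7 x hx
    have h11 : 4 * C₆ * θ ^ m' < y ^ (S₁ + 1) := by
      refine (hn₀ m' hm'n).trans_le ?_
      exact pow_le_pow_left₀ (by positivity) (mul_le_mul_of_nonneg_left hBx hc0.le) _
    have h12 : |(toR B).eval x| ^ S₁ * c ^ S₁ = y ^ S₁ := by rw [hy]; ring
    calc |(T m').eval x * q.eval x + (toR B).eval x ^ S₁ * (X * R - 2 * toR G').eval x|
        ≤ |(T m').eval x| * |q.eval x| + |(toR B).eval x| ^ S₁ * |(X * R - 2 * toR G').eval x| := by
          rw [← abs_mul, ← abs_pow, ← abs_mul]; exact abs_add_le _ _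
      _ ≤ 2 * y ^ m' * (C₆ * θ ^ m') + |(toR B).eval x| ^ S₁ * (C₄ * y ^ (m' + 1)) := by
          gcongr
      _ = 1 / 2 * (4 * C₆ * θ ^ m') * y ^ m' + 1 / 2 * (|(toR B).eval x| ^ S₁ * (2 * C₄)) * y ^ (m' + 1) := by
          ring
      _ < 1 / 2 * y ^ (S₁ + 1) * y ^ m' + 1 / 2 * (|(toR B).eval x| ^ S₁ * c ^ S₁) * y ^ (m' + 1) := by
          have i1 : 1 / 2 * (4 * C₆ * θ ^ m') * y ^ m' < 1 / 2 * y ^ (S₁ + 1) * y ^ m' := by
            have : 0 < y ^ m' := by positivity
            nlinarith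
          have i2 : 1 / 2 * (|(toR B).eval x| ^ S₁ * (2 * C₄)) * y ^ (m' + 1)
              ≤ 1 / 2 * (|(toR B).eval x| ^ S₁ * c ^ S₁) * y ^ (m' + 1) := by
            gcongr
          linarith
      _ = y ^ m := by
          rw [h12, hm']; ring

end Pool.Agent.STP
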