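import Mathlib
import Pool.Agent.Lib.MP_8ca0c8_nt.Dickson

namespace Pool.Agent.STP

open Polynomial

/-- A monic polynomial of degree `n` with `n` disjoint sign changes splits. -/
lemma split_of_signs {ι : Type*} [Fintype ι] {P : ℝ[X]} (hP : P.Monic)
    (hdeg : P.natDegree = Fintype.card ι) (a b : ι → ℝ) (hab : ∀ i, a i < b i)
    (hs : ∀ i, P.eval (a i) * P.eval (b i) < 0)
    (hd : ∀ i j, i ≠ j → b i ≤ a j ∨ b j ≤ a i) :
    ∃ z : ι → ℝ, (∀ i, a i < z i ∧ z i < b i) ∧ P = ∏ i, (X - C (z i)) := by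
  classical
  have hz : ∀ i, ∃ z, a i < z ∧ z < b i ∧ P.eval z = 0 := by
    intro i
    have hcont : ContinuousOn (fun x => P.eval x) (Set.Icc (a i) (b i)) := P.continuous.continuousOn
    rcases mul_neg_iff.1 (hs i) with ⟨h1, h2⟩ | ⟨h1, h2⟩
    · obtain ⟨z, hz, hz0⟩ := intermediate_value_Ioo' (hab i).le hcont ⟨h2, h1⟩
      exact ⟨z, hz.1, hz.2, hz0⟩
    · obtain ⟨z, hz, hz0⟩ := intermediate_value_Ioo (hab i).le hcont ⟨h1, h2⟩
      exact ⟨z, hz.1, hz.2, hz0⟩
  choose z hz1 hz2 hz0 using hz
  refine ⟨z, fun i => ⟨hz1 i, hz2 i⟩, ?_⟩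
  have hinj : ∀ i j, i ≠ j → z i ≠ z j := by
    intro i j hij h
    have := hz1 i; have := hz2 i; have := hz1 j; have := hz2 j
    rcases hd i j hij with h' | h' <;> linarith
  have hdvd : (∏ i, (X - C (z i))) ∣ P := by
    refine Finset.prod_dvd_of_coprime ?_ ?_
    · intro i _ j _ hij
      exact isCoprime_X_sub_C_of_isUnit_sub (sub_ne_zero.2 (hinj i j hij)).isUnit
    · intro i _
      exact dvd_iff_isRoot.2 (hz0 i)
  have hm : (∏ i, (X - C (z i))).Monic := monic_prod_of_monic _ _ fun i _ => monic_X_sub_C _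
  refine eq_of_monic_of_dvd_of_natDegree_le hm hP hdvd ?_
  rw [hdeg, natDegree_prod_of_monic _ _ fun i _ => monic_X_sub_C _]
  simp

section

variable {k : ℕ} {x : Fin (k + 1) → ℝ}

lemma strictMono_of_lt {r : Fin k → ℝ} (h1 : ∀ l : Fin k, x l.castSucc < r l)
    (h2 : ∀ l : Fin k, r l < x l.succ) : StrictMono x :=
  Fin.strictMono_iff_lt_succ.2 fun l => (h1 l).trans (h2 l)

/-- signs of a split polynomial to the left of the `l`-th root -/
lemma sign_left {ρ : Fin k → ℝ} (h1 : ∀ l : Fin k, x l.castSucc < ρ l)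
    (h2 : ∀ l : Fin k, ρ l < x l.succ) (l : Fin k) {z : ℝ} (hz : x l.castSucc ≤ z) (hz' : z < ρ l) :
    0 < (∏ i, (z - ρ i)) * (∏ i, (x l.castSucc - ρ i)) := by
  rw [← Finset.prod_mul_distrib]
  refine Finset.prod_pos fun i _ => ?_
  have hmono := strictMono_of_lt h1 h2
  rcases lt_or_ge i l with h | h
  · have : x i.succ ≤ x l.castSucc := hmono.monotone (by
      rw [Fin.le_def]; simpa using h)
    have h3 := h2 i
    exact mul_pos (by linarith) (by linarith)
  · have h4 : ρ l ≤ ρ i := by
      rcases h.eq_or_lt with h5 | h5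
      · rw [h5]
      · have : x l.succ ≤ x i.castSucc := hmono.monotone (by
          rw [Fin.le_def]; simpa using h5)
        linarith [h2 l, h1 i]
    exact mul_pos_of_neg_of_neg (by linarith) (by linarith [h1 l])

lemma sign_right {ρ : Fin k → ℝ} (h1 : ∀ l : Fin k, x l.castSucc < ρ l)
    (h2 : ∀ l : Fin k, ρ l < x l.succ) (l : Fin k) {z : ℝ} (hz : z ≤ x l.succ) (hz' : ρ l < z) :
    (∏ i, (z - ρ i)) * (∏ i, (x l.castSucc - ρ i)) < 0 := by
  classical
  rw [← Finset.prod_mul_distrib, ← Finset.mul_prod_erase _ _ (Finset.mem_univ l)]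
  refine mul_neg_of_neg_of_pos ?_ (Finset.prod_pos fun i hi => ?_)
  · exact mul_neg_of_pos_of_neg (by linarith) (by linarith [h1 l])
  have hil : i ≠ l := (Finset.mem_erase.1 hi).1
  have hmono := strictMono_of_lt h1 h2
  rcases lt_or_gt_of_ne hil with h | h
  · have : x i.succ ≤ x l.castSucc := hmono.monotone (by
      rw [Fin.le_def]; simpa using h)
    have h3 := h2 i
    have h4 := h1 l
    exact mul_pos (by linarith) (by linarith)
  · have : x l.succ ≤ x i.castSucc := hmono.monotone (by
      rw [Fin.le_def]; simpa using h)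
    have h3 := h1 i
    have h4 := h1 l
    exact mul_pos_of_neg_of_neg (by linarith) (by linarith)

/-- the polynomial `A - y B` has exactly one root in each interval -/
lemma exists_bands {A B : ℝ[X]} {c : ℝ} (hA : A.Monic) (hAk : A.natDegree = k)
    (hB : B.degree < k) (hx : StrictMono x)
    (hdom : ∀ j, 2 * c * |B.eval (x j)| < |A.eval (x j)|)
    (halt : ∀ l : Fin k, A.eval (x l.castSucc) * A.eval (x l.succ) < 0)
    {y : ℝ} (hy : |y| ≤ 2 * c) :
    ∃ ρ : Fin k → ℝ, (∀ l, x l.castSucc < ρ l) ∧ (∀ l, ρ l < x l.succ) ∧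
      (∀ l, A.eval (ρ l) = y * B.eval (ρ l)) ∧
      (∀ l z, x l.castSucc ≤ z → z < ρ l → 0 < (A.eval z - y * B.eval z) * A.eval (x l.castSucc)) ∧
      (∀ l z, z ≤ x l.succ → ρ l < z → (A.eval z - y * B.eval z) * A.eval (x l.castSucc) < 0) := by
  have hlt : (C y * B).degree < A.degree := by
    rw [degree_eq_natDegree hA.ne_zero, hAk]
    refine (degree_mul_le _ _).trans_lt ?_
    calc (C y).degree + B.degree ≤ 0 + B.degree := add_le_add degree_C_le le_rfl
      _ = B.degree := zero_add _
      _ < _ := hB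
  have hF : (A - C y * B).Monic := hA.sub_of_left hlt
  have hFdeg : (A - C y * B).natDegree = k := by
    rw [natDegree_eq_of_degree_eq (degree_sub_eq_left_of_degree_lt hlt), hAk]
  have hpos : ∀ j, 0 < (A.eval (x j) - y * B.eval (x j)) * A.eval (x j) := by
    intro j
    have h1 : |y * B.eval (x j)| < |A.eval (x j)| := by
      rw [abs_mul]
      exact lt_of_le_of_lt (mul_le_mul_of_nonneg_right hy (abs_nonneg _)) (hdom j)
    rcases lt_or_ge (A.eval (x j)) 0 with h2 | h2
    · rw [abs_of_neg h2] at h1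
      have h3 := (abs_lt.1 h1).1
      exact mul_pos_of_neg_of_neg (by linarith) h2
    · rw [abs_of_nonneg h2] at h1
      have h3 := (abs_lt.1 h1).2
      have h4 := (abs_lt.1 h1).1
      exact mul_pos (by linarith) (by linarith)
  have heval : ∀ z, (A - C y * B).eval z = A.eval z - y * B.eval z := by
    intro z; simp
  obtain ⟨ρ, hρ, hprod⟩ := split_of_signs hF (by rw [hFdeg, Fintype.card_fin])
    (fun l : Fin k => x l.castSucc) (fun l : Fin k => x l.succ)
    (fun l => hx Fin.castSucc_lt_succ) (by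
      intro l
      rw [heval, heval]
      have h1 := hpos l.castSucc
      have h2 := hpos l.succ
      have h3 := halt l
      by_contra hcon
      push Not at hcon
      have h4 : 0 < ((A.eval (x l.castSucc) - y * B.eval (x l.castSucc)) * A.eval (x l.castSucc))
        * ((A.eval (x l.succ) - y * B.eval (x l.succ)) * A.eval (x l.succ)) := mul_pos h1 h2
      nlinarith)
    (by
      intro i j hij
      rcases lt_or_gt_of_ne hij with h | h
      · left; exact hx.monotone (by rw [Fin.le_def]; simpa using h)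
      · right; exact hx.monotone (by rw [Fin.le_def]; simpa using h))
  have heval' : ∀ z, A.eval z - y * B.eval z = ∏ i, (z - ρ i) := by
    intro z
    rw [← heval, hprod, eval_prod]
    simp
  refine ⟨ρ, fun l => (hρ l).1, fun l => (hρ l).2, ?_, ?_, ?_⟩
  · intro l
    have h1 := heval' (ρ l)
    rw [Finset.prod_eq_zero (Finset.mem_univ l) (sub_self _)] at h1
    linarith
  · intro l z hz hz'
    have h1 := sign_left (fun l => (hρ l).1) (fun l => (hρ l).2) l hz hz'
    rw [← heval', ← heval'] at h1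
    have h2 := hpos l.castSucc
    by_contra hcon
    push Not at hcon
    nlinarith [mul_pos h1 h2, mul_self_nonneg (A.eval (x l.castSucc) - y * B.eval (x l.castSucc))]
  · intro l z hz hz'
    have h1 := sign_right (fun l => (hρ l).1) (fun l => (hρ l).2) l hz hz'
    rw [← heval', ← heval'] at h1
    have h2 := hpos l.castSucc
    by_contra hcon
    push Not at hcon
    nlinarith [mul_neg_of_neg_of_pos h1 h2, mul_self_nonneg (A.eval (x l.castSucc) - y * B.eval (x l.castSucc))]

/-- Alternation points in the band around the `l`-th root of `A`. -/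
lemma exists_alternation {A B : ℝ[X]} {c : ℝ} (hc : 0 < c) (hA : A.Monic) (hAk : A.natDegree = k)
    (hB : B.degree < k) (hx : StrictMono x)
    (hdom : ∀ j, 2 * c * |B.eval (x j)| < |A.eval (x j)|)
    (halt : ∀ l : Fin k, A.eval (x l.castSucc) * A.eval (x l.succ) < 0)
    (hcop : ∀ z, A.eval z = 0 → B.eval z ≠ 0)
    {m : ℕ} (hm : 1 ≤ m) {P : ℝ[X]}
    (hP : ∀ z, x 0 ≤ z → z ≤ x (Fin.last k) → |A.eval z| ≤ 2 * c * |B.eval z| →
      |P.eval z - dk (A.eval z) ((c * B.eval z) ^ 2) m| < (c * |B.eval z|) ^ m) (l : Fin k) :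
    ∃ p : ℕ → ℝ, (∀ i, i < m → p i < p (i + 1)) ∧
      (∀ i, i ≤ m → x l.castSucc < p i ∧ p i < x l.succ) ∧
      (∀ i, i < m → P.eval (p i) * P.eval (p (i + 1)) < 0) := by
  classical
  -- the root function
  have hr : ∀ y : ℝ, |y| ≤ 2 * c → ∃ r : ℝ, x l.castSucc < r ∧ r < x l.succ ∧
      A.eval r = y * B.eval r ∧
      (∀ z, x l.castSucc ≤ z → z < r → 0 < (A.eval z - y * B.eval z) * A.eval (x l.castSucc)) ∧
      (∀ z, z ≤ x l.succ → r < z → (A.eval z - y * B.eval z) * A.eval (x l.castSucc) < 0) := by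
    intro y hy
    obtain ⟨ρ, h1, h2, h3, h4, h5⟩ := exists_bands hA hAk hB hx hdom halt hy
    exact ⟨ρ l, h1 l, h2 l, h3 l, h4 l, h5 l⟩
  choose! r hr1 hr2 hr3 hr4 hr5 using hr
  set σ := A.eval (x l.castSucc) with hσ
  have hBne : ∀ y, |y| ≤ 2 * c → B.eval (r y) ≠ 0 := by
    intro y hy h0
    have := hr3 y hy
    rw [h0, mul_zero] at this
    exact hcop _ this h0
  have hpair : ∀ y y', |y| ≤ 2 * c → |y'| ≤ 2 * c → y < y' →
      (r y < r y' ∧ σ * B.eval (r y) < 0 ∧ σ * B.eval (r y') < 0) ∨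
      (r y' < r y ∧ 0 < σ * B.eval (r y) ∧ 0 < σ * B.eval (r y')) := by
    intro y y' hy hy' hyy
    rcases lt_trichotomy (r y) (r y') with h | h | h
    · left
      have e1 := hr4 y' hy' (r y) (hr1 y hy).le h
      have e2 := hr5 y hy (r y') (hr2 y' hy').le h
      rw [hr3 y hy] at e1
      rw [hr3 y' hy'] at e2
      refine ⟨h, ?_, ?_⟩
      · by_contra hcon
        push Not at hcon
        nlinarith [mul_nonneg hcon (sub_pos.2 hyy).le]
      · by_contra hcon
        push Not at hcon
        nlinarith [mul_nonneg hcon (sub_pos.2 hyy).le]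
    · exfalso
      have e1 := hr3 y hy
      have e2 := hr3 y' hy'
      rw [← h] at e2
      have e3 : (y' - y) * B.eval (r y) = 0 := by linarith
      rcases mul_eq_zero.1 e3 with e4 | e4
      · linarith
      · exact hBne y hy e4
    · right
      have e1 := hr5 y' hy' (r y) (hr2 y hy).le h
      have e2 := hr4 y hy (r y') (hr1 y' hy').le h
      rw [hr3 y hy] at e1
      rw [hr3 y' hy'] at e2
      refine ⟨h, ?_, ?_⟩
      · by_contra hcon
        push Not at hcon
        nlinarith [mul_nonneg (neg_nonneg.2 hcon) (sub_pos.2 hyy).le]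
      · by_contra hcon
        push Not at hcon
        nlinarith [mul_nonneg (neg_nonneg.2 hcon) (sub_pos.2 hyy).le]
  -- the sample values
  set θ : ℕ → ℝ := fun i => Real.pi * i / m with hθ
  have hm0 : (0 : ℝ) < m := by exact_mod_cast hm
  have hθ0 : ∀ i, 0 ≤ θ i := fun i => by
    rw [hθ]; have := Real.pi_pos; positivity
  have hθπ : ∀ i, i ≤ m → θ i ≤ Real.pi := fun i hi => by
    rw [hθ]
    simp only
    rw [div_le_iff₀ hm0]
    have : (i : ℝ) ≤ m := by exact_mod_cast hi
    exact mul_le_mul_of_nonneg_left this Real.pi_pos.le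
  set y : ℕ → ℝ := fun i => 2 * c * Real.cos (θ i) with hy
  have hyabs : ∀ i, |y i| ≤ 2 * c := fun i => by
    rw [hy]
    simp only
    rw [abs_mul, abs_of_pos (by positivity : 0 < 2 * c)]
    exact mul_le_of_le_one_right (by positivity) (Real.abs_cos_le_one _)
  have hylt : ∀ i, i < m → y (i + 1) < y i := fun i hi => by
    rw [hy]
    simp only
    refine mul_lt_mul_of_pos_left ?_ (by positivity)
    refine Real.cos_lt_cos_of_nonneg_of_le_pi (hθ0 i) (hθπ (i + 1) hi) ?_
    rw [hθ]
    simp only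
    push_cast
    have := Real.pi_pos
    gcongr
    linarith
  -- sign of P at the sample points
  have hsignP : ∀ i, 0 < P.eval (r (y i)) * ((-1) ^ i * (B.eval (r (y i))) ^ m) := by
    intro i
    set z := r (y i) with hz
    have hzK : |A.eval z| ≤ 2 * c * |B.eval z| := by
      rw [hz, hr3 (y i) (hyabs i), abs_mul]
      exact mul_le_mul_of_nonneg_right (hyabs i) (abs_nonneg _)
    have hz0 : x 0 ≤ z := (hx.monotone (Fin.zero_le _)).trans (hr1 (y i) (hyabs i)).le
    have hzk : z ≤ x (Fin.last k) := (hr2 (y i) (hyabs i)).le.trans (hx.monotone (Fin.le_last _))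
    have h1 := hP z hz0 hzk hzK
    have h2 : A.eval z = 2 * (c * B.eval z) * Real.cos (θ i) := by
      rw [hz, hr3 (y i) (hyabs i), hy]; ring
    rw [h2, dk_cos] at h1
    have h3 : Real.cos (m * θ i) = (-1) ^ i := by
      have : (m : ℝ) * θ i = i * Real.pi := by rw [hθ]; field_simp
      rw [this, Real.cos_nat_mul_pi]
    rw [h3] at h1
    have hBz : B.eval z ≠ 0 := hBne (y i) (hyabs i)
    have h4 : 0 < |B.eval z| := abs_pos.2 hBz
    set u : ℝ := (-1) ^ i * (B.eval z) ^ m with hu
    have huabs : |u| = |B.eval z| ^ m := by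
      rw [hu, abs_mul, abs_pow, abs_pow, abs_neg, abs_one, one_pow, one_mul]
    have h5 : |P.eval z - 2 * c ^ m * u| < c ^ m * |u| := by
      have e1 : 2 * (c * B.eval z) ^ m * (-1) ^ i = 2 * c ^ m * u := by rw [hu]; ring
      have e2 : (c * |B.eval z|) ^ m = c ^ m * |u| := by rw [huabs]; ring
      rwa [e1, e2] at h1
    have hcm : 0 < c ^ m := by positivity
    have hu0 : u ≠ 0 := by
      intro h0
      rw [h0, abs_zero] at huabs
      exact absurd huabs (by positivity)
    rcases lt_or_gt_of_ne hu0 with h6 | h6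
    · rw [abs_of_neg h6] at h5
      have h7 := (abs_lt.1 h5).2
      have : P.eval z < 0 := by nlinarith
      exact mul_pos_of_neg_of_neg this h6
    · rw [abs_of_pos h6] at h5
      have h7 := (abs_lt.1 h5).1
      have : 0 < P.eval z := by nlinarith
      exact mul_pos this h6
  have hBB : ∀ i, i < m → 0 < (B.eval (r (y i))) ^ m * (B.eval (r (y (i + 1)))) ^ m := by
    intro i hi
    rw [← mul_pow]
    apply pow_pos
    rcases hpair _ _ (hyabs (i + 1)) (hyabs i) (hylt i hi) with ⟨_, h1, h2⟩ | ⟨_, h1, h2⟩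
    · by_contra hcon
      push Not at hcon
      nlinarith [mul_pos_of_neg_of_neg h1 h2, mul_self_nonneg σ]
    · by_contra hcon
      push Not at hcon
      nlinarith [mul_pos h1 h2, mul_self_nonneg σ]
  have hPP : ∀ i, i < m → P.eval (r (y i)) * P.eval (r (y (i + 1))) < 0 := by
    intro i hi
    have h1 := mul_pos (hsignP i) (hsignP (i + 1))
    have h2 := hBB i hi
    have h3 : ((-1 : ℝ) ^ i * (-1) ^ (i + 1)) = -1 := by
      rw [pow_succ, ← mul_assoc, ← mul_pow]; simp
    have h4 : P.eval (r (y i)) * ((-1) ^ i * (B.eval (r (y i))) ^ m) *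
        (P.eval (r (y (i + 1))) * ((-1) ^ (i + 1) * (B.eval (r (y (i + 1)))) ^ m))
        = - (P.eval (r (y i)) * P.eval (r (y (i + 1))) *
          ((B.eval (r (y i))) ^ m * (B.eval (r (y (i + 1)))) ^ m)) := by
      linear_combination (P.eval (r (y i)) * P.eval (r (y (i + 1))) *
          ((B.eval (r (y i))) ^ m * (B.eval (r (y (i + 1)))) ^ m)) * h3
    rw [h4] at h1
    by_contra hcon
    push Not at hcon
    nlinarith [mul_nonneg hcon h2.le]
  -- orientation
  have hy0 : |(0 : ℝ)| ≤ 2 * c := by rw [abs_zero]; positivity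
  have horient : (∀ i, i < m → r (y (i + 1)) < r (y i)) ∨ (∀ i, i < m → r (y i) < r (y (i + 1))) := by
    rcases lt_or_gt_of_ne (mul_ne_zero (b := B.eval (r 0)) (a := σ) (by
      intro h0
      have := hdom l.castSucc
      rw [← hσ, h0, abs_zero] at this
      exact absurd this (not_lt.2 (by positivity))) (hBne 0 hy0)) with h | h
    · left
      have hneg : ∀ y, |y| ≤ 2 * c → σ * B.eval (r y) < 0 := by
        intro y hy
        rcases lt_trichotomy y 0 with h1 | h1 | h1
        · rcases hpair y 0 hy hy0 h1 with ⟨_, h2, _⟩ | ⟨_, _, h2⟩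
          · exact h2
          · exact absurd h (not_lt.2 h2.le)
        · rw [h1]; exact h
        · rcases hpair 0 y hy0 hy h1 with ⟨_, _, h2⟩ | ⟨_, h2, _⟩
          · exact h2
          · exact absurd h (not_lt.2 h2.le)
      intro i hi
      rcases hpair _ _ (hyabs (i + 1)) (hyabs i) (hylt i hi) with ⟨h1, _, _⟩ | ⟨_, h2, _⟩
      · exact h1
      · exact absurd (hneg _ (hyabs (i + 1))) (not_lt.2 h2.le)
    · right
      have hneg : ∀ y, |y| ≤ 2 * c → 0 < σ * B.eval (r y) := by
        intro y hy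
        rcases lt_trichotomy y 0 with h1 | h1 | h1
        · rcases hpair y 0 hy hy0 h1 with ⟨_, _, h2⟩ | ⟨_, h2, _⟩
          · exact absurd h (not_lt.2 h2.le)
          · exact h2
        · rw [h1]; exact h
        · rcases hpair 0 y hy0 hy h1 with ⟨_, h2, _⟩ | ⟨_, _, h2⟩
          · exact absurd h (not_lt.2 h2.le)
          · exact h2
      intro i hi
      rcases hpair _ _ (hyabs (i + 1)) (hyabs i) (hylt i hi) with ⟨_, h2, _⟩ | ⟨h1, _, _⟩
      · exact absurd (hneg _ (hyabs (i + 1))) (not_lt.2 h2.le)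
      · exact h1
  rcases horient with h | h
  · refine ⟨fun i => r (y (m - i)), ?_, ?_, ?_⟩
    · intro i hi
      have h1 := h (m - (i + 1)) (by omega)
      have e1 : m - (i + 1) + 1 = m - i := by omega
      rwa [e1] at h1
    · intro i hi
      exact ⟨hr1 _ (hyabs _), hr2 _ (hyabs _)⟩
    · intro i hi
      have h1 := hPP (m - (i + 1)) (by omega)
      have e1 : m - (i + 1) + 1 = m - i := by omega
      rw [e1, mul_comm] at h1
      exact h1
  · refine ⟨fun i => r (y i), h, ?_, hPP⟩
    intro i hi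
    exact ⟨hr1 _ (hyabs _), hr2 _ (hyabs _)⟩

/-- All roots of `P` are real and lie between `x 0` and `x k`. -/
theorem split_of_approx {A B : ℝ[X]} {c : ℝ} (hc : 0 < c) (hA : A.Monic) (hAk : A.natDegree = k)
    (hB : B.degree < k) (hx : StrictMono x)
    (hdom : ∀ j, 2 * c * |B.eval (x j)| < |A.eval (x j)|)
    (halt : ∀ l : Fin k, A.eval (x l.castSucc) * A.eval (x l.succ) < 0)
    (hcop : ∀ z, A.eval z = 0 → B.eval z ≠ 0)
    {m : ℕ} (hm : 1 ≤ m) {P : ℝ[X]} (hPm : P.Monic) (hPdeg : P.natDegree = k * m)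
    (hP : ∀ z, x 0 ≤ z → z ≤ x (Fin.last k) → |A.eval z| ≤ 2 * c * |B.eval z| →
      |P.eval z - dk (A.eval z) ((c * B.eval z) ^ 2) m| < (c * |B.eval z|) ^ m) :
    ∃ z : Fin k × Fin m → ℝ, (∀ i, x 0 < z i) ∧ P = ∏ i, (X - C (z i)) := by
  have h := exists_alternation hc hA hAk hB hx hdom halt hcop hm hP
  choose p hp1 hp2 hp3 using h
  have hmono : ∀ l : Fin k, ∀ i j : ℕ, i ≤ j → j ≤ m → p l i ≤ p l j := by
    intro l i j hij hj
    induction j, hij using Nat.le_induction with
    | base => exact le_rfl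
    | succ n hn ih => exact (ih (by omega)).trans (hp1 l n (by omega)).le
  obtain ⟨z, hz, hprod⟩ := split_of_signs hPm
    (by rw [hPdeg, Fintype.card_prod, Fintype.card_fin, Fintype.card_fin])
    (fun i : Fin k × Fin m => p i.1 i.2) (fun i : Fin k × Fin m => p i.1 (i.2 + 1))
    (fun i => hp1 i.1 i.2 i.2.2) (fun i => hp3 i.1 i.2 i.2.2) (by
      rintro ⟨l, i⟩ ⟨l', i'⟩ hij
      simp only
      rcases lt_trichotomy l l' with h | h | h
      · left
        have h1 := (hp2 l (i + 1) (by omega)).2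
        have h2 := (hp2 l' i' (by omega)).1
        have h3 : x l.succ ≤ x l'.castSucc := hx.monotone (by rw [Fin.le_def]; simpa using h)
        linarith
      · subst h
        rcases lt_trichotomy i i' with h' | h' | h'
        · left; exact hmono l _ _ (by omega) (by omega)
        · exact absurd (by rw [h']) hij
        · right; exact hmono l _ _ (by omega) (by omega)
      · right
        have h1 := (hp2 l' (i' + 1) (by omega)).2
        have h2 := (hp2 l i (by omega)).1
        have h3 : x l'.succ ≤ x l.castSucc := hx.monotone (by rw [Fin.le_def]; simpa using h)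
        linarith)
  refine ⟨z, fun i => ?_, hprod⟩
  have h1 := (hz i).1
  have h2 := (hp2 i.1 i.2 i.2.2.le).1
  have h3 : x 0 ≤ x i.1.castSucc := hx.monotone (Fin.zero_le _)
  linarith

end

end Pool.Agent.STP
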