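import Mathlib
import Pool.Agent.Lib.MP_8ca0c8_nt.Defs
import Pool.Agent.Lib.MP_8ca0c8_nt.Finish
import Pool.Agent.Lib.MP_8ca0c8_nt.Phase2
import Pool.Agent.Lib.MP_8ca0c8_nt.Integral
import Pool.Agent.Lib.MP_8ca0c8_nt.Roots

namespace Pool.Agent.STP

open Polynomial

/-- The hypotheses of the criterion. -/
structure Cert {k n : ℕ} (r : Fin k → ℚ) (x : Fin (k + 1) → ℚ) (Q : Fin n → ℤ[X])
    (b : Fin n → ℕ) : Prop where
  x_pos : 0 < x 0
  lo : ∀ l : Fin k, x l.castSucc < r l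
  hi : ∀ l : Fin k, r l < x l.succ
  monic : ∀ i, (Q i).Monic
  irr : ∀ i, Irreducible (Q i)
  b_pos : ∀ i, 1 ≤ b i
  hasX : ∃ i, Q i = X
  deg : ∑ i, b i * (Q i).natDegree < k
  dom : ∀ j, 2 * ∏ i, |aeval (x j) (Q i)| ^ b i < ∏ l, |x j - r l|
  res : ∀ i, 1 < ∏ l, |aeval (r l) (Q i)|

section

variable {k n : ℕ} {r : Fin k → ℚ} {x : Fin (k + 1) → ℚ} {Q : Fin n → ℤ[X]} {b : Fin n → ℕ}

/-- the numerator polynomial over `ℚ` -/
noncomputable def AQ (r : Fin k → ℚ) : ℚ[X] := ∏ l, (X - C (r l))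

/-- the numerator polynomial over `ℝ` -/
noncomputable def AR (r : Fin k → ℚ) : ℝ[X] := ∏ l, (X - C (r l : ℝ))

/-- the denominator polynomial -/
noncomputable def BZ (Q : Fin n → ℤ[X]) (b : Fin n → ℕ) : ℤ[X] := ∏ i, Q i ^ b i

lemma AQ_monic : (AQ r).Monic := monic_prod_of_monic _ _ fun _ _ => monic_X_sub_C _

lemma AR_monic : (AR r).Monic := monic_prod_of_monic _ _ fun _ _ => monic_X_sub_C _

lemma AQ_natDegree : (AQ r).natDegree = k := by
  rw [AQ, natDegree_prod_of_monic _ _ fun i _ => monic_X_sub_C _]; simp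

lemma AR_natDegree : (AR r).natDegree = k := by
  rw [AR, natDegree_prod_of_monic _ _ fun i _ => monic_X_sub_C _]; simp

lemma AQ_map : (AQ r).map (algebraMap ℚ ℝ) = AR r := by
  rw [AQ, AR, Polynomial.map_prod]
  simp

lemma AR_eval (z : ℝ) : (AR r).eval z = ∏ l, (z - r l) := by
  rw [AR, eval_prod]; simp

lemma cast_aeval (P : ℤ[X]) (q : ℚ) : ((aeval q P : ℚ) : ℝ) = (toR P).eval (q : ℝ) := by
  rw [aeval_def, toR, eval_map]
  have h := Polynomial.hom_eval₂ P (algebraMap ℤ ℚ) (algebraMap ℚ ℝ) q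
  rw [eq_ratCast] at h
  rw [h]
  congr 1

lemma BR_eval (z : ℝ) : (toR (BZ Q b)).eval z = ∏ i, ((toR (Q i)).eval z) ^ b i := by
  rw [BZ, toR, Polynomial.map_prod, eval_prod]
  simp [toR]

lemma Cert.B_monic (h : Cert r x Q b) : (BZ Q b).Monic :=
  monic_prod_of_monic _ _ fun i _ => (h.monic i).pow _

lemma Cert.B_natDegree (h : Cert r x Q b) : (BZ Q b).natDegree = ∑ i, b i * (Q i).natDegree := by
  rw [BZ, natDegree_prod_of_monic _ _ fun i _ => (h.monic i).pow _]
  refine Finset.sum_congr rfl fun i _ => ?_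
  rw [(h.monic i).natDegree_pow]

lemma Cert.X_dvd (h : Cert r x Q b) : X ∣ BZ Q b := by
  obtain ⟨i, hi⟩ := h.hasX
  have h1 : Q i ^ b i ∣ BZ Q b := Finset.dvd_prod_of_mem _ (Finset.mem_univ i)
  refine dvd_trans ?_ h1
  rw [hi]
  exact dvd_pow_self X (by have := h.b_pos i; omega)

lemma Cert.Q_dvd (h : Cert r x Q b) (i : Fin n) : Q i ∣ BZ Q b := by
  have h1 : Q i ^ b i ∣ BZ Q b := Finset.dvd_prod_of_mem _ (Finset.mem_univ i)
  exact (dvd_pow_self _ (by have := h.b_pos i; omega)).trans h1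

lemma Cert.resR (h : Cert r x Q b) (i : Fin n) : 1 < ∏ l, |(toR (Q i)).eval (r l : ℝ)| := by
  have h1 : ((1 : ℚ) : ℝ) < ((∏ l, |aeval (r l) (Q i)| : ℚ) : ℝ) := by exact_mod_cast h.res i
  rw [Rat.cast_one, Rat.cast_prod] at h1
  convert h1 using 2 with l
  rw [Rat.cast_abs, cast_aeval]

lemma Cert.domR (h : Cert r x Q b) (j : Fin (k + 1)) :
    2 * |(toR (BZ Q b)).eval (x j : ℝ)| < |(AR r).eval (x j : ℝ)| := by
  have h1 : ((2 * ∏ i, |aeval (x j) (Q i)| ^ b i : ℚ) : ℝ) < ((∏ l, |x j - r l| : ℚ) : ℝ) := by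
    exact_mod_cast h.dom j
  rw [Rat.cast_mul, Rat.cast_prod, Rat.cast_prod] at h1
  rw [BR_eval, AR_eval, Finset.abs_prod, Finset.abs_prod]
  convert h1 using 2
  · norm_num
  · refine Finset.prod_congr rfl fun i _ => ?_
    rw [Rat.cast_pow, Rat.cast_abs, cast_aeval, abs_pow]
  · push_cast; rfl

lemma Cert.alt (h : Cert r x Q b) (l : Fin k) :
    (AR r).eval (x l.castSucc : ℝ) * (AR r).eval (x l.succ : ℝ) < 0 := by
  have h1 : ∀ l : Fin k, ((x l.castSucc : ℚ) : ℝ) < (r l : ℝ) := fun l => by exact_mod_cast h.lo l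
  have h2 : ∀ l : Fin k, (r l : ℝ) < ((x l.succ : ℚ) : ℝ) := fun l => by exact_mod_cast h.hi l
  have := sign_right (x := fun j => ((x j : ℚ) : ℝ)) (ρ := fun l => (r l : ℝ)) h1 h2 l le_rfl (h2 l)
  rw [AR_eval, AR_eval, mul_comm]
  exact this

lemma Cert.cop (h : Cert r x Q b) (z : ℝ) (hz : (AR r).eval z = 0) :
    (toR (BZ Q b)).eval z ≠ 0 := by
  rw [AR_eval, Finset.prod_eq_zero_iff] at hz
  obtain ⟨l, _, hl⟩ := hz
  have hzl : z = r l := by linarith
  rw [BR_eval, Finset.prod_ne_zero_iff]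
  intro i _
  apply pow_ne_zero
  rw [hzl]
  intro h0
  have h1 := h.resR i
  rw [Finset.prod_eq_zero (Finset.mem_univ l) (by rw [h0, abs_zero])] at h1
  linarith

lemma Cert.exists_c (h : Cert r x Q b) : ∃ c : ℚ, 1 < c ∧
    ∀ j, 2 * (c : ℝ) * |(toR (BZ Q b)).eval (x j : ℝ)| < |(AR r).eval (x j : ℝ)| := by
  have h1 : ∀ᶠ c : ℝ in nhds 1, ∀ j : Fin (k + 1),
      2 * c * |(toR (BZ Q b)).eval (x j : ℝ)| < |(AR r).eval (x j : ℝ)| := by
    rw [Filter.eventually_all]
    intro j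
    have hcont : ContinuousAt (fun c : ℝ => 2 * c * |(toR (BZ Q b)).eval (x j : ℝ)|) 1 := by
      fun_prop
    apply hcont.eventually_lt continuousAt_const
    have := h.domR j
    simpa using this
  rw [Metric.eventually_nhds_iff] at h1
  obtain ⟨ε, hε, hε2⟩ := h1
  obtain ⟨c, hc1, hc2⟩ := exists_rat_btwn (show (1 : ℝ) < 1 + ε by linarith)
  refine ⟨c, by exact_mod_cast hc1, hε2 ?_⟩
  rw [Real.dist_eq, abs_of_pos (by linarith)]
  linarith

lemma Cert.good (h : Cert r x Q b) (c : ℝ) :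
    Good (dk (AR r) ((C c * toR (BZ Q b)) ^ 2)) (BZ Q b) := by
  refine good_prod _ _ _ (fun i _ => h.monic i) fun i _ => ?_
  refine good_of_norm (Q i) (h.monic i) ?_ (AR r) ?_ _ ?_
  · exact (Monic.irreducible_iff_irreducible_map_fraction_map (h.monic i)).1 (h.irr i)
  · rw [AR, abs_norm_prod (h.monic i)]
    exact h.resR i
  · intro m hm
    obtain ⟨m', rfl⟩ : ∃ m', m = m' + 1 := ⟨m - 1, by omega⟩
    refine dvd_trans ?_ (dvd_dk_sub_pow _ _ m')
    have h1 : toR (Q i) ∣ toR (BZ Q b) := by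
      obtain ⟨w, hw⟩ := h.Q_dvd i
      rw [hw, toR_mul]; exact dvd_mul_right _ _
    exact (h1.mul_left _).trans (dvd_pow_self _ two_ne_zero)

/-- **The criterion**: the mean of the `r l` is the mean trace of a totally positive algebraic
integer. -/
theorem Cert.mean_mem (h : Cert r x Q b) : (((∑ l, r l) / k : ℚ) : ℝ) ∈ meanTraceSet := by
  classical
  obtain ⟨c, hc, hdomc⟩ := h.exists_c
  have hcR : (1 : ℝ) < c := by exact_mod_cast hc
  have hc0 : (0 : ℝ) < c := by linarith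
  set B := BZ Q b with hB
  set β := ∑ i, b i * (Q i).natDegree with hβ
  have hβk : β < k := h.deg
  have hBdeg : B.natDegree = β := h.B_natDegree
  have hBm : B.Monic := h.B_monic
  set T : ℕ → ℝ[X] := dk (AR r) ((C (c : ℝ) * toR B) ^ 2) with hT
  set BQ : ℚ[X] := B.map (Int.castRingHom ℚ) with hBQ
  have hBdR : (toR B).degree = β := by
    rw [degree_toR, degree_eq_natDegree hBm.ne_zero, hBdeg]
  have hBdQ : BQ.degree = β := by
    rw [hBQ, degree_map_eq_of_injective (RingHom.injective_int _),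
      degree_eq_natDegree hBm.ne_zero, hBdeg]
  have hc2R : ((C (c : ℝ) * toR B) ^ 2).degree ≤ (2 * β : ℕ) := by
    rw [degree_pow, degree_C_mul hc0.ne', hBdR]; simp
  have hc2Q : ((C c * BQ) ^ 2).degree ≤ (2 * β : ℕ) := by
    rw [degree_pow, degree_C_mul (by linarith : c ≠ 0), hBdQ]; simp
  have hTmap : ∀ m, (dk (AQ r) ((C c * BQ) ^ 2) m).map (algebraMap ℚ ℝ) = T m := by
    intro m
    have h1 := map_dk (AQ r) ((C c * BQ) ^ 2) (mapRingHom (algebraMap ℚ ℝ)) m
    rw [coe_mapRingHom] at h1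
    rw [h1, hT]
    congr 1
    · exact AQ_map
    · rw [Polynomial.map_pow, Polynomial.map_mul, map_C, hBQ, Polynomial.map_map]
      have : (algebraMap ℚ ℝ).comp (Int.castRingHom ℚ) = Int.castRingHom ℝ := RingHom.ext_int _ _
      rw [this]; rfl
  have hTm := fun m (hm : 1 ≤ m) => dk_monic (AR_monic (r := r)) AR_natDegree hc2R hβk m hm
  -- the set K
  set K : Set ℝ := {z | ((x 0 : ℚ) : ℝ) ≤ z ∧ z ≤ ((x (Fin.last k) : ℚ) : ℝ) ∧
    |(AR r).eval z| ≤ 2 * c * |(toR B).eval z|} with hK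
  have hx0 : (0 : ℝ) < ((x 0 : ℚ) : ℝ) := by exact_mod_cast h.x_pos
  have hlo : ∀ l : Fin k, ((x l.castSucc : ℚ) : ℝ) < (r l : ℝ) := fun l => by exact_mod_cast h.lo l
  have hhi : ∀ l : Fin k, (r l : ℝ) < ((x l.succ : ℚ) : ℝ) := fun l => by exact_mod_cast h.hi l
  have hxmono : StrictMono (fun j => ((x j : ℚ) : ℝ)) :=
    strictMono_of_lt (x := fun j => ((x j : ℚ) : ℝ)) hlo hhi
  have hKne : ∀ z ∈ K, (toR B).eval z ≠ 0 := by
    intro z hz h0
    have h1 := hz.2.2
    rw [h0, abs_zero, mul_zero] at h1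
    exact h.cop z (abs_nonpos_iff.1 h1) h0
  have hKcl : IsCompact K := by
    have : K = Set.Icc ((x 0 : ℚ) : ℝ) ((x (Fin.last k) : ℚ) : ℝ) ∩
        {z | |(AR r).eval z| ≤ 2 * c * |(toR B).eval z|} := by
      ext z; simp only [hK, Set.mem_setOf_eq, Set.mem_inter_iff, Set.mem_Icc, and_assoc]
    rw [this]
    exact isCompact_Icc.inter_right (isClosed_le (by fun_prop) (by fun_prop))
  obtain ⟨b₀, hb₀, hKB⟩ : ∃ b₀ : ℝ, 0 < b₀ ∧ ∀ z ∈ K, b₀ ≤ |(toR B).eval z| := by
    rcases K.eq_empty_or_nonempty with h0 | h0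
    · exact ⟨1, one_pos, by rw [h0]; simp⟩
    · obtain ⟨z₀, hz₀, hmin⟩ := hKcl.exists_isMinOn h0
        (f := fun z => |(toR B).eval z|) (by fun_prop)
      exact ⟨_, abs_pos.2 (hKne z₀ hz₀), fun z hz => hmin hz⟩
  have hD : Data (AR r) B c K T k β b₀ (max 1 ((x (Fin.last k) : ℚ) : ℝ)) :=
    { hc := hcR
      hβk := hβk
      hB := hBm
      hBdeg := hBdeg
      hT0 := rfl
      hTmonic := fun m hm => (hTm m hm).1
      hTdeg := fun m hm => (hTm m hm).2
      hb₀ := hb₀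
      hρ := le_max_left _ _
      hKρ := by
        intro z hz
        rw [abs_of_pos (hx0.trans_le hz.1)]
        exact hz.2.1.trans (le_max_right _ _)
      hKB := hKB
      hKT := by
        intro z hz m
        have h1 := map_dk (AR r) ((C (c : ℝ) * toR B) ^ 2) (evalRingHom z) m
        simp only [coe_evalRingHom, eval_pow, eval_mul, eval_C] at h1
        rw [hT, h1]
        have h2 : ((c : ℝ) * (toR B).eval z) ^ 2 = (c * |(toR B).eval z|) ^ 2 := by
          rw [mul_pow, mul_pow, sq_abs]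
        rw [h2]
        refine abs_dk_le _ _ (by positivity) ?_ m
        have := hz.2.2
        linarith
      hgood := h.good c }
  -- the value of `A` at zero
  have hBX : X ∣ B := h.X_dvd
  have hB0 : (toR B).coeff 0 = 0 := by
    have : (X : ℝ[X]) ∣ toR B := by
      obtain ⟨w, hw⟩ := hBX
      rw [hw, toR_mul, toR_X]; exact dvd_mul_right _ _
    exact X_dvd_iff.1 this
  have ha : 1 < |(AR r).coeff 0| := by
    obtain ⟨i, hi⟩ := h.hasX
    have h1 := h.resR i
    rw [hi, toR_X] at h1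
    simp only [eval_X] at h1
    rw [coeff_zero_eq_eval_zero, AR_eval, Finset.abs_prod]
    convert h1 using 2 with l
    rw [zero_sub, abs_neg]
  have hTa : ∀ m, 1 ≤ m → (T m).coeff 0 = ((AR r).coeff 0) ^ m := by
    intro m hm
    obtain ⟨m', rfl⟩ : ∃ m', m = m' + 1 := ⟨m - 1, by omega⟩
    have h1 := map_dk (AR r) ((C (c : ℝ) * toR B) ^ 2) (evalRingHom 0) (m' + 1)
    simp only [coe_evalRingHom, eval_pow, eval_mul, eval_C] at h1
    rw [coeff_zero_eq_eval_zero, hT, h1, coeff_zero_eq_eval_zero]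
    have h2 : (toR B).eval 0 = 0 := by rw [← coeff_zero_eq_eval_zero]; exact hB0
    rw [h2, mul_zero]
    have h3 := dvd_dk_sub_pow (eval 0 (AR r)) ((0 : ℝ) ^ 2) m'
    rw [zero_pow two_ne_zero, zero_dvd_iff] at h3
    rw [zero_pow two_ne_zero]
    linarith
  obtain ⟨S, hS1, m₀, hm₀⟩ := hD.approx hBX ha hTa
  obtain ⟨M, hM1, hM⟩ := integrality (AQ_monic (r := r)) AQ_natDegree hc2Q hβk S
  set m := M * (m₀ + 2) with hm
  have hm2 : 2 ≤ m := by nlinarith
  have hmm₀ : m₀ ≤ m := by nlinarith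
  obtain ⟨hJn, happ⟩ := hm₀ m hmm₀
  have hint := hM (m₀ + 2) (by omega)
  rw [← hm] at hint
  set N := k * m with hN
  set J := S * (k - β) with hJ
  have hJ1 : 1 ≤ J := Nat.mul_pos hS1 (by omega)
  -- integer top coefficients
  have hint' : ∀ i, ∃ z : ℤ, i < N → N ≤ i + J → (T m).coeff i = 2 * z := by
    intro i
    by_cases hi : i < N ∧ N ≤ i + J
    · obtain ⟨z, hz⟩ := hint i hi.1 hi.2
      refine ⟨z, fun _ _ => ?_⟩
      rw [← hTmap, coeff_map, hz]
      simp
    · exact ⟨0, fun h1 h2 => absurd ⟨h1, h2⟩ hi⟩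
  choose zc hzc using hint'
  set H : ℤ[X] := ∑ i ∈ Finset.Ico (N - J) N, monomial i (zc i) with hH
  have hHc : ∀ i, H.coeff i = if i ∈ Finset.Ico (N - J) N then zc i else 0 := by
    intro i
    rw [hH, finsetSum_coeff]
    simp only [coeff_monomial]
    rw [Finset.sum_ite_eq' (Finset.Ico (N - J) N) i zc]
  have hTN : (T m).natDegree = N := (hTm m (by omega)).2
  have hTmon : (T m).Monic := (hTm m (by omega)).1
  set F : ℝ[X] := X ^ N + 2 * toR H - T m with hF
  have h2C : (2 : ℝ[X]) = C 2 := rfl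
  have hFdeg : F.degree < (N - J : ℕ) := by
    rw [degree_lt_iff_coeff_zero]
    intro i hi
    rw [hF, coeff_sub, coeff_add, coeff_X_pow, h2C, coeff_C_mul, toR, coeff_map, hHc]
    rcases lt_trichotomy i N with h1 | h1 | h1
    · rw [if_neg h1.ne, if_pos (Finset.mem_Ico.2 ⟨hi, h1⟩), hzc i h1 (by omega)]
      simp
    · rw [if_pos h1, if_neg (by simp [h1]), h1]
      have : (T m).coeff N = 1 := by rw [← hTN]; exact hTmon.coeff_natDegree
      rw [this]; simp
    · rw [if_neg h1.ne', if_neg (by simp; omega), coeff_eq_zero_of_natDegree_lt (by rw [hTN]; exact h1)]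
      simp
  obtain ⟨G, hGdeg, hGodd, hGapp⟩ := happ F hFdeg
  set P : ℤ[X] := X ^ N + (2 * H - 2 * G) with hP
  have hPR : toR P = T m + (F - 2 * toR G) := by
    rw [hP, hF]
    unfold toR
    simp only [Polynomial.map_add, Polynomial.map_sub, Polynomial.map_mul, Polynomial.map_pow, map_X,
      Polynomial.map_ofNat]
    ring
  have h2Z : (2 : ℤ[X]) = C 2 := rfl
  have hJN : J < N := hJn
  have hlow : (2 * H - 2 * G : ℤ[X]).degree < N := by
    rw [degree_lt_iff_coeff_zero]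
    intro i hi
    rw [coeff_sub, h2Z, coeff_C_mul, coeff_C_mul, hHc, if_neg (by simp; omega)]
    rw [coeff_eq_zero_of_degree_lt (hGdeg.trans_le (by exact_mod_cast (by omega)))]
    simp
  have hPm : P.Monic := by
    rw [hP]
    exact (monic_X_pow N).add_of_left (by rwa [degree_X_pow])
  have hPdeg : P.natDegree = N := by
    rw [hP]
    rw [natDegree_eq_of_degree_eq (degree_add_eq_left_of_degree_lt (by rwa [degree_X_pow]))]
    exact natDegree_X_pow N
  have hPc : ∀ i, i < N → P.coeff i = 2 * (H.coeff i - G.coeff i) := by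
    intro i hi
    rw [hP, coeff_add, coeff_X_pow, if_neg hi.ne, coeff_sub, h2Z, coeff_C_mul, coeff_C_mul]
    ring
  have hBdlt : (toR B).degree < k := by rw [hBdR]; exact_mod_cast hβk
  obtain ⟨z, hz, hprod⟩ := split_of_approx (x := fun j => ((x j : ℚ) : ℝ)) hc0 AR_monic
    (AR_natDegree (r := r)) hBdlt hxmono hdomc h.alt h.cop (m := m) (by omega) (toR_monic hPm)
    (by rw [natDegree_toR hPm, hPdeg]) (by
      intro w hw1 hw2 hw3
      have h1 := hGapp w ⟨hw1, hw2, hw3⟩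
      have h2 : (T m).eval w = dk ((AR r).eval w) ((c * (toR B).eval w) ^ 2) m := by
        have h1 := map_dk (AR r) ((C (c : ℝ) * toR B) ^ 2) (evalRingHom w) m
        simpa only [coe_evalRingHom, eval_pow, eval_mul, eval_C] using h1
      rw [← h2, hPR, eval_add]
      simpa using h1)
  have hkpos : 0 < k := by omega
  haveI : Nonempty (Fin k × Fin m) := ⟨(⟨0, hkpos⟩, ⟨0, by omega⟩)⟩
  have hmem := mem_meanTraceSet hPm (by
      intro i hi
      rw [hPdeg] at hi
      exact ⟨_, hPc i hi⟩) (by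
      rw [hPc 0 (by omega), hHc, if_neg (by simp; omega)]
      obtain ⟨w, hw⟩ := hGodd
      rw [hw]
      omega) z (fun i => hx0.trans (hz i)) hprod
  -- computation of the mean
  have hsum : ∑ i, z i = m * ∑ l, (r l : ℝ) := by
    have h1 : (toR P).nextCoeff = - ∑ i, z i := by rw [hprod, prod_X_sub_C_nextCoeff]
    have h2 : (toR P).coeff (N - 1) = (T m).coeff (N - 1) := by
      have e1 : (toR P).coeff (N - 1) = ((P.coeff (N - 1) : ℤ) : ℝ) := by
        rw [toR, coeff_map]; rfl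
      rw [e1, hPc (N - 1) (by omega), hHc, if_pos (Finset.mem_Ico.2 ⟨by omega, by omega⟩),
        hzc (N - 1) (by omega) (by omega)]
      have hG0 : G.coeff (N - 1) = 0 :=
        coeff_eq_zero_of_degree_lt (hGdeg.trans_le (by exact_mod_cast (by omega)))
      rw [hG0]
      push_cast; ring
    have h3 : (T m).coeff (N - 1) = ((AR r) ^ m).coeff (N - 1) := by
      obtain ⟨m', hm'⟩ : ∃ m', m = m' + 2 := ⟨m - 2, by omega⟩
      have hAd : (AR r).degree ≤ k := by
        rw [degree_eq_natDegree AR_monic.ne_zero, AR_natDegree]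
      have e1 := (degree_dk_sub hAd hc2R hβk.le m').1
      have e2 : (dk (AR r) ((C (c : ℝ) * toR B) ^ 2) (m' + 2) - AR r ^ (m' + 2)).coeff (N - 1) = 0 := by
        apply coeff_eq_zero_of_degree_lt
        refine e1.trans_lt ?_
        have e3 : k * m' + 2 * β < N - 1 := by
          rw [hN, hm']
          have : k * (m' + 2) = k * m' + 2 * k := by ring
          omega
        exact_mod_cast e3
      rw [coeff_sub] at e2
      rw [hT, hm']
      linarith
    have h4 : ((AR r) ^ m).nextCoeff = m • (AR r).nextCoeff := AR_monic.nextCoeff_pow m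
    have h5 : (AR r).nextCoeff = - ∑ l, (r l : ℝ) := by rw [AR, prod_X_sub_C_nextCoeff]
    have hN1 : 0 < N := by omega
    have h6 : ((AR r) ^ m).nextCoeff = ((AR r) ^ m).coeff (N - 1) := by
      have : ((AR r) ^ m).natDegree = N := by
        rw [AR_monic.natDegree_pow, AR_natDegree, hN, mul_comm]
      rw [nextCoeff_of_natDegree_pos (by rw [this]; exact hN1), this]
    have h7 : (toR P).nextCoeff = (toR P).coeff (N - 1) := by
      have : (toR P).natDegree = N := by rw [natDegree_toR hPm, hPdeg]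
      rw [nextCoeff_of_natDegree_pos (by rw [this]; exact hN1), this]
    rw [h7, h2, h3, ← h6, h4, h5] at h1
    simp only [nsmul_eq_mul] at h1
    linarith
  rw [hsum, hPdeg] at hmem
  convert hmem using 1
  have hkR : (k : ℝ) ≠ 0 := by exact_mod_cast hkpos.ne'
  have hmR : (m : ℝ) ≠ 0 := by
    have : 0 < m := by omega
    exact_mod_cast this.ne'
  rw [hN]
  push_cast
  field_simp

end

end Pool.Agent.STP
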