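import Mathlib
import Pool.Agent.Lib.MP_8ca0c8_nt.Main

/-!
# Verified checker for certificates
-/

namespace Pool.Agent.STP

open Polynomial

/-- `|x - y|` for natural numbers -/
def adiff (x y : ℕ) : ℕ := (x - y) + (y - x)

/-- product of `|x - r|` over a list -/
def prodDiff (x : ℕ) : List ℕ → ℕ
  | [] => 1
  | r :: rs => adiff x r * prodDiff x rs

/-- product of `|x - r|` over a list of lists -/
def prodDiffs (x : ℕ) : List (List ℕ) → ℕ
  | [] => 1
  | c :: cs => prodDiff x c * prodDiffs x cs

/-- Horner scheme (constant term first) -/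
def horner (x : ℕ) : List ℕ → ℕ
  | [] => 0
  | c :: cs => c + x * horner x cs

/-- Data of one auxiliary polynomial: the coefficients (constant term first), the scaled positive
and negative parts, and the exponent. -/
structure PolyData where
  cs : List ℤ
  pos : List ℕ
  neg : List ℕ
  b : ℕ

/-- absolute value of the homogenised value -/
def PolyData.val (p : PolyData) (x : ℕ) : ℕ := adiff (horner x p.pos) (horner x p.neg)

/-- product of the powers of the values -/
def prodB (x : ℕ) : List PolyData → ℕ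
  | [] => 1
  | p :: ps => p.val x ^ p.b * prodB x ps

/-- product of the values of `p` over a list -/
def prodVal (p : PolyData) : List ℕ → ℕ
  | [] => 1
  | x :: xs => p.val x * prodVal p xs

/-- product of the values of `p` over a list of lists -/
def prodVals (p : PolyData) : List (List ℕ) → ℕ
  | [] => 1
  | c :: cs => prodVal p c * prodVals p cs

/-- homogenisation of a coefficient list with respect to the denominator `D` -/
def scale (D : ℤ) : List ℤ → List ℤ
  | [] => []
  | c :: cs => c * D ^ cs.length :: scale D cs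

/-- compare the positive and negative parts with the scaled coefficients -/
def splitOK : List ℤ → List ℕ → List ℕ → Bool
  | [], [], [] => true
  | c :: cs, p :: ps, n :: ns => (c == (p : ℤ) - (n : ℤ)) && splitOK cs ps ns
  | _, _, _ => false

/-- interlacing `x₀ < r₁ < x₁ < ... < r_k < x_k` -/
def interlace : List ℕ → List ℕ → Bool
  | [_], [] => true
  | x :: x' :: xs, r :: rs => Nat.blt x r && (Nat.blt r x' && interlace (x' :: xs) rs)
  | _, _ => false

/-- domination check at a point -/
def domOK (M : ℕ) (ps : List PolyData) (cs : List (List ℕ)) (x : ℕ) : Bool :=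
  Nat.blt (M * prodB x ps) (prodDiffs x cs)

lemma adiff_cast (x y : ℕ) : ((adiff x y : ℕ) : ℚ) = |(x : ℚ) - y| := by
  unfold adiff
  rcases le_total x y with h | h
  · rw [Nat.sub_eq_zero_of_le h, zero_add, Nat.cast_sub h, abs_sub_comm,
      abs_of_nonneg (sub_nonneg.2 (by exact_mod_cast h))]
  · rw [Nat.sub_eq_zero_of_le h, add_zero, Nat.cast_sub h,
      abs_of_nonneg (sub_nonneg.2 (by exact_mod_cast h))]

lemma prodDiff_cast (x : ℕ) (l : List ℕ) :
    ((prodDiff x l : ℕ) : ℚ) = (l.map fun r : ℕ => |(x : ℚ) - r|).prod := by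
  induction l with
  | nil => simp [prodDiff]
  | cons r rs ih => simp only [prodDiff, Nat.cast_mul, ih, adiff_cast, List.map_cons, List.prod_cons]

lemma prodDiffs_cast (x : ℕ) (l : List (List ℕ)) :
    ((prodDiffs x l : ℕ) : ℚ) = (l.flatten.map fun r : ℕ => |(x : ℚ) - r|).prod := by
  induction l with
  | nil => simp [prodDiffs]
  | cons r rs ih =>
    simp only [prodDiffs, Nat.cast_mul, ih, prodDiff_cast, List.flatten_cons, List.map_append,
      List.prod_append]

/-- the polynomial with a given coefficient list -/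
noncomputable def ofList : List ℤ → ℤ[X]
  | [] => 0
  | c :: cs => C c + X * ofList cs

/-- integer Horner scheme -/
def hornerZ (x : ℤ) : List ℤ → ℤ
  | [] => 0
  | c :: cs => c + x * hornerZ x cs

lemma hornerZ_scale (D : ℕ) (hD : 0 < D) (x : ℤ) (cs : List ℤ) :
    (D : ℚ) * (hornerZ x (scale D cs) : ℤ) = (D : ℚ) ^ cs.length * aeval ((x : ℚ) / D) (ofList cs) := by
  induction cs with
  | nil => simp [scale, hornerZ, ofList]
  | cons c cs ih =>
    have hD' : (D : ℚ) ≠ 0 := by exact_mod_cast hD.ne'
    simp only [scale, hornerZ, ofList, map_add, map_mul, aeval_X, aeval_C, List.length_cons]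
    push_cast
    have h2 : (D : ℚ) * (c * (D : ℚ) ^ cs.length + x * (hornerZ x (scale D cs) : ℤ))
        = c * (D : ℚ) ^ (cs.length + 1) + x * ((D : ℚ) * (hornerZ x (scale D cs) : ℤ)) := by ring
    rw [h2, ih, pow_succ]
    simp only [algebraMap_int_eq, eq_intCast]
    field_simp

lemma splitOK_spec (x : ℕ) : ∀ (cs : List ℤ) (p n : List ℕ), splitOK cs p n = true →
    hornerZ x cs = (horner x p : ℤ) - (horner x n : ℤ)
  | [], [], [], _ => by simp [hornerZ, horner]
  | c :: cs, p :: ps, n :: ns, h => by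
    simp only [splitOK, Bool.and_eq_true, beq_iff_eq] at h
    have ih := splitOK_spec x cs ps ns h.2
    simp only [hornerZ, horner, ih, h.1]
    push_cast; ring
  | [], [], _ :: _, h => by simp [splitOK] at h
  | [], _ :: _, [], h => by simp [splitOK] at h
  | [], _ :: _, _ :: _, h => by simp [splitOK] at h
  | _ :: _, [], [], h => by simp [splitOK] at h
  | _ :: _, [], _ :: _, h => by simp [splitOK] at h
  | _ :: _, _ :: _, [], h => by simp [splitOK] at h

lemma val_cast (p : PolyData) (D : ℕ) (hD : 0 < D) (d : ℕ) (hd : p.cs.length = d + 1)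
    (hs : splitOK (scale D p.cs) p.pos p.neg = true) (x : ℕ) :
    ((p.val x : ℕ) : ℚ) = (D : ℚ) ^ d * |aeval ((x : ℚ) / D) (ofList p.cs)| := by
  have h1 := hornerZ_scale D hD x p.cs
  have h2 := splitOK_spec x _ _ _ hs
  have hD' : (0 : ℚ) < D := by exact_mod_cast hD
  have h3 : ((hornerZ x (scale D p.cs) : ℤ) : ℚ) = (D : ℚ) ^ d * aeval ((x : ℚ) / D) (ofList p.cs) := by
    rw [hd, pow_succ, mul_comm ((D : ℚ) ^ d), mul_assoc, Int.cast_natCast] at h1
    exact mul_left_cancel₀ hD'.ne' h1
  rw [PolyData.val, adiff_cast]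
  have h4 : (((horner x p.pos : ℕ) : ℚ) - ((horner x p.neg : ℕ) : ℚ)) = ((hornerZ x (scale D p.cs) : ℤ) : ℚ) := by
    rw [h2]; push_cast; ring
  rw [h4, h3, abs_mul, abs_of_pos (by positivity : (0 : ℚ) < (D : ℚ) ^ d)]

lemma prodB_cast (ps : List PolyData) (D : ℕ) (hD : 0 < D)
    (h : ∀ p ∈ ps, 1 ≤ p.cs.length ∧ splitOK (scale D p.cs) p.pos p.neg = true) (x : ℕ) :
    ((prodB x ps : ℕ) : ℚ) = (D : ℚ) ^ (ps.map fun p => p.b * (p.cs.length - 1)).sum *
      (ps.map fun p => |aeval ((x : ℚ) / D) (ofList p.cs)| ^ p.b).prod := by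
  induction ps with
  | nil => simp [prodB]
  | cons p ps ih =>
    have h1 := h p (List.mem_cons_self)
    have h2 := val_cast p D hD (p.cs.length - 1) (by omega) h1.2 x
    simp only [prodB, Nat.cast_mul, Nat.cast_pow, h2, ih fun q hq => h q (List.mem_cons_of_mem _ hq),
      List.map_cons, List.sum_cons, List.prod_cons]
    rw [pow_add, mul_pow, ← pow_mul, mul_comm p.b]
    ring

lemma prodVal_cast (p : PolyData) (D : ℕ) (hD : 0 < D) (d : ℕ) (hd : p.cs.length = d + 1)
    (hs : splitOK (scale D p.cs) p.pos p.neg = true) (l : List ℕ) :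
    ((prodVal p l : ℕ) : ℚ) = (D : ℚ) ^ (d * l.length) *
      (l.map fun x : ℕ => |aeval ((x : ℚ) / D) (ofList p.cs)|).prod := by
  induction l with
  | nil => simp [prodVal]
  | cons x xs ih =>
    simp only [prodVal, Nat.cast_mul, ih, val_cast p D hD d hd hs x, List.map_cons, List.prod_cons,
      List.length_cons]
    ring

lemma prodVals_cast (p : PolyData) (D : ℕ) (hD : 0 < D) (d : ℕ) (hd : p.cs.length = d + 1)
    (hs : splitOK (scale D p.cs) p.pos p.neg = true) (l : List (List ℕ)) :
    ((prodVals p l : ℕ) : ℚ) = (D : ℚ) ^ (d * l.flatten.length) *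
      (l.flatten.map fun x : ℕ => |aeval ((x : ℚ) / D) (ofList p.cs)|).prod := by
  induction l with
  | nil => simp [prodVals]
  | cons x xs ih =>
    simp only [prodVals, Nat.cast_mul, ih, prodVal_cast p D hD d hd hs x, List.flatten_cons,
      List.map_append, List.prod_append, List.length_append]
    ring

lemma interlace_spec : ∀ (xs rs : List ℕ), interlace xs rs = true → xs.length = rs.length + 1 ∧
    ∀ l, l < rs.length → xs.getD l 0 < rs.getD l 0 ∧ rs.getD l 0 < xs.getD (l + 1) 0
  | [_], [], _ => ⟨rfl, fun l hl => absurd hl (Nat.not_lt_zero l)⟩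
  | x :: x' :: xs, r :: rs, h => by
    simp only [interlace, Bool.and_eq_true, Nat.blt_eq] at h
    obtain ⟨h1, h2, h3⟩ := h
    obtain ⟨h4, h5⟩ := interlace_spec (x' :: xs) rs h3
    refine ⟨by simp only [List.length_cons] at h4 ⊢; omega, ?_⟩
    intro l hl
    rcases l with _ | l
    · exact ⟨h1, h2⟩
    · have := h5 l (by simpa using hl)
      exact this
  | [], _, h => by simp [interlace] at h
  | [_], _ :: _, h => by simp [interlace] at h
  | _ :: _ :: _, [], h => by simp [interlace] at h

/-- The complete certificate check, except for the irreducibility of the polynomials. -/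
structure CertOK (D : ℕ) (ps : List PolyData) (rs : List (List ℕ)) (xs : List ℕ) : Prop where
  hD : 0 < D
  hx0 : 0 < xs.getD 0 0
  hinter : interlace xs rs.flatten = true
  hlen : ∀ p ∈ ps, 2 ≤ p.cs.length
  hlead : ∀ p ∈ ps, p.cs.getLastD 0 = 1
  hsplit : ∀ p ∈ ps, splitOK (scale D p.cs) p.pos p.neg = true
  hb : ∀ p ∈ ps, 1 ≤ p.b
  hX : ∃ p ∈ ps, p.cs = [0, 1]
  hirr : ∀ p ∈ ps, Irreducible (ofList p.cs)
  hdeg : (ps.map fun p => p.b * (p.cs.length - 1)).sum < rs.flatten.length
  hdom : ∀ x ∈ xs, 2 * D ^ (rs.flatten.length - (ps.map fun p => p.b * (p.cs.length - 1)).sum) *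
    prodB x ps < prodDiffs x rs
  hres : ∀ p ∈ ps, D ^ ((p.cs.length - 1) * rs.flatten.length) < prodVals p rs

lemma ofList_natDegree_lt (cs : List ℤ) : (ofList cs).degree < cs.length := by
  induction cs with
  | nil => simp only [ofList, degree_zero, List.length_nil]; exact WithBot.bot_lt_coe 0
  | cons c cs ih =>
    rw [ofList, List.length_cons]
    refine (degree_add_le _ _).trans_lt (max_lt ?_ ?_)
    · refine degree_C_le.trans_lt ?_
      exact_mod_cast Nat.succ_pos _
    · rcases eq_or_ne (ofList cs) 0 with h0 | h0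
      · rw [h0, mul_zero, degree_zero]; exact WithBot.bot_lt_coe _
      · rw [X_mul, degree_mul, degree_X, Nat.cast_add, Nat.cast_one]
        exact WithBot.add_lt_add_right (by simp) ih

lemma ofList_coeff (cs : List ℤ) : ∀ i, (ofList cs).coeff i = cs.getD i 0 := by
  induction cs with
  | nil => intro i; simp [ofList]
  | cons c cs ih =>
    intro i
    rw [ofList, coeff_add]
    rcases i with _ | i
    · simp
    · rw [coeff_C_succ, coeff_X_mul, ih]; simp

lemma ofList_monic {cs : List ℤ} (h2 : 1 ≤ cs.length) (hl : cs.getLastD 0 = 1) :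
    (ofList cs).Monic ∧ (ofList cs).natDegree = cs.length - 1 := by
  have hc : (ofList cs).coeff (cs.length - 1) = 1 := by
    rw [ofList_coeff, ← hl, List.getLastD_eq_getLast?, List.getLast?_eq_getElem?]
    rw [List.getD_eq_getElem?_getD]
  have hd : (ofList cs).natDegree = cs.length - 1 := by
    apply le_antisymm
    · rw [natDegree_le_iff_degree_le]
      have h3 := ofList_natDegree_lt cs
      refine (degree_le_iff_coeff_zero _ _).2 fun j hj => coeff_eq_zero_of_degree_lt (h3.trans_le ?_)
      have hj' : cs.length - 1 < j := by exact_mod_cast hj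
      exact_mod_cast (by omega)
    · apply le_natDegree_of_ne_zero
      rw [hc]; exact one_ne_zero
  exact ⟨by rw [Monic, leadingCoeff, hd, hc], hd⟩

/-- the roots of the numerator -/
def rootFun (D : ℕ) (rs : List (List ℕ)) : Fin rs.flatten.length → ℚ :=
  fun l => (rs.flatten[l.1] : ℚ) / D

/-- the separating points -/
def sepFun (D : ℕ) (rs : List (List ℕ)) (xs : List ℕ) : Fin (rs.flatten.length + 1) → ℚ :=
  fun j => (xs.getD j.1 0 : ℚ) / D

theorem CertOK.cert {D : ℕ} {ps : List PolyData} {rs : List (List ℕ)} {xs : List ℕ}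
    (h : CertOK D ps rs xs) :
    Cert (rootFun D rs) (sepFun D rs xs) (fun i : Fin ps.length => ofList (ps[i.1]).cs)
      (fun i : Fin ps.length => (ps[i.1]).b) := by
  have hD := h.hD
  have hD' : (0 : ℚ) < D := by exact_mod_cast hD
  obtain ⟨hxl, hint⟩ := interlace_spec _ _ h.hinter
  have hmon : ∀ p ∈ ps, (ofList p.cs).Monic ∧ (ofList p.cs).natDegree = p.cs.length - 1 :=
    fun p hp => ofList_monic (by have := h.hlen p hp; omega) (h.hlead p hp)
  have hsum : ∑ i : Fin ps.length, (ps[i.1]).b * (ofList (ps[i.1]).cs).natDegree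
      = (ps.map fun p => p.b * (p.cs.length - 1)).sum := by
    rw [← Fin.sum_univ_fun_getElem ps fun p => p.b * (p.cs.length - 1)]
    refine Finset.sum_congr rfl fun i _ => ?_
    rw [(hmon _ (List.getElem_mem i.2)).2]
  refine ⟨?_, ?_, ?_, ?_, ?_, ?_, ?_, ?_, ?_, ?_⟩
  · exact div_pos (by exact_mod_cast h.hx0) hD'
  · intro l
    have := (hint l.1 l.2).1
    rw [List.getD_eq_getElem _ _ l.2] at this
    exact div_lt_div_of_pos_right (by simp only [Fin.val_castSucc]; exact_mod_cast this) hD'
  · intro l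
    have := (hint l.1 l.2).2
    rw [List.getD_eq_getElem _ _ l.2] at this
    exact div_lt_div_of_pos_right (by simp only [Fin.val_succ]; exact_mod_cast this) hD'
  · intro i; exact (hmon _ (List.getElem_mem i.2)).1
  · intro i; exact h.hirr _ (List.getElem_mem i.2)
  · intro i; exact h.hb _ (List.getElem_mem i.2)
  · obtain ⟨p, hp, hpX⟩ := h.hX
    obtain ⟨i, hi, hip⟩ := List.getElem_of_mem hp
    refine ⟨⟨i, hi⟩, ?_⟩
    simp only [hip, hpX, ofList]
    simp
  · rw [hsum]; exact h.hdeg
  · intro j
    set x := xs.getD j.1 0 with hx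
    have hxmem : x ∈ xs := by
      rw [hx, List.getD_eq_getElem _ _ (by have := j.2; omega)]
      exact List.getElem_mem _
    have h1 : ((2 * D ^ (rs.flatten.length - (ps.map fun p => p.b * (p.cs.length - 1)).sum) *
      prodB x ps : ℕ) : ℚ) < ((prodDiffs x rs : ℕ) : ℚ) := by exact_mod_cast h.hdom x hxmem
    rw [Nat.cast_mul, prodB_cast ps D hD (fun p hp => ⟨by have := h.hlen p hp; omega, h.hsplit p hp⟩) x,
      prodDiffs_cast] at h1
    have h2 : ∏ l, |sepFun D rs xs j - rootFun D rs l|
        = ((rs.flatten.map fun r : ℕ => |(x : ℚ) - r|).prod) / (D : ℚ) ^ rs.flatten.length := by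
      have e1 : ∀ l, |sepFun D rs xs j - rootFun D rs l| = |(x : ℚ) - (rs.flatten[l.1] : ℚ)| / D := by
        intro l
        rw [sepFun, rootFun, ← sub_div, abs_div, abs_of_pos hD']
      rw [Finset.prod_congr rfl fun l _ => e1 l, Finset.prod_div_distrib,
        Fin.prod_univ_fun_getElem rs.flatten fun r : ℕ => |(x : ℚ) - (r : ℚ)|]
      simp
    have h3 : ∏ i : Fin ps.length, |aeval (sepFun D rs xs j) (ofList (ps[i.1]).cs)| ^ (ps[i.1]).b
        = (ps.map fun p => |aeval ((x : ℚ) / D) (ofList p.cs)| ^ p.b).prod :=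
      Fin.prod_univ_fun_getElem ps fun p => |aeval ((x : ℚ) / D) (ofList p.cs)| ^ p.b
    rw [h2, h3, lt_div_iff₀ (by positivity)]
    have h4 : (D : ℚ) ^ rs.flatten.length
        = (D : ℚ) ^ (rs.flatten.length - (ps.map fun p => p.b * (p.cs.length - 1)).sum) *
          (D : ℚ) ^ (ps.map fun p => p.b * (p.cs.length - 1)).sum := by
      rw [← pow_add, Nat.sub_add_cancel h.hdeg.le]
    rw [h4]
    refine lt_of_eq_of_lt ?_ h1
    push_cast
    ring
  · intro i
    have hp := List.getElem_mem i.2
    have hl := h.hlen _ hp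
    have h1 : ((D ^ (((ps[i.1]).cs.length - 1) * rs.flatten.length) : ℕ) : ℚ)
      < ((prodVals (ps[i.1]) rs : ℕ) : ℚ) := by exact_mod_cast h.hres _ hp
    rw [prodVals_cast _ D hD ((ps[i.1]).cs.length - 1) (by omega) (h.hsplit _ hp)] at h1
    push_cast at h1
    have h2 : 1 < (rs.flatten.map fun x : ℕ => |aeval ((x : ℚ) / D) (ofList (ps[i.1]).cs)|).prod := by
      by_contra hcon
      push Not at hcon
      have : (0 : ℚ) < (D : ℚ) ^ (((ps[i.1]).cs.length - 1) * rs.flatten.length) := by positivity
      nlinarith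
    rw [← Fin.prod_univ_fun_getElem rs.flatten
      fun x : ℕ => |aeval ((x : ℚ) / D) (ofList (ps[i.1]).cs)|] at h2
    exact h2

end Pool.Agent.STP
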