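import Mathlib
import Pool.Agent.Lib.MP_8ca0c8_nt.Main

namespace Pool.Agent.STP

open Polynomial

variable {k n : ℕ} {r : Fin k → ℚ} {x : Fin (k + 1) → ℚ} {Q : Fin n → ℤ[X]} {b : Fin n → ℕ}

lemma Cert.k_pos (h : Cert r x Q b) : 0 < k := lt_of_le_of_lt (Nat.zero_le _) h.deg

/-- The hypotheses of the criterion are stable under small shifts. -/
theorem Cert.shift (h : Cert r x Q b) :
    ∃ ε : ℚ, 0 < ε ∧ ∀ δ : ℚ, |δ| < ε → Cert (fun l => r l + δ) x Q b := by
  have hcQ : ∀ (P : ℤ[X]) (a : ℚ), Continuous (fun δ : ℚ => aeval (a + δ) P) := by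
    intro P a
    simp only [aeval_def, eval₂_eq_sum_range]
    fun_prop
  have h1 : ∀ᶠ δ : ℚ in nhds 0, ∀ l : Fin k, x l.castSucc < r l + δ := by
    rw [Filter.eventually_all]
    intro l
    have hc : ContinuousAt (fun δ : ℚ => r l + δ) 0 := by fun_prop
    exact continuousAt_const.eventually_lt hc (by simpa using h.lo l)
  have h2 : ∀ᶠ δ : ℚ in nhds 0, ∀ l : Fin k, r l + δ < x l.succ := by
    rw [Filter.eventually_all]
    intro l
    have hc : ContinuousAt (fun δ : ℚ => r l + δ) 0 := by fun_prop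
    exact hc.eventually_lt continuousAt_const (by simpa using h.hi l)
  have h3 : ∀ᶠ δ : ℚ in nhds 0, ∀ j : Fin (k + 1),
      2 * ∏ i, |aeval (x j) (Q i)| ^ b i < ∏ l, |x j - (r l + δ)| := by
    rw [Filter.eventually_all]
    intro j
    have hc : ContinuousAt (fun δ : ℚ => ∏ l, |x j - (r l + δ)|) 0 := by fun_prop
    exact continuousAt_const.eventually_lt hc (by simpa using h.dom j)
  have h4 : ∀ᶠ δ : ℚ in nhds 0, ∀ i, 1 < ∏ l, |aeval (r l + δ) (Q i)| := by
    rw [Filter.eventually_all]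
    intro i
    have hc : Continuous (fun δ : ℚ => ∏ l, |aeval (r l + δ) (Q i)|) :=
      continuous_finsetProd _ fun l _ => (hcQ (Q i) (r l)).abs
    exact continuousAt_const.eventually_lt hc.continuousAt (by simpa using h.res i)
  have h5 := ((h1.and h2).and (h3.and h4))
  rw [Metric.eventually_nhds_iff] at h5
  obtain ⟨ε, hε, hε2⟩ := h5
  obtain ⟨ε', hε'0, hε'⟩ := exists_rat_btwn hε
  refine ⟨ε', by exact_mod_cast hε'0, fun δ hδ => ?_⟩
  have hd : dist δ 0 < ε := by
    rw [Rat.dist_eq]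
    simp only [Rat.cast_zero, sub_zero]
    have : ((|δ| : ℚ) : ℝ) < (ε' : ℝ) := by exact_mod_cast hδ
    rw [Rat.cast_abs] at this
    exact this.trans hε'
  obtain ⟨⟨g1, g2⟩, g3, g4⟩ := hε2 hd
  exact ⟨h.x_pos, g1, g2, h.monic, h.irr, h.b_pos, h.hasX, h.deg, g3, g4⟩

/-- All rational numbers close to the mean of the `r l` are mean traces of totally positive
algebraic integers. -/
theorem Cert.neighbourhood (h : Cert r x Q b) : ∃ ε : ℚ, 0 < ε ∧
    ∀ q : ℚ, |q - (∑ l, r l) / k| < ε → (q : ℝ) ∈ meanTraceSet := by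
  obtain ⟨ε, hε, H⟩ := h.shift
  refine ⟨ε, hε, fun q hq => ?_⟩
  have h1 := (H _ hq).mean_mem
  convert h1 using 2
  have hk : (k : ℚ) ≠ 0 := by exact_mod_cast h.k_pos.ne'
  rw [Finset.sum_add_distrib]
  simp only [Finset.sum_const, Finset.card_univ, Fintype.card_fin, nsmul_eq_mul]
  field_simp
  ring

lemma infinite_of_rat {S : Set ℝ} {a c : ℝ} (hac : a < c)
    (h : ∀ q : ℚ, a < q → (q : ℝ) < c → (q : ℝ) ∈ S) : (Set.Ioo a c ∩ S).Infinite := by
  have h1 : (Set.Ioo a c ∩ Set.range ((↑) : ℚ → ℝ)) ⊆ Set.Ioo a c ∩ S := by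
    rintro y ⟨hy, q, rfl⟩
    exact ⟨hy, h q hy.1 hy.2⟩
  refine Set.Infinite.mono h1 ?_
  intro hfin
  obtain ⟨q, hq1, hq2⟩ := exists_rat_btwn hac
  have hne : (Set.Ioo a c ∩ Set.range ((↑) : ℚ → ℝ)).Nonempty := ⟨q, ⟨hq1, hq2⟩, q, rfl⟩
  obtain ⟨y, hy, hmax⟩ := hfin.exists_maximal hne
  obtain ⟨⟨hy1, hy2⟩, _⟩ := hy
  obtain ⟨q', hq'1, hq'2⟩ := exists_rat_btwn hy2
  have := hmax (y := (q' : ℝ)) ⟨⟨hy1.trans hq'1, hq'2⟩, q', rfl⟩ hq'1.le
  linarith

/-- The mean of the `r l` is a limit point of the set of mean traces. -/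
theorem Cert.isLimitPoint (h : Cert r x Q b) :
    IsLimitPoint meanTraceSet (((∑ l, r l) / k : ℚ) : ℝ) := by
  obtain ⟨ε, hε, H⟩ := h.neighbourhood
  intro U hU
  rw [Metric.mem_nhds_iff] at hU
  obtain ⟨η, hη, hηU⟩ := hU
  set t : ℝ := (((∑ l, r l) / k : ℚ) : ℝ) with ht
  have hε' : (0 : ℝ) < ε := by exact_mod_cast hε
  have hmin : 0 < min η (ε : ℝ) := lt_min hη hε'
  have h1 := infinite_of_rat (S := meanTraceSet) (a := t) (c := t + min η (ε : ℝ)) (by linarith)
    (fun q hq1 hq2 => by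
      apply H
      have e1 : ((|q - (∑ l, r l) / k| : ℚ) : ℝ) < ((ε : ℚ) : ℝ) := by
        rw [Rat.cast_abs, Rat.cast_sub, ← ht, abs_of_pos (by linarith)]
        have := min_le_right η (ε : ℝ)
        linarith
      exact_mod_cast e1)
  refine h1.mono ?_
  rintro y ⟨⟨hy1, hy2⟩, hyS⟩
  refine ⟨hηU ?_, hyS⟩
  rw [Metric.mem_ball, Real.dist_eq, abs_of_pos (by linarith)]
  have := min_le_left η (ε : ℝ)
  linarith

/-- Moving the largest root to the right. -/
theorem Cert.stretch {k : ℕ} {r : Fin (k + 1) → ℚ} {x : Fin (k + 1 + 1) → ℚ} (h : Cert r x Q b)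
    (hmono : ∀ i, ∀ y z : ℚ, r (Fin.last k) ≤ y → y ≤ z → |aeval y (Q i)| ≤ |aeval z (Q i)|)
    (s : ℚ) (hs : 0 ≤ s) :
    ∃ x' : Fin (k + 1 + 1) → ℚ,
      Cert (fun l => if l = Fin.last k then r l + s else r l) x' Q b := by
  classical
  set r' : Fin (k + 1) → ℚ := fun l => if l = Fin.last k then r l + s else r l with hr'
  -- a large point
  have hlim : Filter.Tendsto (fun z : ℝ => (toR (BZ Q b)).eval z / (AR r').eval z) Filter.atTop
      (nhds 0) := by
    apply Polynomial.div_tendsto_atTop_zero_of_degree_lt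
    rw [degree_toR, degree_eq_natDegree h.B_monic.ne_zero, h.B_natDegree,
      degree_eq_natDegree AR_monic.ne_zero, AR_natDegree]
    exact_mod_cast h.deg
  have hev : ∀ᶠ z : ℝ in Filter.atTop, |(toR (BZ Q b)).eval z / (AR r').eval z| < 1 / 2 := by
    have := hlim.abs
    rw [abs_zero] at this
    exact this.eventually (gt_mem_nhds (by norm_num))
  have hAne : ∀ᶠ z : ℝ in Filter.atTop, (AR r').eval z ≠ 0 := by
    have := Filter.eventually_gt_atTop (∑ l, |(r' l : ℝ)|)
    filter_upwards [this] with z hz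
    rw [AR_eval, Finset.prod_ne_zero_iff]
    intro l _ h0
    have h1 : |(r' l : ℝ)| ≤ ∑ l, |(r' l : ℝ)| :=
      Finset.single_le_sum (f := fun l => |(r' l : ℝ)|) (fun _ _ => abs_nonneg _) (Finset.mem_univ l)
    have h2 := le_abs_self (r' l : ℝ)
    linarith
  obtain ⟨z₀, hz₀⟩ := Filter.eventually_atTop.1 (hev.and hAne)
  obtain ⟨N, hN⟩ := exists_nat_gt (max z₀ ((r (Fin.last k) : ℝ) + s))
  have hN1 : z₀ ≤ (N : ℝ) := (le_max_left _ _).trans hN.le
  have hN2 : (r (Fin.last k) : ℝ) + s < N := lt_of_le_of_lt (le_max_right _ _) hN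
  have hN2' : r (Fin.last k) + s < (N : ℚ) := by exact_mod_cast hN2
  obtain ⟨hNB, hNA⟩ := hz₀ N hN1
  have hdomN : 2 * |(toR (BZ Q b)).eval (N : ℝ)| < |(AR r').eval (N : ℝ)| := by
    rw [abs_div, div_lt_iff₀ (abs_pos.2 hNA)] at hNB
    linarith
  set x' : Fin (k + 1 + 1) → ℚ := fun j => if j = Fin.last (k + 1) then (N : ℚ) else x j with hx'
  have hcast : ∀ l : Fin (k + 1), x' l.castSucc = x l.castSucc := by
    intro l
    rw [hx']
    simp only
    rw [if_neg (Fin.castSucc_lt_last l).ne]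
  have hxmono : StrictMono x := Fin.strictMono_iff_lt_succ.2 fun l => (h.lo l).trans (h.hi l)
  have hrle : ∀ l, r l ≤ r' l := by
    intro l; rw [hr']; simp only; split_ifs <;> linarith
  refine ⟨x', ?_, ?_, ?_, h.monic, h.irr, h.b_pos, h.hasX, h.deg, ?_, ?_⟩
  · have : x' 0 = x 0 := hcast 0
    rw [this]; exact h.x_pos
  · intro l
    rw [hcast]
    exact (h.lo l).trans_le (hrle l)
  · intro l
    rw [hr', hx']
    simp only
    by_cases hl : l = Fin.last k
    · rw [if_pos hl, hl, if_pos (Fin.succ_last k)]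
      exact hN2'
    · rw [if_neg hl, if_neg]
      · exact h.hi l
      · intro h0
        apply hl
        exact Fin.succ_injective _ (by rw [h0, Fin.succ_last])
  · intro j
    induction j using Fin.lastCases with
    | last =>
      have e1 : x' (Fin.last (k + 1)) = N := by rw [hx']; simp
      rw [e1]
      have e2 : ((2 * ∏ i, |aeval (N : ℚ) (Q i)| ^ b i : ℚ) : ℝ)
          < ((∏ l, |(N : ℚ) - r' l| : ℚ) : ℝ) := by
        rw [BR_eval, AR_eval, Finset.abs_prod, Finset.abs_prod] at hdomN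
        rw [Rat.cast_mul, Rat.cast_prod, Rat.cast_prod]
        convert hdomN using 2
        · norm_num
        · refine Finset.prod_congr rfl fun i _ => ?_
          rw [Rat.cast_pow, Rat.cast_abs, cast_aeval, abs_pow]
          norm_num
        · push_cast; rfl
      exact_mod_cast e2
    | cast j =>
      rw [hcast]
      refine (h.dom j.castSucc).trans_le ?_
      refine Finset.prod_le_prod (fun _ _ => abs_nonneg _) fun l _ => ?_
      rw [hr']
      simp only
      split_ifs with hl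
      · have e1 : x j.castSucc < r l := by
          rw [hl]
          refine lt_of_le_of_lt ?_ (h.lo (Fin.last k))
          exact hxmono.monotone (by rw [Fin.le_def]; simp; omega)
        rw [abs_of_neg (by linarith), abs_of_neg (by linarith)]
        linarith
      · exact le_rfl
  · intro i
    refine (h.res i).trans_le ?_
    refine Finset.prod_le_prod (fun _ _ => abs_nonneg _) fun l _ => ?_
    rw [hr']
    simp only
    split_ifs with hl
    · exact hmono i _ _ (by rw [hl]) (by linarith)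
    · exact le_rfl

/-- Every rational number at least the mean of the `r l` is a mean trace of a totally positive
algebraic integer. -/
theorem Cert.above {k : ℕ} {r : Fin (k + 1) → ℚ} {x : Fin (k + 1 + 1) → ℚ} (h : Cert r x Q b)
    (hmono : ∀ i, ∀ y z : ℚ, r (Fin.last k) ≤ y → y ≤ z → |aeval y (Q i)| ≤ |aeval z (Q i)|)
    (q : ℚ) (hq : (∑ l, r l) / ((k + 1 : ℕ) : ℚ) ≤ q) : (q : ℝ) ∈ meanTraceSet := by
  have hk : (0 : ℚ) < ((k + 1 : ℕ) : ℚ) := by positivity
  obtain ⟨x', hx'⟩ := h.stretch hmono (((k + 1 : ℕ) : ℚ) * q - ∑ l, r l) (by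
    rw [div_le_iff₀ hk] at hq; linarith)
  have h1 := hx'.mean_mem
  convert h1 using 2
  have h2 : ∑ l, (if l = Fin.last k then r l + (((k + 1 : ℕ) : ℚ) * q - ∑ l, r l) else r l)
      = ((k + 1 : ℕ) : ℚ) * q := by
    have : ∀ l, (if l = Fin.last k then r l + (((k + 1 : ℕ) : ℚ) * q - ∑ l, r l) else r l)
        = r l + if l = Fin.last k then (((k + 1 : ℕ) : ℚ) * q - ∑ l, r l) else 0 := by
      intro l; split_ifs <;> simp
    rw [Finset.sum_congr rfl fun l _ => this l, Finset.sum_add_distrib]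
    simp
  rw [h2]
  field_simp

end Pool.Agent.STP
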