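import Mathlib
import Pool.Agent.Lib.MP_8ca0c8_nt.Check

/-!
# Irreducibility certificates: a prime value far away from the roots
-/

namespace Pool.Agent.STP

open Polynomial

/-- coefficients of `c + (X + a) * l` -/
def mulLin (a : ℤ) : ℤ → List ℤ → List ℤ
  | c, [] => [c]
  | c, x :: xs => (c + a * x) :: mulLin a x xs

/-- Taylor shift: coefficients of `P (X + a)` -/
def shiftList (a : ℤ) : List ℤ → List ℤ
  | [] => []
  | c :: cs => mulLin a c (shiftList a cs)

lemma ofList_mulLin (a : ℤ) (l : List ℤ) : ∀ c, ofList (mulLin a c l) = C c + (X + C a) * ofList l := by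
  induction l with
  | nil => intro c; simp [mulLin, ofList]
  | cons x xs ih =>
    intro c
    simp only [mulLin, ofList, ih, C_add, C_mul]
    ring

lemma ofList_shiftList (a : ℤ) (l : List ℤ) : ofList (shiftList a l) = (ofList l).comp (X + C a) := by
  induction l with
  | nil => simp [shiftList, ofList]
  | cons x xs ih => simp [shiftList, ofList, ofList_mulLin, ih]

lemma ofList_append_one (l : List ℤ) : ofList (l ++ [1]) = ofList l + X ^ l.length := by
  induction l with
  | nil => simp [ofList]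
  | cons x xs ih =>
    simp only [List.cons_append, ofList, ih, List.length_cons, pow_succ]
    ring

/-- Horner scheme with absolute values -/
def absH (ρ : ℚ) : List ℤ → ℚ
  | [] => 0
  | c :: cs => |(c : ℚ)| + ρ * absH ρ cs

/-- the same over the reals -/
noncomputable def absHR (ρ : ℝ) : List ℤ → ℝ
  | [] => 0
  | c :: cs => |(c : ℝ)| + ρ * absHR ρ cs

lemma absHR_nonneg {ρ : ℝ} (hρ : 0 ≤ ρ) (l : List ℤ) : 0 ≤ absHR ρ l := by
  induction l with
  | nil => simp [absHR]
  | cons c cs ih => simp only [absHR]; positivity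

lemma absHR_cast (ρ : ℚ) (l : List ℤ) : ((absH ρ l : ℚ) : ℝ) = absHR (ρ : ℝ) l := by
  induction l with
  | nil => simp [absHR, absH]
  | cons c cs ih => simp only [absHR, absH]; push_cast; rw [ih]

lemma norm_eval_le (l : List ℤ) (w : ℂ) : ‖aeval w (ofList l)‖ ≤ absHR ‖w‖ l := by
  induction l with
  | nil => simp [ofList, absHR]
  | cons c cs ih =>
    simp only [ofList, absHR, map_add, map_mul, aeval_X, aeval_C]
    refine (norm_add_le _ _).trans (add_le_add ?_ ?_)
    · simp
    · rw [norm_mul]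
      exact mul_le_mul_of_nonneg_left ih (norm_nonneg _)

lemma absHR_scale {ρ t : ℝ} (hρ : 0 < ρ) (ht : ρ ≤ t) (l : List ℤ) :
    absHR t l * ρ ^ l.length ≤ absHR ρ l * t ^ l.length := by
  induction l with
  | nil => simp [absHR]
  | cons c cs ih =>
    simp only [absHR, List.length_cons]
    have h1 : |(c : ℝ)| * ρ ^ (cs.length + 1) ≤ |(c : ℝ)| * t ^ (cs.length + 1) :=
      mul_le_mul_of_nonneg_left (pow_le_pow_left₀ hρ.le ht _) (abs_nonneg _)
    have ht0 : 0 < t := hρ.trans_le ht
    have h2 : t * ρ * (absHR t cs * ρ ^ cs.length) ≤ t * ρ * (absHR ρ cs * t ^ cs.length) :=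
      mul_le_mul_of_nonneg_left ih (by positivity)
    calc (|(c : ℝ)| + t * absHR t cs) * ρ ^ (cs.length + 1)
        = |(c : ℝ)| * ρ ^ (cs.length + 1) + t * ρ * (absHR t cs * ρ ^ cs.length) := by ring
      _ ≤ |(c : ℝ)| * t ^ (cs.length + 1) + t * ρ * (absHR ρ cs * t ^ cs.length) := add_le_add h1 h2
      _ = _ := by ring

/-- no roots far away from the centre -/
lemma no_root_outside {l : List ℤ} {ρ : ℝ} (hρ : 0 < ρ) (h : absHR ρ l < ρ ^ l.length) (w : ℂ)
    (hw : ρ ≤ ‖w‖) : aeval w (ofList (l ++ [1])) ≠ 0 := by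
  rw [ofList_append_one]
  intro h0
  rw [map_add, map_pow, aeval_X] at h0
  have h1 : ‖w‖ ^ l.length = ‖aeval w (ofList l)‖ := by
    rw [← norm_pow, ← norm_neg]
    congr 1
    linear_combination (-1 : ℂ) * h0
  have h2 := norm_eval_le l w
  have h3 := absHR_scale hρ hw l
  have hw0 : 0 < ‖w‖ := hρ.trans_le hw
  have h4 : absHR ρ l * ‖w‖ ^ l.length < ρ ^ l.length * ‖w‖ ^ l.length :=
    mul_lt_mul_of_pos_right h (by positivity)
  have h5 : ‖w‖ ^ l.length * ρ ^ l.length ≤ absHR ‖w‖ l * ρ ^ l.length := by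
    rw [h1]
    exact mul_le_mul_of_nonneg_right h2 (by positivity)
  linarith

/-- a monic integer polynomial of positive degree all of whose roots are at distance more than `1`
from the integer `n` has a value of absolute value more than `1` at `n` -/
lemma one_lt_eval {g : ℤ[X]} (hg : g.Monic) (hd : 0 < g.natDegree) (n : ℤ)
    (h : ∀ z : ℂ, aeval z g = 0 → 1 < ‖(n : ℂ) - z‖) : 1 < (g.eval n).natAbs := by
  have hsplit : (g.map (Int.castRingHom ℂ)).Splits := IsAlgClosed.splits _
  have hgm : (g.map (Int.castRingHom ℂ)).Monic := hg.map _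
  have h1 : ((g.eval n : ℤ) : ℂ) = (((g.map (Int.castRingHom ℂ)).roots).map fun z => (n : ℂ) - z).prod := by
    have e1 : ((g.eval n : ℤ) : ℂ) = (g.map (Int.castRingHom ℂ)).eval (n : ℂ) := by
      rw [eval_map]
      simp
    rw [e1]
    exact hsplit.eval_eq_prod_roots_of_monic hgm _
  have hroot : ∀ z ∈ (g.map (Int.castRingHom ℂ)).roots, 1 < ‖(n : ℂ) - z‖ := by
    intro z hz
    apply h
    have := (mem_roots'.1 hz).2
    rw [IsRoot, eval_map] at this
    rw [aeval_def]
    exact this
  have hcard : 0 < (g.map (Int.castRingHom ℂ)).roots.card := by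
    rw [← hsplit.natDegree_eq_card_roots, hg.natDegree_map]; exact hd
  have key : ∀ s : Multiset ℂ, (∀ z ∈ s, 1 < ‖(n : ℂ) - z‖) → 0 < s.card →
      1 < ‖(s.map fun z => (n : ℂ) - z).prod‖ := by
    intro s
    induction s using Multiset.induction_on with
    | empty => intro _ h0; simp at h0
    | cons a s ih =>
      intro hs _
      rw [Multiset.map_cons, Multiset.prod_cons, norm_mul]
      have ha := hs a (Multiset.mem_cons_self a s)
      rcases Nat.eq_zero_or_pos s.card with h0 | h0
      · rw [Multiset.card_eq_zero] at h0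
        rw [h0]; simpa using ha
      · have := ih (fun z hz => hs z (Multiset.mem_cons_of_mem hz)) h0
        nlinarith
  have h2 := key _ hroot hcard
  rw [← h1] at h2
  have h3 : ‖((g.eval n : ℤ) : ℂ)‖ = ((g.eval n).natAbs : ℝ) := by
    rw [Complex.norm_intCast, Nat.cast_natAbs, Int.cast_abs]
  rw [h3] at h2
  exact_mod_cast h2

/-- **Irreducibility certificate.** -/
theorem irreducible_of_prime_value {cs l : List ℤ} (a n : ℤ) (ρ : ℚ) (hρ : 0 < ρ)
    (hshift : shiftList a cs = l ++ [1]) (hlen : 2 ≤ cs.length) (hlead : cs.getLastD 0 = 1)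
    (habs : absH ρ l < ρ ^ l.length) (hn : ρ + 1 ≤ |(n : ℚ) - a|)
    (hp : ((ofList cs).eval n).natAbs.Prime) : Irreducible (ofList cs) := by
  obtain ⟨hm, hd⟩ := ofList_monic (by omega : 1 ≤ cs.length) hlead
  have hroots : ∀ z : ℂ, aeval z (ofList cs) = 0 → 1 < ‖(n : ℂ) - z‖ := by
    intro z hz
    have h1 : ‖z - a‖ < ρ := by
      by_contra hcon
      push Not at hcon
      have h2 : absHR (ρ : ℝ) l < (ρ : ℝ) ^ l.length := by
        rw [← absHR_cast]; exact_mod_cast habs
      refine no_root_outside (by exact_mod_cast hρ) h2 (z - a) hcon ?_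
      rw [← hshift, ofList_shiftList, aeval_comp]
      simp [hz]
    have h3 : ((ρ : ℝ) + 1) ≤ ‖(n : ℂ) - a‖ := by
      have e1 : (n : ℂ) - a = ((n - a : ℤ) : ℂ) := by push_cast; ring
      rw [e1, Complex.norm_intCast]
      have : ((ρ + 1 : ℚ) : ℝ) ≤ ((|(n : ℚ) - a| : ℚ) : ℝ) := by exact_mod_cast hn
      push_cast at this ⊢
      exact this
    have h4 : ‖(n : ℂ) - a‖ ≤ ‖(n : ℂ) - z‖ + ‖z - a‖ := by
      have : (n : ℂ) - a = ((n : ℂ) - z) + (z - a) := by ring
      rw [this]; exact norm_add_le _ _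
    linarith
  rw [hm.irreducible_iff_natDegree']
  refine ⟨?_, ?_⟩
  · intro h1
    rw [h1, natDegree_one] at hd
    omega
  · intro f g hf hg hfg hmem
    rw [Finset.mem_Ioc] at hmem
    have hdfg : (ofList cs).natDegree = f.natDegree + g.natDegree := by
      rw [← hfg, hf.natDegree_mul hg]
    have hfd : 0 < f.natDegree := by omega
    have h1 : 1 < (f.eval n).natAbs := one_lt_eval hf hfd n fun z hz =>
      hroots z (by rw [← hfg, map_mul, hz, zero_mul])
    have h2 : 1 < (g.eval n).natAbs := one_lt_eval hg hmem.1 n fun z hz =>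
      hroots z (by rw [← hfg, map_mul, hz, mul_zero])
    rw [← hfg, eval_mul, Int.natAbs_mul] at hp
    exact Nat.not_prime_mul h1.ne' h2.ne' hp

/-- integer version of the Horner scheme with absolute values for the radius `r / 2` -/
def absN (r : ℕ) : List ℤ → ℕ
  | [] => 0
  | c :: cs => c.natAbs * 2 ^ (cs.length + 1) + r * absN r cs

lemma absN_cast (r : ℕ) (l : List ℤ) : ((absN r l : ℕ) : ℚ) = 2 ^ l.length * absH (r / 2) l := by
  induction l with
  | nil => simp [absN, absH]
  | cons c cs ih =>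
    simp only [absN, absH, Nat.cast_add, Nat.cast_mul, ih, List.length_cons]
    rw [Nat.cast_pow, Nat.cast_natAbs, Int.cast_abs, pow_succ]
    push_cast
    ring

lemma eval_ofList (n : ℤ) (cs : List ℤ) : (ofList cs).eval n = hornerZ n cs := by
  induction cs with
  | nil => simp [ofList, hornerZ]
  | cons c cs ih => simp [ofList, hornerZ, ih]

/-- the computational part of the irreducibility certificate -/
def irrOK (cs l : List ℤ) (a n : ℤ) (r v : ℕ) : Bool :=
  (shiftList a cs == l ++ [1]) && (Nat.blt 1 cs.length && ((cs.getLastD 0 == 1) &&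
    (Nat.blt 0 r && (Nat.blt (absN r l) (r ^ l.length) &&
      (Nat.ble (r + 2) (2 * (n - a).natAbs) && ((hornerZ n cs).natAbs == v))))))

theorem irreducible_cert {cs : List ℤ} {v : ℕ} (l : List ℤ) (a n : ℤ) (r : ℕ)
    (h : irrOK cs l a n r v = true) (hv : v.Prime) : Irreducible (ofList cs) := by
  simp only [irrOK, Bool.and_eq_true, beq_iff_eq, Nat.blt_eq] at h
  obtain ⟨h1, h2, h3, h4, h5, h6, h7⟩ := h
  have h6' : r + 2 ≤ 2 * (n - a).natAbs := Nat.le_of_ble_eq_true h6
  have hr : (0 : ℚ) < (r : ℚ) / 2 := by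
    have : (0 : ℚ) < r := by exact_mod_cast h4
    linarith
  refine irreducible_of_prime_value a n ((r : ℚ) / 2) hr h1 h2 h3 ?_ ?_ ?_
  · have e1 : ((absN r l : ℕ) : ℚ) < ((r ^ l.length : ℕ) : ℚ) := by exact_mod_cast h5
    rw [absN_cast] at e1
    rw [div_pow, lt_div_iff₀ (by positivity), mul_comm]
    push_cast at e1
    exact e1
  · have e1 : ((r : ℚ) + 2) ≤ 2 * ((n - a).natAbs : ℚ) := by exact_mod_cast h6'
    rw [Nat.cast_natAbs, Int.cast_abs] at e1
    push_cast at e1
    linarith
  · rw [eval_ofList, h7]; exact hv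

/-- Horner scheme over the rationals -/
def hornerQ (x : ℚ) : List ℤ → ℚ
  | [] => 0
  | c :: cs => c + x * hornerQ x cs

lemma aeval_ofList (x : ℚ) (cs : List ℤ) : aeval x (ofList cs) = hornerQ x cs := by
  induction cs with
  | nil => simp [ofList, hornerQ]
  | cons c cs ih => simp [ofList, hornerQ, ih]

lemma hornerQ_nonneg {x : ℚ} (hx : 0 ≤ x) (l : List ℤ) (hl : ∀ c ∈ l, 0 ≤ c) : 0 ≤ hornerQ x l := by
  induction l with
  | nil => exact le_rfl
  | cons c cs ih =>
    simp only [hornerQ]
    have h1 : (0 : ℚ) ≤ c := by exact_mod_cast hl c List.mem_cons_self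
    have h2 := ih fun c hc => hl c (List.mem_cons_of_mem _ hc)
    positivity

lemma hornerQ_mono {x y : ℚ} (hx : 0 ≤ x) (hxy : x ≤ y) (l : List ℤ) (hl : ∀ c ∈ l, 0 ≤ c) :
    hornerQ x l ≤ hornerQ y l := by
  induction l with
  | nil => exact le_rfl
  | cons c cs ih =>
    simp only [hornerQ]
    have h2 := ih fun c hc => hl c (List.mem_cons_of_mem _ hc)
    have h3 := hornerQ_nonneg (hx.trans hxy) cs fun c hc => hl c (List.mem_cons_of_mem _ hc)
    have h4 := hornerQ_nonneg hx cs fun c hc => hl c (List.mem_cons_of_mem _ hc)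
    have : x * hornerQ x cs ≤ y * hornerQ y cs := mul_le_mul hxy h2 h4 (hx.trans hxy)
    linarith

/-- a polynomial with nonnegative Taylor coefficients at `a` is monotone to the right of `a` -/
lemma abs_aeval_mono {cs : List ℤ} (a : ℤ) (h : ∀ c ∈ shiftList a cs, 0 ≤ c) {y z : ℚ}
    (hy : (a : ℚ) ≤ y) (hyz : y ≤ z) : |aeval y (ofList cs)| ≤ |aeval z (ofList cs)| := by
  have key : ∀ w : ℚ, aeval w (ofList cs) = hornerQ (w - a) (shiftList a cs) := by
    intro w
    rw [← aeval_ofList, ofList_shiftList, aeval_comp]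
    simp
  rw [key, key, abs_of_nonneg (hornerQ_nonneg (by linarith) _ h),
    abs_of_nonneg (hornerQ_nonneg (by linarith) _ h)]
  exact hornerQ_mono (by linarith) (by linarith) _ h

end Pool.Agent.STP
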