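import Mathlib
import Pool.Agent.Lib.MP_8ca0c8_nt.Cor
import Pool.Agent.Lib.MP_8ca0c8_nt.Check
import Pool.Agent.Lib.MP_8ca0c8_nt.Irr

namespace Pool.Agent.STP

open Polynomial

theorem Cert.above' {n : ℕ} {Q : Fin n → ℤ[X]} {b : Fin n → ℕ} {m : ℕ} {r : Fin m → ℚ}
    {x : Fin (m + 1) → ℚ} (h : Cert r x Q b) (a : ℚ)
    (ha : ∀ h0 : 0 < m, a ≤ r ⟨m - 1, by omega⟩)
    (hmono : ∀ i, ∀ y z : ℚ, a ≤ y → y ≤ z → |aeval y (Q i)| ≤ |aeval z (Q i)|)
    (q : ℚ) (hq : (∑ l, r l) / (m : ℚ) ≤ q) : (q : ℝ) ∈ meanTraceSet := by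
  rcases m with _ | k
  · exact absurd h.k_pos (lt_irrefl 0)
  · exact h.above (fun i y z hy hyz => hmono i y z ((ha (Nat.succ_pos k)).trans hy) hyz) q hq

theorem CertOK.above {D : ℕ} {ps : List PolyData} {rs : List (List ℕ)} {xs : List ℕ}
    (h : CertOK D ps rs xs) (a : ℤ) (L : ℕ) (hlast : rs.flatten.getLast? = some L)
    (haL : a * D ≤ L) (hmono : ∀ p ∈ ps, ∀ c ∈ shiftList a p.cs, 0 ≤ c)
    (q : ℚ) (hq : (rs.flatten.sum : ℚ) / (D * rs.flatten.length) ≤ q) :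
    (q : ℝ) ∈ meanTraceSet := by
  have hD' : (0 : ℚ) < D := by exact_mod_cast h.hD
  refine h.cert.above' (a : ℚ) ?_ ?_ q ?_
  · intro h0
    rw [List.getLast?_eq_getElem?] at hlast
    have h1 : rs.flatten[rs.flatten.length - 1] = L := by
      rw [List.getElem?_eq_getElem (by omega)] at hlast
      exact Option.some.inj hlast
    simp only [rootFun]
    rw [h1, le_div_iff₀ hD']
    exact_mod_cast haL
  · intro i y z hy hyz
    exact abs_aeval_mono a (hmono _ (List.getElem_mem i.2)) hy hyz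
  · refine le_trans (le_of_eq ?_) hq
    have h2 : ∑ l, rootFun D rs l = (rs.flatten.sum : ℚ) / D := by
      simp only [rootFun]
      rw [← Finset.sum_div]
      congr 1
      rw [Fin.sum_univ_fun_getElem rs.flatten fun t : ℕ => (t : ℚ)]
      rw [Nat.cast_list_sum]
    rw [h2, div_div]

/-- If all rational numbers from `c` on belong to a set, then so all real numbers from `c` on are
limit points of it. -/
lemma isLimitPoint_of_rat {S : Set ℝ} {c : ℝ} (h : ∀ q : ℚ, c ≤ q → (q : ℝ) ∈ S) (x : ℝ)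
    (hx : c ≤ x) : IsLimitPoint S x := by
  intro U hU
  rw [Metric.mem_nhds_iff] at hU
  obtain ⟨η, hη, hηU⟩ := hU
  have h1 := infinite_of_rat (S := S) (a := x) (c := x + η) (by linarith)
    (fun q hq1 _ => h q (hx.trans hq1.le))
  refine h1.mono ?_
  rintro y ⟨⟨hy1, hy2⟩, hyS⟩
  refine ⟨hηU ?_, hyS⟩
  rw [Metric.mem_ball, Real.dist_eq, abs_of_pos (by linarith)]
  linarith

end Pool.Agent.STP
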