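import Mathlib

/-!
# Lucas certificates for primality, checked by the kernel
-/

namespace Pool.Agent.STP

/-- modular exponentiation with fuel: the first argument bounds the number of binary digits -/
def pm (p : ℕ) : ℕ → ℕ → ℕ → ℕ → ℕ
  | 0, _, _, acc => acc
  | f + 1, b, e, acc => pm p f (b * b % p) (e / 2) (bif Nat.beq (e % 2) 1 then acc * b % p else acc)

lemma pm_spec (p : ℕ) : ∀ (f b e acc : ℕ), e < 2 ^ f → pm p f b e acc ≡ acc * b ^ e [MOD p]
  | 0, b, e, acc, h => by
    have : e = 0 := by simpa using h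
    subst this
    simp [pm, Nat.ModEq]
  | f + 1, b, e, acc, h => by
    have h1 : e / 2 < 2 ^ f := by
      rw [Nat.div_lt_iff_lt_mul (by norm_num)]; rw [pow_succ] at h; exact h
    refine (pm_spec p f (b * b % p) (e / 2) _ h1).trans ?_
    have h2 : (b * b % p) ^ (e / 2) ≡ (b * b) ^ (e / 2) [MOD p] := (Nat.mod_modEq _ _).pow _
    have h3 : (b * b) ^ (e / 2) = b ^ (2 * (e / 2)) := by rw [pow_mul, pow_two]
    rcases Nat.mod_two_eq_zero_or_one e with h0 | h0
    · have he : 2 * (e / 2) = e := by omega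
      rw [h0]
      simp only [Nat.beq, cond_false]
      rw [h3, he] at h2
      exact Nat.ModEq.mul_left _ h2
    · have he : 2 * (e / 2) + 1 = e := by omega
      rw [h0]
      have hb : Nat.beq 1 1 = true := rfl
      rw [hb]
      simp only [cond_true]
      have h4 : acc * b % p ≡ acc * b [MOD p] := Nat.mod_modEq _ _
      have h5 := h4.mul (h2.trans (by rw [h3]))
      refine h5.trans ?_
      have h6 : acc * b * b ^ (2 * (e / 2)) = acc * b ^ e := by
        rw [mul_assoc, ← pow_succ', he]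
      rw [h6]

/-- the numerical part of a Lucas certificate -/
def lucasOK (p a f : ℕ) (fs : List ℕ) : Bool :=
  Nat.blt 1 p && (Nat.blt p (2 ^ f) && (Nat.beq (fs.foldr (fun x y => x * y) 1) (p - 1) &&
    (Nat.beq (pm p f a (p - 1) 1 % p) 1 &&
      fs.all fun q => !(Nat.beq (pm p f a ((p - 1) / q) 1 % p) 1))))

theorem prime_of_lucas {p : ℕ} (a f : ℕ) (fs : List ℕ) (h : lucasOK p a f fs = true)
    (hp : ∀ q ∈ fs, q.Prime) : p.Prime := by
  simp only [lucasOK, Bool.and_eq_true, Nat.blt_eq, List.all_eq_true, Bool.not_eq_true',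
    Nat.beq_eq] at h
  obtain ⟨h1, h2, h3, h4, h5⟩ := h
  have hfs : fs.prod = p - 1 := by
    rw [← h3]; rfl
  have hlt : ∀ m, m ≤ p - 1 → pm p f a m 1 % p = a ^ m % p := by
    intro m hm
    have := pm_spec p f a m 1 (by omega)
    rw [one_mul] at this
    exact this
  refine lucas_primality p (a : ZMod p) ?_ ?_
  · have e1 : a ^ (p - 1) % p = 1 := by rw [← hlt _ le_rfl]; exact h4
    have e2 : ((a ^ (p - 1) : ℕ) : ZMod p) = ((1 : ℕ) : ZMod p) := by
      rw [ZMod.natCast_eq_natCast_iff]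
      rw [Nat.ModEq, e1, Nat.mod_eq_of_lt h1]
    simpa using e2
  · intro q hq hqd h0
    have hmem : q ∈ fs := by
      rw [← hfs] at hqd
      obtain ⟨x, hx, hqx⟩ := (Nat.prime_iff.1 hq).dvd_prod_iff.1 hqd
      have := (Nat.prime_dvd_prime_iff_eq hq (hp x hx)).1 hqx
      rwa [this]
    have h6 := h5 q hmem
    have e1 : a ^ ((p - 1) / q) % p = 1 := by
      have e2 : ((a ^ ((p - 1) / q) : ℕ) : ZMod p) = ((1 : ℕ) : ZMod p) := by
        simpa using h0
      rw [ZMod.natCast_eq_natCast_iff, Nat.ModEq, Nat.mod_eq_of_lt h1] at e2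
      exact e2
    rw [← hlt _ (Nat.div_le_self _ _)] at e1
    rw [← Nat.beq_eq] at e1
    rw [e1] at h6
    exact Bool.noConfusion h6

end Pool.Agent.STP
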