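import Mathlib
import Pool.Agent.Lib.MP_8ca0c8_nt.Main

/-!
# Arithmetic input: discriminant, norm, and non-concentration of the conjugates
-/

namespace Pool.Agent.STP

open Polynomial

lemma one_le_prod_eval {P G : ℤ[X]} {Z : Finset ℝ} (h : toR P = ∏ a ∈ Z, (X - C a))
    (hG : ∀ a ∈ Z, (toR G).eval a ≠ 0) : 1 ≤ ∏ a ∈ Z, |(toR G).eval a| := by
  have hsplit : (toR P).Splits := by rw [h]; exact Splits.prod fun a _ => Splits.X_sub_C a
  have hroots : (toR P).roots = Z.val := by rw [h]; exact roots_prod_X_sub_C Z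
  have hmon : (toR P).Monic := by rw [h]; exact monic_prod_of_monic _ _ fun a _ => monic_X_sub_C a
  have h1 := resultant_eq_prod_eval (toR P) (toR G) (toR G).natDegree le_rfl hsplit
  rw [hmon.leadingCoeff, one_pow, one_mul, hroots] at h1
  have h2 : (toR P).resultant (toR G) (toR P).natDegree (toR G).natDegree
      = ((P.resultant G (toR P).natDegree (toR G).natDegree : ℤ) : ℝ) := by
    have := resultant_map_map P G (toR P).natDegree (toR G).natDegree (Int.castRingHom ℝ)
    exact this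
  rw [h2] at h1
  have h3 : (Z.val.map (toR G).eval).prod = ∏ a ∈ Z, (toR G).eval a := rfl
  rw [h3] at h1
  have h4 : ∏ a ∈ Z, (toR G).eval a ≠ 0 := Finset.prod_ne_zero_iff.2 hG
  rw [← Finset.abs_prod, ← h1]
  rw [← h1] at h4
  have h5 : (P.resultant G (toR P).natDegree (toR G).natDegree : ℤ) ≠ 0 := by exact_mod_cast h4
  have h6 := Int.one_le_abs h5
  exact_mod_cast h6

lemma sum_log_nonneg {P : ℤ[X]} {Z : Finset ℝ} (h : toR P = ∏ a ∈ Z, (X - C a))
    (hZ : ∀ a ∈ Z, 0 < a) : 0 ≤ ∑ a ∈ Z, Real.log a := by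
  have h1 := one_le_prod_eval (G := X) h (fun a ha => by
    simp only [toR, Polynomial.map_X, eval_X]; exact (hZ a ha).ne')
  rw [← Real.log_prod fun a ha => (hZ a ha).ne']
  apply Real.log_nonneg
  refine h1.trans (le_of_eq (Finset.prod_congr rfl fun a ha => ?_))
  simp only [toR, Polynomial.map_X, eval_X]
  exact abs_of_pos (hZ a ha)

lemma sum_log_sub_nonneg {P : ℤ[X]} {Z : Finset ℝ} (h : toR P = ∏ a ∈ Z, (X - C a)) :
    0 ≤ ∑ a ∈ Z, ∑ b ∈ Z.erase a, Real.log (a - b) := by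
  classical
  have hev : ∀ a ∈ Z, (toR (derivative P)).eval a = ∏ b ∈ Z.erase a, (a - b) := by
    intro a ha
    have e1 : toR (derivative P) = derivative (toR P) := by
      rw [toR, toR, derivative_map]
    have e2 := Lagrange.eval_nodal_derivative_eval_node_eq (s := Z) (v := fun x : ℝ => x) ha
    rw [Lagrange.nodal_eq, Lagrange.nodal_eq] at e2
    rw [e1, h, e2, eval_prod]
    simp
  have hne : ∀ a ∈ Z, ∀ b ∈ Z.erase a, a - b ≠ 0 := by
    intro a _ b hb
    exact sub_ne_zero.2 (Finset.ne_of_mem_erase hb).symm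
  have h1 := one_le_prod_eval (G := derivative P) h (fun a ha => by
    rw [hev a ha]; exact Finset.prod_ne_zero_iff.2 (hne a ha))
  have h2 : ∑ a ∈ Z, ∑ b ∈ Z.erase a, Real.log (a - b)
      = Real.log (∏ a ∈ Z, |(toR (derivative P)).eval a|) := by
    rw [Real.log_prod]
    · refine Finset.sum_congr rfl fun a ha => ?_
      rw [Real.log_abs, hev a ha, Real.log_prod (hne a ha)]
    · intro a ha
      rw [hev a ha]
      exact abs_ne_zero.2 (Finset.prod_ne_zero_iff.2 (hne a ha))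
  rw [h2]
  exact Real.log_nonneg h1

/-- At most `κ d` of the conjugates lie in a short interval. -/
lemma card_near {P : ℤ[X]} {Z : Finset ℝ} (h : toR P = ∏ a ∈ Z, (X - C a))
    (hZ : ∀ a ∈ Z, 0 < a) {t ρ κ : ℝ} (ht : 0 ≤ t) (hT : ∑ a ∈ Z, a ≤ t * Z.card) (hρ : 0 < ρ)
    (hκ : 0 < κ) (hlog : 4 * t ≤ κ ^ 2 * Real.log (1 / (2 * ρ))) (hd : 2 ≤ κ * Z.card) (hρ2 : 2 * ρ < 1)
    (x : ℝ) : ((Z.filter fun a => |x - a| < ρ).card : ℝ) ≤ κ * Z.card := by
  classical
  set N := Z.filter fun a => |x - a| < ρ with hN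
  have hNZ : N ⊆ Z := Finset.filter_subset _ _
  have hL : Real.log (2 * ρ) < 0 := Real.log_neg (by positivity) hρ2
  have hL' : Real.log (1 / (2 * ρ)) = - Real.log (2 * ρ) := by rw [one_div, Real.log_inv]
  have h0 := sum_log_sub_nonneg h
  have hterm : ∀ a ∈ Z, ∀ b ∈ Z.erase a, Real.log (a - b) ≤
      (a + b) + (if a ∈ N then (if b ∈ N then Real.log (2 * ρ) else 0) else 0) := by
    intro a ha b hb
    have hab : a ≠ b := (Finset.ne_of_mem_erase hb).symm
    have hbZ := Finset.mem_of_mem_erase hb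
    have ha0 := hZ a ha
    have hb0 := hZ b hbZ
    have habs : 0 < |a - b| := abs_pos.2 (sub_ne_zero.2 hab)
    have hgen : Real.log (a - b) ≤ a + b := by
      rw [← Real.log_abs]
      have := Real.log_le_sub_one_of_pos habs
      have h3 : |a - b| ≤ a + b := by rw [abs_le]; constructor <;> linarith
      linarith
    by_cases haN : a ∈ N
    · by_cases hbN : b ∈ N
      · rw [if_pos haN, if_pos hbN]
        have h1 : |x - a| < ρ := (Finset.mem_filter.1 haN).2
        have h2 : |x - b| < ρ := (Finset.mem_filter.1 hbN).2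
        have h3 : |a - b| < 2 * ρ := by
          have : a - b = (x - b) - (x - a) := by ring
          rw [this]
          refine (abs_sub _ _).trans_lt (by linarith)
        rw [← Real.log_abs]
        have := Real.log_le_log habs h3.le
        linarith
      · rw [if_pos haN, if_neg hbN]; linarith
    · rw [if_neg haN]; linarith
  have h1 : ∑ a ∈ Z, ∑ b ∈ Z.erase a, Real.log (a - b) ≤
      ∑ a ∈ Z, ∑ b ∈ Z.erase a, ((a + b) + (if a ∈ N then (if b ∈ N then Real.log (2 * ρ) else 0) else 0)) :=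
    Finset.sum_le_sum fun a ha => Finset.sum_le_sum fun b hb => hterm a ha b hb
  have h2 : ∑ a ∈ Z, ∑ b ∈ Z.erase a, (a + b) ≤ 2 * (Z.card : ℝ) * ∑ a ∈ Z, a := by
    have : ∑ a ∈ Z, ∑ b ∈ Z.erase a, (a + b) ≤ ∑ a ∈ Z, ∑ b ∈ Z, (a + b) := by
      refine Finset.sum_le_sum fun a ha => Finset.sum_le_sum_of_subset_of_nonneg
        (Finset.erase_subset _ _) fun b hb _ => ?_
      have := hZ a ha; have := hZ b hb; positivity
    have e : ∑ a ∈ Z, ∑ b ∈ Z, (a + b) = 2 * (Z.card : ℝ) * ∑ a ∈ Z, a := by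
      have e1 : ∀ a ∈ Z, ∑ b ∈ Z, (a + b) = (Z.card : ℝ) * a + ∑ b ∈ Z, b := by
        intro a _
        rw [Finset.sum_add_distrib, Finset.sum_const, nsmul_eq_mul]
      rw [Finset.sum_congr rfl e1, Finset.sum_add_distrib, ← Finset.mul_sum, Finset.sum_const,
        nsmul_eq_mul]
      ring
    rw [← e]; exact this
  have h3 : ∑ a ∈ Z, ∑ b ∈ Z.erase a, (if a ∈ N then (if b ∈ N then Real.log (2 * ρ) else 0) else 0)
      = (N.card : ℝ) * ((N.card : ℝ) - 1) * Real.log (2 * ρ) := by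
    have e1 : ∀ a ∈ Z, ∑ b ∈ Z.erase a, (if a ∈ N then (if b ∈ N then Real.log (2 * ρ) else 0) else 0)
        = if a ∈ N then ((N.card : ℝ) - 1) * Real.log (2 * ρ) else 0 := by
      intro a ha
      by_cases haN : a ∈ N
      · simp only [if_pos haN]
        rw [← Finset.sum_filter, Finset.sum_const, nsmul_eq_mul]
        congr 1
        have e2 : (Z.erase a).filter (fun b => b ∈ N) = N.erase a := by
          ext b
          simp only [Finset.mem_filter, Finset.mem_erase]
          constructor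
          · rintro ⟨⟨h1, _⟩, h3⟩; exact ⟨h1, h3⟩
          · rintro ⟨h1, h3⟩; exact ⟨⟨h1, hNZ h3⟩, h3⟩
        rw [e2, Finset.card_erase_of_mem haN]
        have : 1 ≤ N.card := Finset.card_pos.2 ⟨a, haN⟩
        push_cast [Nat.cast_sub this]
        ring
      · simp [haN]
    rw [Finset.sum_congr rfl e1, ← Finset.sum_filter]
    have e3 : Z.filter (fun a => a ∈ N) = N := by
      ext a; simp only [Finset.mem_filter]
      exact ⟨fun h => h.2, fun h => ⟨hNZ h, h⟩⟩
    rw [e3, Finset.sum_const, nsmul_eq_mul]; ring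
  have h4 : 0 ≤ 2 * (Z.card : ℝ) * (t * Z.card)
      + (N.card : ℝ) * ((N.card : ℝ) - 1) * Real.log (2 * ρ) := by
    have e : ∑ a ∈ Z, ∑ b ∈ Z.erase a, ((a + b) + (if a ∈ N then (if b ∈ N then Real.log (2 * ρ) else 0) else 0))
      = ∑ a ∈ Z, ∑ b ∈ Z.erase a, (a + b) + ∑ a ∈ Z, ∑ b ∈ Z.erase a,
        (if a ∈ N then (if b ∈ N then Real.log (2 * ρ) else 0) else 0) := by
      simp only [Finset.sum_add_distrib]
    rw [e, h3] at h1
    have h5 : 2 * (Z.card : ℝ) * ∑ a ∈ Z, a ≤ 2 * (Z.card : ℝ) * (t * Z.card) :=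
      mul_le_mul_of_nonneg_left hT (by positivity)
    linarith
  by_contra hcon
  push Not at hcon
  set n : ℝ := (N.card : ℝ) with hn
  set d : ℝ := (Z.card : ℝ) with hdd
  have hd0 : 0 < d := by
    by_contra h0
    push Not at h0
    have : κ * d ≤ 0 := mul_nonpos_of_nonneg_of_nonpos hκ.le h0
    linarith
  -- `n (n-1) ≥ n²/2 > κ² d² / 2`
  have h6 : n / 2 ≤ n - 1 := by linarith
  have h7 : (κ * d) ^ 2 < n ^ 2 := by
    have : 0 < κ * d := by positivity
    nlinarith
  have h8 : (κ * d) ^ 2 / 2 < n * (n - 1) := by nlinarith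
  rw [hL'] at hlog
  have h9 : n * (n - 1) * Real.log (2 * ρ) < (κ * d) ^ 2 / 2 * Real.log (2 * ρ) :=
    mul_lt_mul_of_neg_right h8 hL
  have h10 : (κ * d) ^ 2 / 2 * Real.log (2 * ρ) = - (κ ^ 2 * (- Real.log (2 * ρ))) * d ^ 2 / 2 := by ring
  have h11 : - (κ ^ 2 * (- Real.log (2 * ρ))) * d ^ 2 / 2 ≤ - (4 * t) * d ^ 2 / 2 := by
    have : 0 ≤ d ^ 2 := by positivity
    nlinarith
  nlinarith

end Pool.Agent.STP
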