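import Mathlib

/-!
# Averages of the logarithm over intervals
-/

namespace Pool.Agent.STP

open Real MeasureTheory intervalIntegral

lemma intervalIntegrable_log_sub (t a b : ℝ) :
    IntervalIntegrable (fun y => Real.log (t - y)) volume a b := by
  have h := (intervalIntegrable_log' (a := t - a) (b := t - b)).comp_sub_left t
  simpa using h

lemma integral_log_sub (t u v : ℝ) : ∫ y in u..v, Real.log (t - y)
    = (t - u) * Real.log (t - u) - (t - v) * Real.log (t - v) - (v - u) := by
  rw [intervalIntegral.integral_comp_sub_left (fun s => Real.log s) t, integral_log]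
  ring

lemma mul_log_aux {l p : ℝ} (hl : 0 < l) (hp : l < p) :
    l * Real.log (l / 2) ≤ p * Real.log p - (p - l) * Real.log (p - l) := by
  have h1 : (p - l) * Real.log (p - l) ≤ (p - l) * Real.log p :=
    mul_le_mul_of_nonneg_left (Real.log_le_log (by linarith) (by linarith)) (by linarith)
  have h2 : l * Real.log (l / 2) ≤ l * Real.log p :=
    mul_le_mul_of_nonneg_left (Real.log_le_log (by positivity) (by linarith)) hl.le
  nlinarith

/-- The average of `log |t - y|` over an interval of length `l` is at least `log (l/2) - 1`. -/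
lemma integral_log_ge (t u : ℝ) {l : ℝ} (hl : 0 < l) :
    l * (Real.log (l / 2) - 1) ≤ ∫ y in u..(u + l), Real.log (t - y) := by
  rw [integral_log_sub]
  set p := t - u with hp
  have e1 : t - (u + l) = p - l := by rw [hp]; ring
  rw [e1]
  suffices h : l * Real.log (l / 2) ≤ p * Real.log p - (p - l) * Real.log (p - l) by
    have : u + l - u = l := by ring
    rw [this]; linarith
  rcases lt_or_ge l p with h1 | h1
  · exact mul_log_aux hl h1
  rcases lt_or_ge p 0 with h2 | h2
  · have h3 := mul_log_aux hl (p := l - p) (by linarith)
    have e2 : l - p - l = -p := by ring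
    rw [e2, Real.log_neg_eq_log] at h3
    have e3 : Real.log (p - l) = Real.log (l - p) := by
      rw [← Real.log_neg_eq_log]; congr 1; ring
    rw [e3]
    linarith
  · have hconv := Real.convexOn_mul_log
    have h3 := hconv.2 (Set.mem_Ici.2 h2) (Set.mem_Ici.2 (by linarith : (0 : ℝ) ≤ l - p))
      (by norm_num : (0 : ℝ) ≤ 1 / 2) (by norm_num : (0 : ℝ) ≤ 1 / 2) (by norm_num)
    simp only [smul_eq_mul] at h3
    have e2 : 1 / 2 * p + 1 / 2 * (l - p) = l / 2 := by ring
    rw [e2] at h3
    have e3 : Real.log (p - l) = Real.log (l - p) := by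
      rw [← Real.log_neg_eq_log]; congr 1; ring
    rw [e3]
    linarith

lemma const_le_integral {f : ℝ → ℝ} {c u v : ℝ} (huv : u ≤ v)
    (hf : IntervalIntegrable f volume u v) (h : ∀ y ∈ Set.Icc u v, c ≤ f y) :
    (v - u) * c ≤ ∫ y in u..v, f y := by
  have h1 : ∫ _ in u..v, c = (v - u) * c := by
    rw [intervalIntegral.integral_const, smul_eq_mul]
  rw [← h1]
  exact intervalIntegral.integral_mono_on huv intervalIntegrable_const hf h

/-- Comparison of the average over `[u, u+η]` with the value at the left end point. -/
lemma integral_log_near (x u : ℝ) {η K : ℝ} (hη : 0 < η) (hK : 2 ≤ K) (hne : x - u ≠ 0) :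
    η * (Real.log (x - u) - (if |x - u| < K * η then 2.4 else 0) - 2 / K) ≤
      ∫ y in u..(u + η), Real.log (x - y) := by
  set t := x - u with ht
  have hint := intervalIntegrable_log_sub x u (u + η)
  have hK0 : 0 < 2 / K := by positivity
  have hif : (0 : ℝ) ≤ if |t| < K * η then 2.4 else 0 := by split_ifs <;> norm_num
  have hlen : u + η - u = η := by ring
  rcases lt_or_gt_of_ne hne with h1 | h1
  · -- `t < 0`
    have h2 := const_le_integral (c := Real.log t) (by linarith) hint (fun y hy => by
      rw [← Real.log_abs t, ← Real.log_abs (x - y)]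
      apply Real.log_le_log (abs_pos.2 hne)
      rw [abs_of_neg h1, abs_of_neg (by have := hy.1; linarith)]
      have := hy.1; linarith)
    rw [hlen] at h2
    refine le_trans (mul_le_mul_of_nonneg_left ?_ hη.le) h2
    linarith
  rcases lt_or_ge t (2 * η) with h2 | h2
  · have h3 := integral_log_ge x u hη
    refine le_trans (mul_le_mul_of_nonneg_left ?_ hη.le) h3
    have h4 : |t| < K * η := by
      rw [abs_of_pos h1]
      nlinarith
    rw [if_pos h4]
    have h5 : Real.log t ≤ Real.log (η / 2) + 1.4 := by
      have e : Real.log (2 * η) = Real.log (η / 2) + Real.log 4 := by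
        rw [← Real.log_mul (by positivity) (by norm_num)]; congr 1; ring
      have h6 : Real.log t ≤ Real.log (2 * η) := Real.log_le_log h1 h2.le
      have h7 : Real.log 4 = 2 * Real.log 2 := by
        rw [show (4 : ℝ) = 2 ^ 2 by norm_num, Real.log_pow]; norm_num
      have h8 := Real.log_two_lt_d9
      rw [e] at h6
      linarith
    linarith
  · -- `t ≥ 2η`
    have hlog : Real.log t - 2 * η / t ≤ Real.log (t - η) := by
      have h3 : 0 < 1 - η / t := by
        rw [sub_pos, div_lt_one h1]; linarith
      have h4 : Real.log (t - η) = Real.log t + Real.log (1 - η / t) := by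
        rw [← Real.log_mul h1.ne' h3.ne']
        congr 1
        field_simp
      have h5 : 1 - (1 - η / t)⁻¹ ≤ Real.log (1 - η / t) := Real.one_sub_inv_le_log_of_pos h3
      have h6 : (1 - η / t)⁻¹ ≤ 1 + 2 * η / t := by
        have h7 : η / t ≤ 1 / 2 := by
          rw [div_le_iff₀ h1]; linarith
        have h8 : 0 ≤ η / t := by positivity
        rw [inv_le_iff_one_le_mul₀ h3]
        have : 2 * η / t = 2 * (η / t) := by ring
        rw [this]
        nlinarith
      rw [h4]; linarith
    have h3 := const_le_integral (c := Real.log t - 2 * η / t) (by linarith) hint (fun y hy => by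
      refine hlog.trans ?_
      apply Real.log_le_log (by linarith)
      have := hy.2; linarith)
    rw [hlen] at h3
    refine le_trans (mul_le_mul_of_nonneg_left ?_ hη.le) h3
    by_cases h4 : |t| < K * η
    · rw [if_pos h4]
      have : 2 * η / t ≤ 1 := by rw [div_le_one h1]; exact h2
      linarith
    · rw [if_neg h4]
      rw [abs_of_pos h1, not_lt] at h4
      have : 2 * η / t ≤ 2 / K := by
        rw [div_le_div_iff₀ h1 (by linarith)]
        nlinarith
      linarith

end Pool.Agent.STP
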