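import Mathlib
import Pool.Agent.Lib.MP_8ca0c8_nt.Smooth2

/-!
# Quantiles of a bounded density and discrete logarithmic potentials
-/

namespace Pool.Agent.STP

open Real MeasureTheory intervalIntegral

/-- a bounded probability density on `[A, B]` -/
structure IsDensity (A B Λ : ℝ) (φ : ℝ → ℝ) : Prop where
  hAB : A ≤ B
  hΛ : 0 < Λ
  meas : Measurable φ
  nonneg : ∀ y, 0 ≤ φ y
  le : ∀ y, φ y ≤ Λ
  mass : ∫ y in A..B, φ y = 1

variable {A B Λ : ℝ} {φ : ℝ → ℝ}

lemma IsDensity.mul_int (h : IsDensity A B Λ φ) {g : ℝ → ℝ} {a b : ℝ}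
    (hg : IntervalIntegrable g volume a b) : IntervalIntegrable (fun y => φ y * g y) volume a b := by
  have hb : ∀ y, ‖φ y‖ ≤ Λ := fun y => by
    rw [Real.norm_eq_abs, abs_of_nonneg (h.nonneg y)]; exact h.le y
  exact ⟨hg.1.bdd_mul h.meas.aestronglyMeasurable (ae_of_all _ hb),
    hg.2.bdd_mul h.meas.aestronglyMeasurable (ae_of_all _ hb)⟩

lemma IsDensity.int (h : IsDensity A B Λ φ) (a b : ℝ) : IntervalIntegrable φ volume a b := by
  have := h.mul_int (g := fun _ => (1 : ℝ)) (a := a) (b := b) intervalIntegrable_const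
  simpa using this

/-- the distribution function -/
noncomputable def cdfOf (A : ℝ) (φ : ℝ → ℝ) (y : ℝ) : ℝ := ∫ s in A..y, φ s

lemma IsDensity.cdf_sub (h : IsDensity A B Λ φ) (a b : ℝ) :
    ∫ y in a..b, φ y = cdfOf A φ b - cdfOf A φ a := by
  rw [cdfOf, cdfOf, intervalIntegral.integral_interval_sub_left (h.int _ _) (h.int _ _)]

lemma IsDensity.cdf_mono (h : IsDensity A B Λ φ) {a b : ℝ} (hab : a ≤ b) :
    cdfOf A φ a ≤ cdfOf A φ b := by
  have h1 := h.cdf_sub a b
  have h2 : 0 ≤ ∫ y in a..b, φ y :=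
    intervalIntegral.integral_nonneg hab fun y _ => h.nonneg y
  linarith

lemma IsDensity.cdf_lip (h : IsDensity A B Λ φ) {a b : ℝ} (hab : a ≤ b) :
    cdfOf A φ b - cdfOf A φ a ≤ Λ * (b - a) := by
  rw [← h.cdf_sub a b]
  have h1 : ∫ _ in a..b, Λ = (b - a) * Λ := by
    rw [intervalIntegral.integral_const, smul_eq_mul]
  have h2 := intervalIntegral.integral_mono_on hab (h.int a b)
    (intervalIntegrable_const (c := Λ)) (fun y _ => h.le y)
  rw [h1] at h2
  linarith

lemma IsDensity.cdf_A (φ : ℝ → ℝ) (A : ℝ) : cdfOf A φ A = 0 := by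
  rw [cdfOf, intervalIntegral.integral_same]

lemma IsDensity.cdf_B (h : IsDensity A B Λ φ) : cdfOf A φ B = 1 := h.mass

lemma IsDensity.lt_of_cdf (h : IsDensity A B Λ φ) {a b : ℝ} (hab : cdfOf A φ a < cdfOf A φ b) :
    a < b := by
  by_contra hcon
  push Not at hcon
  have := h.cdf_mono hcon
  linarith

lemma IsDensity.continuous_cdf (h : IsDensity A B Λ φ) : Continuous (cdfOf A φ) :=
  intervalIntegral.continuous_primitive (fun a b => h.int a b) A

lemma IsDensity.exists_quantile (h : IsDensity A B Λ φ) {u : ℝ} (hu : u ∈ Set.Icc (0 : ℝ) 1) :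
    ∃ y ∈ Set.Icc A B, cdfOf A φ y = u := by
  have h1 := intermediate_value_Icc h.hAB h.continuous_cdf.continuousOn
  rw [IsDensity.cdf_A, h.cdf_B] at h1
  exact h1 hu

lemma IsDensity.piece_le (h : IsDensity A B Λ φ) {z a b : ℝ} (hz : A ≤ z) (hza : z ≤ a) (hab : a ≤ b)
    (hb : b ≤ B) : ∫ y in a..b, φ y * Real.log (y - z) ≤ (B - A) * (cdfOf A φ b - cdfOf A φ a) := by
  rw [← h.cdf_sub a b, ← intervalIntegral.integral_const_mul]
  have hlog : IntervalIntegrable (fun y => Real.log (y - z)) volume a b := by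
    have := intervalIntegrable_log_sub z a b
    refine this.congr (fun y _ => ?_)
    rw [← Real.log_neg_eq_log]; congr 1; ring
  refine intervalIntegral.integral_mono_on hab (h.mul_int hlog) ((h.int a b).const_mul _)
    fun y hy => ?_
  rw [mul_comm (B - A)]
  refine mul_le_mul_of_nonneg_left ?_ (h.nonneg y)
  have h1 : 0 ≤ y - z := by have := hy.1; linarith
  rcases h1.eq_or_lt with h2 | h2
  · rw [← h2, Real.log_zero]; have := h.hAB; linarith
  · have := Real.log_le_sub_one_of_pos h2
    have := hy.2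
    linarith

lemma IsDensity.piece_mono (h : IsDensity A B Λ φ) {z a b : ℝ} (hza : z < a) (hab : a ≤ b) :
    ∫ y in a..b, φ y * Real.log (y - z) ≤ Real.log (b - z) * (cdfOf A φ b - cdfOf A φ a) := by
  rw [← h.cdf_sub a b, ← intervalIntegral.integral_const_mul]
  have hlog : IntervalIntegrable (fun y => Real.log (y - z)) volume a b := by
    have := intervalIntegrable_log_sub z a b
    refine this.congr (fun y _ => ?_)
    rw [← Real.log_neg_eq_log]; congr 1; ring
  refine intervalIntegral.integral_mono_on hab (h.mul_int hlog) ((h.int a b).const_mul _)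
    fun y hy => ?_
  rw [mul_comm (Real.log (b - z))]
  refine mul_le_mul_of_nonneg_left ?_ (h.nonneg y)
  exact Real.log_le_log (by have := hy.1; linarith) (by have := hy.2; linarith)

lemma IsDensity.right (h : IsDensity A B Λ φ) {k l0 : ℕ} {θ c z : ℝ} {r : ℕ → ℝ}
    (hθ0 : 0 ≤ θ) (hθ1 : θ ≤ 1) (hz : z ∈ Set.Icc A B)
    (hr : ∀ l < k, r l ∈ Set.Icc A B) (hF : ∀ l < k, k * cdfOf A φ (r l) = l + θ)
    (hl0 : l0 ≤ k) (hc : 0 < c) (h1 : l0 < k → k * cdfOf A φ z + c ≤ l0 + θ)
    (h2 : (l0 : ℝ) + θ ≤ k * cdfOf A φ z + 1) :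
    k * ∫ y in z..B, φ y * Real.log (y - z) ≤
      ∑ l ∈ Finset.Ico l0 k, Real.log (r l - z) + (|Real.log (k * Λ / c)| + 2 * (B - A)) := by
  have hAB := h.hAB
  have hlogi : ∀ a b : ℝ, IntervalIntegrable (fun y => φ y * Real.log (y - z)) volume a b := by
    intro a b
    refine h.mul_int ((intervalIntegrable_log_sub z a b).congr (fun y _ => ?_))
    rw [← Real.log_neg_eq_log]; congr 1; ring
  rcases hl0.eq_or_lt with hk | hlt
  · subst hk
    rw [Finset.Ico_self, Finset.sum_empty, zero_add]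
    have h3 := h.piece_le hz.1 le_rfl hz.2 le_rfl
    rw [h.cdf_B] at h3
    have hk0 : (0 : ℝ) ≤ (l0 : ℝ) := Nat.cast_nonneg _
    have h4 : (l0 : ℝ) * ∫ y in z..B, φ y * Real.log (y - z)
        ≤ l0 * ((B - A) * (1 - cdfOf A φ z)) := mul_le_mul_of_nonneg_left h3 hk0
    have h5 : (l0 : ℝ) * (1 - cdfOf A φ z) ≤ 1 := by linarith
    have h6 : (l0 : ℝ) * ((B - A) * (1 - cdfOf A φ z)) ≤ (B - A) * 1 := by
      have : (l0 : ℝ) * ((B - A) * (1 - cdfOf A φ z)) = (B - A) * (l0 * (1 - cdfOf A φ z)) := by ring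
      rw [this]
      exact mul_le_mul_of_nonneg_left h5 (by linarith)
    have := abs_nonneg (Real.log (l0 * Λ / c))
    linarith
  have hk0 : (0 : ℝ) < k := by exact_mod_cast lt_of_le_of_lt (Nat.zero_le _) hlt
  have hFz := h1 hlt
  have hzr : z < r l0 := by
    apply h.lt_of_cdf
    have := hF l0 hlt
    have h3 : (k : ℝ) * cdfOf A φ z < k * cdfOf A φ (r l0) := by rw [this]; linarith
    exact lt_of_mul_lt_mul_left h3 hk0.le
  have hdist : Real.log (r l0 - z) ≥ - |Real.log (k * Λ / c)| := by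
    have h3 := h.cdf_lip hzr.le
    have h4 : c ≤ k * (Λ * (r l0 - z)) := by
      have h5 := mul_le_mul_of_nonneg_left h3 hk0.le
      rw [mul_sub, hF l0 hlt] at h5
      linarith
    have h5 : c / (k * Λ) ≤ r l0 - z := by
      have := h.hΛ
      rw [div_le_iff₀ (by positivity)]
      linarith
    have h6 : 0 < c / (k * Λ) := by have := h.hΛ; positivity
    have h7 := Real.log_le_log h6 h5
    have h8 : Real.log (c / (k * Λ)) = - Real.log (k * Λ / c) := by
      rw [← Real.log_inv, inv_div]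
    rw [h8] at h7
    have := le_abs_self (Real.log (k * Λ / c))
    linarith
  have hmono : ∀ l l', l ≤ l' → l' < k → r l ≤ r l' := by
    intro l l' hll hl'
    by_contra hcon
    push Not at hcon
    have h3 := h.cdf_mono hcon.le
    have h4 := mul_le_mul_of_nonneg_left h3 hk0.le
    rw [hF l' hl', hF l (hll.trans_lt hl')] at h4
    have h5 : (l' : ℝ) ≤ l := by linarith
    have h6 : l' ≤ l := by exact_mod_cast h5
    have h7 : l = l' := le_antisymm hll h6
    rw [h7] at hcon
    exact lt_irrefl _ hcon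
  have key : ∀ n, l0 ≤ n → n < k → Real.log (r l0 - z) + k * ∫ y in (r l0)..(r n),
      φ y * Real.log (y - z) ≤ ∑ l ∈ Finset.Ico l0 (n + 1), Real.log (r l - z) := by
    intro n hn
    induction n, hn using Nat.le_induction with
    | base =>
      intro _
      rw [intervalIntegral.integral_same, mul_zero, add_zero]
      simp
    | succ n hn ih =>
      intro hnk
      have ih' := ih (by omega)
      rw [Finset.sum_Ico_succ_top (by omega)]
      have h3 := h.piece_mono (z := z) (a := r n) (b := r (n + 1))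
        (hzr.trans_le (hmono _ _ hn (by omega))) (hmono _ _ (by omega) hnk)
      have h4 : (k : ℝ) * (cdfOf A φ (r (n + 1)) - cdfOf A φ (r n)) = 1 := by
        rw [mul_sub, hF _ hnk, hF n (by omega)]; push_cast; ring
      have h5 : (k : ℝ) * ∫ y in (r n)..(r (n + 1)), φ y * Real.log (y - z)
          ≤ Real.log (r (n + 1) - z) := by
        have := mul_le_mul_of_nonneg_left h3 hk0.le
        refine this.trans (le_of_eq ?_)
        rw [mul_left_comm, h4, mul_one]
      have h6 : ∫ y in (r l0)..(r (n + 1)), φ y * Real.log (y - z)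
          = (∫ y in (r l0)..(r n), φ y * Real.log (y - z))
            + ∫ y in (r n)..(r (n + 1)), φ y * Real.log (y - z) :=
        (intervalIntegral.integral_add_adjacent_intervals (hlogi _ _) (hlogi _ _)).symm
      rw [h6, mul_add]
      linarith
  have h3 := key (k - 1) (by omega) (by omega)
  rw [Nat.sub_add_cancel (by omega : 1 ≤ k)] at h3
  have hrk := hr (k - 1) (by omega)
  have hrl := hr l0 hlt
  have h4 : ∫ y in z..B, φ y * Real.log (y - z) = (∫ y in z..(r l0), φ y * Real.log (y - z))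
      + (∫ y in (r l0)..(r (k - 1)), φ y * Real.log (y - z))
      + ∫ y in (r (k - 1))..B, φ y * Real.log (y - z) := by
    rw [intervalIntegral.integral_add_adjacent_intervals (hlogi _ _) (hlogi _ _),
      intervalIntegral.integral_add_adjacent_intervals (hlogi _ _) (hlogi _ _)]
  have h5 := mul_le_mul_of_nonneg_left (h.piece_le hz.1 le_rfl hzr.le hrl.2) hk0.le
  have h6 := mul_le_mul_of_nonneg_left
    (h.piece_le hz.1 (hzr.le.trans (hmono l0 (k - 1) (by omega) (by omega))) hrk.2 le_rfl) hk0.le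
  have h7 : (k : ℝ) * ((B - A) * (cdfOf A φ (r l0) - cdfOf A φ z)) ≤ B - A := by
    have e : (k : ℝ) * ((B - A) * (cdfOf A φ (r l0) - cdfOf A φ z))
        = (B - A) * (k * cdfOf A φ (r l0) - k * cdfOf A φ z) := by ring
    rw [e, hF l0 hlt]
    have : (B - A) * ((l0 : ℝ) + θ - k * cdfOf A φ z) ≤ (B - A) * 1 :=
      mul_le_mul_of_nonneg_left (by linarith) (by linarith)
    linarith
  have h8 : (k : ℝ) * ((B - A) * (cdfOf A φ B - cdfOf A φ (r (k - 1)))) ≤ B - A := by
    have e : (k : ℝ) * ((B - A) * (cdfOf A φ B - cdfOf A φ (r (k - 1))))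
        = (B - A) * (k * cdfOf A φ B - k * cdfOf A φ (r (k - 1))) := by ring
    rw [e, hF (k - 1) (by omega), h.cdf_B]
    have : (B - A) * ((k : ℝ) * 1 - (((k - 1 : ℕ) : ℝ) + θ)) ≤ (B - A) * 1 := by
      refine mul_le_mul_of_nonneg_left ?_ (by linarith)
      rw [Nat.cast_sub (by omega : 1 ≤ k)]
      push_cast
      linarith
    linarith
  rw [h4, mul_add, mul_add]
  linarith

lemma IsDensity.reflect (h : IsDensity A B Λ φ) : IsDensity (-B) (-A) Λ (fun y => φ (-y)) where
  hAB := by have := h.hAB; linarith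
  hΛ := h.hΛ
  meas := h.meas.comp measurable_neg
  nonneg := fun y => h.nonneg _
  le := fun y => h.le _
  mass := by
    rw [intervalIntegral.integral_comp_neg (fun y => φ y)]
    simpa using h.mass

lemma IsDensity.cdf_reflect (h : IsDensity A B Λ φ) (z : ℝ) :
    cdfOf (-B) (fun y => φ (-y)) (-z) = 1 - cdfOf A φ z := by
  rw [cdfOf, intervalIntegral.integral_comp_neg (fun y => φ y)]
  simp only [neg_neg]
  rw [h.cdf_sub, h.cdf_B]

/-- **Discrete potential of quantiles.** -/
lemma IsDensity.potential (h : IsDensity A B Λ φ) {k l0 : ℕ} {θ c z : ℝ} {r : ℕ → ℝ}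
    (hθ0 : 0 ≤ θ) (hθ1 : θ ≤ 1) (hz : z ∈ Set.Icc A B)
    (hr : ∀ l < k, r l ∈ Set.Icc A B) (hF : ∀ l < k, k * cdfOf A φ (r l) = l + θ)
    (hl0 : l0 ≤ k) (hc : 0 < c) (h1 : l0 < k → k * cdfOf A φ z + c ≤ l0 + θ)
    (h2 : 0 < l0 → (l0 : ℝ) - 1 + θ + c ≤ k * cdfOf A φ z) :
    k * ∫ y in A..B, φ y * Real.log (z - y) ≤
      ∑ l ∈ Finset.range k, Real.log (z - r l) + 2 * (|Real.log (k * Λ / c)| + 2 * (B - A)) := by
  have hFz0 : 0 ≤ cdfOf A φ z := by
    have := h.cdf_mono hz.1
    rw [IsDensity.cdf_A] at this; exact this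
  have hFz1 : cdfOf A φ z ≤ 1 := by
    have := h.cdf_mono hz.2
    rw [h.cdf_B] at this; exact this
  have hk0 : (0 : ℝ) ≤ k := Nat.cast_nonneg _
  have hA3 : (l0 : ℝ) + θ ≤ k * cdfOf A φ z + 1 := by
    rcases Nat.eq_zero_or_pos l0 with h0 | h0
    · rw [h0]; push_cast
      have : 0 ≤ (k : ℝ) * cdfOf A φ z := by positivity
      linarith
    · have := h2 h0; linarith
  have hA4 : k * cdfOf A φ z ≤ l0 + θ := by
    rcases hl0.eq_or_lt with h0 | h0
    · rw [h0]
      have : (k : ℝ) * cdfOf A φ z ≤ k * 1 := mul_le_mul_of_nonneg_left hFz1 hk0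
      linarith
    · have := h1 h0; linarith
  have hR := h.right hθ0 hθ1 hz hr hF hl0 hc h1 hA3
  have hL := h.reflect.right (k := k) (l0 := k - l0) (θ := 1 - θ) (c := c) (z := -z)
    (r := fun l => - r (k - 1 - l)) (by linarith) (by linarith)
    ⟨by have := hz.2; linarith, by have := hz.1; linarith⟩
    (fun l hl => by
      have := hr (k - 1 - l) (by omega)
      exact ⟨by have := this.2; linarith, by have := this.1; linarith⟩)
    (fun l hl => by
      rw [h.cdf_reflect, mul_sub, hF (k - 1 - l) (by omega)]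
      rw [Nat.cast_sub (by omega), Nat.cast_sub (by omega)]
      push_cast; ring)
    (Nat.sub_le _ _) hc
    (fun hlt => by
      rw [h.cdf_reflect, mul_sub, Nat.cast_sub hl0]
      have := h2 (by omega)
      linarith)
    (by
      rw [h.cdf_reflect, mul_sub, Nat.cast_sub hl0]
      linarith)
  -- rewrite the reflected statement
  have e1 : ∫ y in (-z)..(-A), (fun y => φ (-y)) y * Real.log (y - -z)
      = ∫ y in A..z, φ y * Real.log (z - y) := by
    have := intervalIntegral.integral_comp_neg (a := -z) (b := -A)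
      (fun y => φ y * Real.log (z - y))
    rw [neg_neg, neg_neg] at this
    rw [← this]
    refine intervalIntegral.integral_congr fun y _ => ?_
    simp only
    congr 2; ring
  have e2 : ∑ l ∈ Finset.Ico (k - l0) k, Real.log (- r (k - 1 - l) - -z)
      = ∑ l ∈ Finset.range l0, Real.log (z - r l) := by
    refine Finset.sum_bij' (fun l _ => k - 1 - l) (fun l _ => k - 1 - l) ?_ ?_ ?_ ?_ ?_
    · intro l hl; rw [Finset.mem_Ico] at hl; rw [Finset.mem_range]; omega
    · intro l hl; rw [Finset.mem_range] at hl; rw [Finset.mem_Ico]; omega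
    · intro l hl; rw [Finset.mem_Ico] at hl; omega
    · intro l hl; rw [Finset.mem_range] at hl; omega
    · intro l hl; congr 1; ring
  have e3 : - A - - B = B - A := by ring
  rw [e1, e2, e3] at hL
  have e4 : ∑ l ∈ Finset.Ico l0 k, Real.log (r l - z) = ∑ l ∈ Finset.Ico l0 k, Real.log (z - r l) := by
    refine Finset.sum_congr rfl fun l _ => ?_
    rw [← Real.log_neg_eq_log]; congr 1; ring
  have e5 : ∫ y in z..B, φ y * Real.log (y - z) = ∫ y in z..B, φ y * Real.log (z - y) := by
    refine intervalIntegral.integral_congr fun y _ => ?_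
    rw [← Real.log_neg_eq_log (y - z)]; congr 2; ring
  rw [e4, e5] at hR
  have e6 : ∫ y in A..B, φ y * Real.log (z - y) = (∫ y in A..z, φ y * Real.log (z - y))
      + ∫ y in z..B, φ y * Real.log (z - y) :=
    (intervalIntegral.integral_add_adjacent_intervals (h.mul_int (intervalIntegrable_log_sub z _ _))
      (h.mul_int (intervalIntegrable_log_sub z _ _))).symm
  have e7 : ∑ l ∈ Finset.range k, Real.log (z - r l) = ∑ l ∈ Finset.range l0, Real.log (z - r l)
      + ∑ l ∈ Finset.Ico l0 k, Real.log (z - r l) := by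
    rw [Finset.range_eq_Ico, Finset.range_eq_Ico, Finset.sum_Ico_consecutive _ (Nat.zero_le _) hl0]
  rw [e6, e7, mul_add]
  linarith

end Pool.Agent.STP
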