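import Mathlib
import Pool.Agent.Lib.MP_8ca0c8_nt.Main

/-!
# Real certificates and their rational approximations
-/

namespace Pool.Agent.STP

open Polynomial Topology

/-- Certificates with real points. -/
structure CertR {k n : ℕ} (r : Fin k → ℝ) (x : Fin (k + 1) → ℝ) (Q : Fin n → ℤ[X])
    (b : Fin n → ℕ) : Prop where
  x_pos : 0 < x 0
  lo : ∀ l : Fin k, x l.castSucc < r l
  hi : ∀ l : Fin k, r l < x l.succ
  monic : ∀ i, (Q i).Monic
  irr : ∀ i, Irreducible (Q i)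
  b_pos : ∀ i, 1 ≤ b i
  hasX : ∃ i, Q i = X
  deg : ∑ i, b i * (Q i).natDegree < k
  dom : ∀ j, 2 * ∏ i, |(toR (Q i)).eval (x j)| ^ b i < ∏ l, |x j - r l|
  res : ∀ i, 1 < ∏ l, |(toR (Q i)).eval (r l)|

theorem CertR.exists_cert {k n : ℕ} {r : Fin k → ℝ} {x : Fin (k + 1) → ℝ} {Q : Fin n → ℤ[X]}
    {b : Fin n → ℕ} (h : CertR r x Q b) {q a : ℝ} (hq : (∑ l, r l) / k < q) {l₀ : Fin k}
    (ha : a < r l₀) :
    ∃ (r' : Fin k → ℚ) (x' : Fin (k + 1) → ℚ), Cert r' x' Q b ∧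
      (((∑ l, r' l) / k : ℚ) : ℝ) < q ∧ a < (r' l₀ : ℝ) := by
  have hdense : DenseRange (Prod.map (Pi.map (fun (_ : Fin k) (q : ℚ) => (q : ℝ)))
      (Pi.map (fun (_ : Fin (k + 1)) (q : ℚ) => (q : ℝ)))) :=
    DenseRange.prodMap (DenseRange.piMap fun _ => Rat.denseRange_cast)
      (DenseRange.piMap fun _ => Rat.denseRange_cast)
  have hev : ∀ᶠ p : (Fin k → ℝ) × (Fin (k + 1) → ℝ) in 𝓝 (r, x),
      (0 < p.2 0 ∧ (∀ l : Fin k, p.2 l.castSucc < p.1 l) ∧ (∀ l : Fin k, p.1 l < p.2 l.succ)) ∧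
      (∀ j, 2 * ∏ i, |(toR (Q i)).eval (p.2 j)| ^ b i < ∏ l, |p.2 j - p.1 l|) ∧
      (∀ i, 1 < ∏ l, |(toR (Q i)).eval (p.1 l)|) ∧ (∑ l, p.1 l) / k < q ∧ a < p.1 l₀ := by
    have hc1 : ∀ l : Fin k, Continuous fun p : (Fin k → ℝ) × (Fin (k + 1) → ℝ) => p.1 l :=
      fun l => (continuous_apply l).comp continuous_fst
    have hc2 : ∀ l : Fin (k + 1), Continuous fun p : (Fin k → ℝ) × (Fin (k + 1) → ℝ) => p.2 l :=
      fun l => (continuous_apply l).comp continuous_snd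
    have e0 : ∀ᶠ p : (Fin k → ℝ) × (Fin (k + 1) → ℝ) in 𝓝 (r, x), 0 < p.2 0 :=
      continuousAt_const.eventually_lt (hc2 0).continuousAt h.x_pos
    have e1 : ∀ᶠ p : (Fin k → ℝ) × (Fin (k + 1) → ℝ) in 𝓝 (r, x),
        ∀ l : Fin k, p.2 l.castSucc < p.1 l := by
      rw [Filter.eventually_all]
      exact fun l => (hc2 _).continuousAt.eventually_lt (hc1 l).continuousAt (h.lo l)
    have e2 : ∀ᶠ p : (Fin k → ℝ) × (Fin (k + 1) → ℝ) in 𝓝 (r, x),
        ∀ l : Fin k, p.1 l < p.2 l.succ := by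
      rw [Filter.eventually_all]
      exact fun l => (hc1 l).continuousAt.eventually_lt (hc2 _).continuousAt (h.hi l)
    have e3 : ∀ᶠ p : (Fin k → ℝ) × (Fin (k + 1) → ℝ) in 𝓝 (r, x),
        ∀ j, 2 * ∏ i, |(toR (Q i)).eval (p.2 j)| ^ b i < ∏ l, |p.2 j - p.1 l| := by
      rw [Filter.eventually_all]
      intro j
      have c1 : Continuous fun p : (Fin k → ℝ) × (Fin (k + 1) → ℝ) =>
          2 * ∏ i, |(toR (Q i)).eval (p.2 j)| ^ b i :=
        continuous_const.mul (continuous_finsetProd _ fun i _ =>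
          (((toR (Q i)).continuous.comp (hc2 j)).abs).pow _)
      have c2 : Continuous fun p : (Fin k → ℝ) × (Fin (k + 1) → ℝ) => ∏ l, |p.2 j - p.1 l| :=
        continuous_finsetProd _ fun l _ => ((hc2 j).sub (hc1 l)).abs
      exact c1.continuousAt.eventually_lt c2.continuousAt (h.dom j)
    have e4 : ∀ᶠ p : (Fin k → ℝ) × (Fin (k + 1) → ℝ) in 𝓝 (r, x),
        ∀ i, 1 < ∏ l, |(toR (Q i)).eval (p.1 l)| := by
      rw [Filter.eventually_all]
      intro i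
      have c2 : Continuous fun p : (Fin k → ℝ) × (Fin (k + 1) → ℝ) =>
          ∏ l, |(toR (Q i)).eval (p.1 l)| :=
        continuous_finsetProd _ fun l _ => ((toR (Q i)).continuous.comp (hc1 l)).abs
      exact continuousAt_const.eventually_lt c2.continuousAt (h.res i)
    have e5 : ∀ᶠ p : (Fin k → ℝ) × (Fin (k + 1) → ℝ) in 𝓝 (r, x), (∑ l, p.1 l) / k < q := by
      have c2 : Continuous fun p : (Fin k → ℝ) × (Fin (k + 1) → ℝ) => (∑ l, p.1 l) / (k : ℝ) :=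
        (continuous_finsetSum _ fun l _ => hc1 l).div_const _
      exact c2.continuousAt.eventually_lt continuousAt_const hq
    have e6 : ∀ᶠ p : (Fin k → ℝ) × (Fin (k + 1) → ℝ) in 𝓝 (r, x), a < p.1 l₀ :=
      continuousAt_const.eventually_lt (hc1 l₀).continuousAt ha
    filter_upwards [e0, e1, e2, e3, e4, e5, e6] with p h0 h1 h2 h3 h4 h5 h6
    exact ⟨⟨h0, h1, h2⟩, h3, h4, h5, h6⟩
  obtain ⟨p, ⟨⟨r', x'⟩, hp⟩, hpU⟩ := hdense.inter_nhds_nonempty hev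
  rw [← hp] at hpU
  obtain ⟨⟨h0, h1, h2⟩, h3, h4, h5, h6⟩ := hpU
  simp only [Prod.map_fst, Prod.map_snd, Pi.map_apply] at h0 h1 h2 h3 h4 h5 h6
  refine ⟨r', x', ⟨by exact_mod_cast h0, fun l => by exact_mod_cast h1 l,
    fun l => by exact_mod_cast h2 l, h.monic, h.irr, h.b_pos, h.hasX, h.deg, ?_, ?_⟩, ?_, h6⟩
  · intro j
    have h7 : ((2 * ∏ i, |aeval (x' j) (Q i)| ^ b i : ℚ) : ℝ) < ((∏ l, |x' j - r' l| : ℚ) : ℝ) := by
      rw [Rat.cast_mul, Rat.cast_prod, Rat.cast_prod]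
      convert h3 j using 2
      · norm_num
      · refine Finset.prod_congr rfl fun i _ => ?_
        rw [Rat.cast_pow, Rat.cast_abs, cast_aeval]
      · push_cast; rfl
    exact_mod_cast h7
  · intro i
    have h7 : ((1 : ℚ) : ℝ) < ((∏ l, |aeval (r' l) (Q i)| : ℚ) : ℝ) := by
      rw [Rat.cast_one, Rat.cast_prod]
      convert h4 i using 2 with l
      rw [Rat.cast_abs, cast_aeval]
    exact_mod_cast h7
  · push_cast
    exact h5

end Pool.Agent.STP
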