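import Mathlib
import Pool.Agent.Lib.MP_8ca0c8_nt.Smooth1
import Pool.Agent.Lib.MP_8ca0c8_nt.Smooth3
import Pool.Agent.Lib.MP_8ca0c8_nt.Smooth4

/-!
# From a density to a certificate
-/

namespace Pool.Agent.STP

open Real MeasureTheory intervalIntegral Polynomial

/-- the error term -/
noncomputable def errE (Λ c B : ℝ) (k : ℕ) : ℝ := 2 * (|Real.log (k * Λ / c)| + 2 * (B - 0))

lemma errE_small {Λ c B : ℝ} (hΛ : 0 < Λ) (hc : 0 < c) {ε : ℝ} (hε : 0 < ε) :
    ∀ᶠ k : ℕ in Filter.atTop, errE Λ c B k ≤ ε * k := by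
  have h1 : ∀ᶠ t : ℝ in Filter.atTop, ‖Real.log t‖ ≤ (ε / 4) * ‖id t‖ :=
    Real.isLittleO_log_id_atTop.def (by positivity)
  have h2 : ∀ᶠ k : ℕ in Filter.atTop, ‖Real.log (k : ℝ)‖ ≤ (ε / 4) * ‖(k : ℝ)‖ :=
    tendsto_natCast_atTop_atTop.eventually h1
  have h3 : ∀ᶠ k : ℕ in Filter.atTop, (2 * |Real.log (Λ / c)| + 4 * B) / (ε / 2) ≤ (k : ℝ) :=
    tendsto_natCast_atTop_atTop.eventually_ge_atTop _
  filter_upwards [h2, h3, Filter.eventually_gt_atTop 0] with k h2 h3 hk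
  have hk0 : (0 : ℝ) < k := by exact_mod_cast hk
  rw [Real.norm_eq_abs, Real.norm_eq_abs, abs_of_pos hk0] at h2
  rw [div_le_iff₀ (by positivity)] at h3
  have h4 : Real.log (k * Λ / c) = Real.log k + Real.log (Λ / c) := by
    rw [← Real.log_mul hk0.ne' (by positivity)]; congr 1; ring
  have h5 : |Real.log (k * Λ / c)| ≤ |Real.log k| + |Real.log (Λ / c)| := by
    rw [h4]; exact abs_add_le _ _
  unfold errE
  nlinarith

lemma exists_shift (Z : Finset ℝ) (f : ℝ → ℝ) :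
    ∃ θ : ℝ, 1 / (4 * ((Z.card : ℝ) + 1)) ≤ θ ∧ θ ≤ 1 - 1 / (4 * ((Z.card : ℝ) + 1)) ∧
      ∀ a ∈ Z, ∀ l : ℤ, 1 / (4 * ((Z.card : ℝ) + 1)) ≤ |f a - (l + θ)| := by
  classical
  set d := Z.card with hd
  have hd0 : (0 : ℝ) < (d : ℝ) + 1 := by positivity
  set c : ℝ := 1 / (4 * ((d : ℝ) + 1)) with hc
  have hc0 : 0 < c := by positivity
  have hcd : c * (4 * ((d : ℝ) + 1)) = 1 := by rw [hc]; field_simp
  by_contra hcon
  push Not at hcon
  have h1 : ∀ j : Fin (d + 1), ∃ a ∈ Z, ∃ l : ℤ, |f a - (l + ((j : ℕ) + 1 / 2) / ((d : ℝ) + 1))| < c := by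
    intro j
    have hj0 : (0 : ℝ) ≤ ((j : ℕ) : ℝ) := Nat.cast_nonneg _
    have hj1 : ((j : ℕ) : ℝ) ≤ d := by exact_mod_cast Nat.lt_succ_iff.1 j.2
    refine hcon _ ?_ ?_
    · rw [hc, div_le_div_iff₀ (by positivity) hd0]; nlinarith
    · rw [div_le_iff₀ hd0]
      nlinarith
  choose g hg l hl using h1
  obtain ⟨i, -, j, -, hij, hgij⟩ := Finset.exists_ne_map_eq_of_card_lt_of_maps_to
    (s := (Finset.univ : Finset (Fin (d + 1)))) (t := Z) (f := g) (by simp [hd])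
    (fun j _ => hg j)
  have hi := hl i
  have hj := hl j
  rw [hgij] at hi
  have h2 : |((l i : ℝ) + ((i : ℕ) + 1 / 2) / ((d : ℝ) + 1)) - ((l j : ℝ) + ((j : ℕ) + 1 / 2) / ((d : ℝ) + 1))| < 2 * c := by
    have e : ((l i : ℝ) + ((i : ℕ) + 1 / 2) / ((d : ℝ) + 1)) - ((l j : ℝ) + ((j : ℕ) + 1 / 2) / ((d : ℝ) + 1))
        = (f (g j) - ((l j : ℝ) + ((j : ℕ) + 1 / 2) / ((d : ℝ) + 1))) - (f (g j) - ((l i : ℝ) + ((i : ℕ) + 1 / 2) / ((d : ℝ) + 1))) := by
      ring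
    rw [e]
    refine (abs_sub _ _).trans_lt ?_
    linarith
  have e : ((l i : ℝ) + ((i : ℕ) + 1 / 2) / ((d : ℝ) + 1)) - ((l j : ℝ) + ((j : ℕ) + 1 / 2) / ((d : ℝ) + 1))
      = (((l i - l j) * (d + 1) + ((i : ℕ) - (j : ℕ)) : ℤ) : ℝ) / ((d : ℝ) + 1) := by
    push_cast
    field_simp
    ring
  rw [e, abs_div, abs_of_pos hd0, div_lt_iff₀ hd0] at h2
  have h3 : |(((l i - l j) * (d + 1) + ((i : ℕ) - (j : ℕ)) : ℤ) : ℝ)| < 1 := by nlinarith
  have h4 : |((l i - l j) * (d + 1) + (((i : ℕ) : ℤ) - ((j : ℕ) : ℤ)))| < 1 := by exact_mod_cast h3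
  rw [Int.abs_lt_one_iff] at h4
  have hi2 := i.2
  have hj2 := j.2
  have h5 : l i - l j = 0 := by
    by_contra h6
    rcases lt_or_gt_of_ne h6 with h7 | h7
    · have : (l i - l j) * ((d : ℤ) + 1) ≤ -1 * ((d : ℤ) + 1) :=
        mul_le_mul_of_nonneg_right (by omega) (by omega)
      omega
    · have : 1 * ((d : ℤ) + 1) ≤ (l i - l j) * ((d : ℤ) + 1) :=
        mul_le_mul_of_nonneg_right (by omega) (by omega)
      omega
  rw [h5, zero_mul, zero_add] at h4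
  exact hij (Fin.ext (by omega))

variable {B Λ : ℝ} {φ : ℝ → ℝ}

lemma IsDensity.mean_le (h : IsDensity 0 B Λ φ) {k : ℕ} {θ : ℝ} {r : ℕ → ℝ}
    (hr : ∀ l < k, r l ∈ Set.Icc 0 B) (hF : ∀ l < k, k * cdfOf 0 φ (r l) = l + θ) :
    ∑ l ∈ Finset.range k, r l ≤ k * (∫ y in (0 : ℝ)..B, φ y * y) + B := by
  have hB := h.hAB
  have hii : ∀ a b : ℝ, IntervalIntegrable (fun y => φ y * y) volume a b := fun a b =>
    h.mul_int (continuous_id.intervalIntegrable a b)
  have hpos : ∀ a b : ℝ, 0 ≤ a → a ≤ b → 0 ≤ ∫ y in a..b, φ y * y := by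
    intro a b ha hab
    exact intervalIntegral.integral_nonneg hab fun y hy =>
      mul_nonneg (h.nonneg y) (ha.trans hy.1)
  rcases Nat.eq_zero_or_pos k with h0 | hkpos
  · subst h0; simp [hB]
  have hk0 : (0 : ℝ) < k := by exact_mod_cast hkpos
  have hmono : ∀ l l', l ≤ l' → l' < k → r l ≤ r l' := by
    intro l l' hll hl'
    by_contra hcon
    push Not at hcon
    have h3 := h.cdf_mono hcon.le
    have h4 := mul_le_mul_of_nonneg_left h3 hk0.le
    rw [hF l' hl', hF l (hll.trans_lt hl')] at h4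
    have h5 : (l' : ℝ) ≤ l := by linarith
    have h6 : l' ≤ l := by exact_mod_cast h5
    have h7 : l = l' := le_antisymm hll h6
    rw [h7] at hcon
    exact lt_irrefl _ hcon
  have key : ∀ n, n < k → ∑ l ∈ Finset.range n, r l ≤ k * ∫ y in (r 0)..(r n), φ y * y := by
    intro n
    induction n with
    | zero => intro _; simp
    | succ n ih =>
      intro hn
      have ih' := ih (by omega)
      rw [Finset.sum_range_succ]
      have h1 : r n * (cdfOf 0 φ (r (n + 1)) - cdfOf 0 φ (r n)) ≤ ∫ y in (r n)..(r (n + 1)), φ y * y := by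
        rw [← h.cdf_sub, ← intervalIntegral.integral_const_mul]
        refine intervalIntegral.integral_mono_on (hmono n (n + 1) (by omega) hn)
          ((h.int _ _).const_mul _) (hii _ _) fun y hy => ?_
        rw [mul_comm]
        exact mul_le_mul_of_nonneg_left hy.1 (h.nonneg y)
      have h2 : (k : ℝ) * (r n * (cdfOf 0 φ (r (n + 1)) - cdfOf 0 φ (r n))) = r n := by
        have : (k : ℝ) * (r n * (cdfOf 0 φ (r (n + 1)) - cdfOf 0 φ (r n)))
          = r n * (k * cdfOf 0 φ (r (n + 1)) - k * cdfOf 0 φ (r n)) := by ring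
        rw [this, hF _ hn, hF n (by omega)]; push_cast; ring
      have h3 := mul_le_mul_of_nonneg_left h1 hk0.le
      rw [h2] at h3
      have h4 : ∫ y in (r 0)..(r (n + 1)), φ y * y = (∫ y in (r 0)..(r n), φ y * y)
          + ∫ y in (r n)..(r (n + 1)), φ y * y :=
        (intervalIntegral.integral_add_adjacent_intervals (hii _ _) (hii _ _)).symm
      rw [h4, mul_add]
      linarith
  have h1 := key (k - 1) (by omega)
  have h2 : ∑ l ∈ Finset.range k, r l = ∑ l ∈ Finset.range (k - 1), r l + r (k - 1) := by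
    conv_lhs => rw [← Nat.sub_add_cancel (by omega : 1 ≤ k)]
    rw [Finset.sum_range_succ]
  have hr0 := hr 0 hkpos
  have hrk := hr (k - 1) (by omega)
  have h3 : ∫ y in (0 : ℝ)..B, φ y * y = (∫ y in (0 : ℝ)..(r 0), φ y * y)
      + (∫ y in (r 0)..(r (k - 1)), φ y * y) + ∫ y in (r (k - 1))..B, φ y * y := by
    rw [intervalIntegral.integral_add_adjacent_intervals (hii _ _) (hii _ _),
      intervalIntegral.integral_add_adjacent_intervals (hii _ _) (hii _ _)]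
  have h4 := hpos 0 (r 0) le_rfl hr0.1
  have h5 := hpos (r (k - 1)) B hrk.1 hrk.2
  rw [h2, h3, mul_add, mul_add]
  have h6 := mul_nonneg hk0.le h4
  have h7 := mul_nonneg hk0.le h5
  linarith [hrk.2]

end Pool.Agent.STP
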