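import Mathlib
import Pool.Agent.Lib.MP_8ca0c8_nt.Smooth5

/-!
# From a density to a certificate: the construction
-/

namespace Pool.Agent.STP

open Real MeasureTheory intervalIntegral Polynomial

variable {B Λ : ℝ} {φ : ℝ → ℝ}

lemma toR_eval_of_roots {P : ℤ[X]} {Z : Finset ℝ} (h : toR P = ∏ a ∈ Z, (X - C a)) (x : ℝ) :
    (toR P).eval x = ∏ a ∈ Z, (x - a) := by
  rw [h, eval_prod]; simp

theorem exists_certR {P : ℤ[X]} {Z : Finset ℝ} (hP : P.Monic) (hirr : Irreducible P)
    (hroots : toR P = ∏ a ∈ Z, (X - C a)) (hne : Z.Nonempty)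
    (hφ : IsDensity 0 B Λ φ) (hZB : ∀ a ∈ Z, a ∈ Set.Icc 0 B) {S : ℕ} (hS : 2 ≤ S) {δ : ℝ} (hδ : 0 < δ)
    (hD : ∀ x ∈ Set.Icc 0 B, x ∉ Z →
      (((S : ℝ) - 1) / (S * Z.card)) * ∑ a ∈ Z, Real.log (x - a) + δ ≤
        ∫ y in (0 : ℝ)..B, φ y * Real.log (x - y))
    (hR : 0 < ∑ a ∈ Z, ∫ y in (0 : ℝ)..B, φ y * Real.log (a - y))
    (hX : 0 < ∫ y in (0 : ℝ)..B, φ y * Real.log (0 - y))
    (hlast : ∀ a ∈ Z, cdfOf 0 φ a < 1) {q : ℝ} (hq : ∫ y in (0 : ℝ)..B, φ y * y < q) :
    ∃ (N : ℕ) (hN : 0 < N) (r : Fin N → ℝ) (x : Fin (N + 1) → ℝ) (b : ℕ),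
      CertR r x ![P, X] ![b, 1] ∧ (∑ l, r l) / N < q ∧ ∀ a ∈ Z, a < r ⟨N - 1, by omega⟩ := by
  classical
  have hB := hφ.hAB
  have hΛ := hφ.hΛ
  set d := Z.card with hd
  have hdpos : 0 < d := Finset.card_pos.2 hne
  have hd0 : (0 : ℝ) < d := by exact_mod_cast hdpos
  have hS0 : (0 : ℝ) < S := by exact_mod_cast (by omega : 0 < S)
  set c : ℝ := 1 / (4 * ((d : ℝ) + 1)) with hc
  have hc0 : 0 < c := by positivity
  have hc2 : c ≤ 1 / 2 := by
    rw [hc, div_le_div_iff₀ (by positivity) (by norm_num)]; nlinarith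
  set IR := ∑ a ∈ Z, ∫ y in (0 : ℝ)..B, φ y * Real.log (a - y) with hIR
  set IX := ∫ y in (0 : ℝ)..B, φ y * Real.log (0 - y) with hIX
  set M := ∫ y in (0 : ℝ)..B, φ y * y with hM
  have hnat : Filter.Tendsto (fun n : ℕ => (n : ℝ)) Filter.atTop Filter.atTop :=
    tendsto_natCast_atTop_atTop
  have hbig : ∀ {u v : ℝ}, 0 < v → ∀ᶠ n : ℕ in Filter.atTop, u < v * n := by
    intro u v hv
    have := hnat.eventually_gt_atTop (u / v)
    filter_upwards [this] with n hn
    rw [div_lt_iff₀ hv] at hn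
    linarith
  have hev : ∀ᶠ n : ℕ in Filter.atTop, errE Λ c B n ≤ (δ / 2) * n ∧
      Real.log 2 + Real.log (max B 1) < (δ / 2) * n ∧ errE Λ c B n ≤ (IR / (2 * d)) * n ∧
      errE Λ c B n ≤ (IX / 2) * n ∧ B < (q - M) * n ∧ (∀ a ∈ Z, 1 < (1 - cdfOf 0 φ a) * n) := by
    have e6 : ∀ᶠ n : ℕ in Filter.atTop, ∀ a ∈ Z, 1 < (1 - cdfOf 0 φ a) * (n : ℝ) := by
      rw [Filter.eventually_all_finset]
      intro a ha
      exact hbig (by have := hlast a ha; linarith)
    filter_upwards [errE_small hΛ hc0 (half_pos hδ), hbig (half_pos hδ),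
      errE_small hΛ hc0 (div_pos hR (by positivity : (0 : ℝ) < 2 * d)),
      errE_small hΛ hc0 (half_pos hX), hbig (sub_pos.2 hq), e6] with n h1 h2 h3 h4 h5 h6
    exact ⟨h1, h2, h3, h4, h5, h6⟩
  have htend : Filter.Tendsto (fun j : ℕ => S * d * j) Filter.atTop Filter.atTop :=
    Filter.tendsto_id.const_mul_atTop' (Nat.mul_pos (by omega) hdpos)
  obtain ⟨j, ⟨hE1, hE1', hE2, hE3, hE4, hE5⟩, hj2⟩ :=
    ((htend.eventually hev).and (Filter.eventually_ge_atTop 2)).exists
  set N := S * d * j with hN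
  have hNpos : 0 < N := Nat.mul_pos (Nat.mul_pos (by omega) hdpos) (by omega)
  have hN0 : (0 : ℝ) < N := by exact_mod_cast hNpos
  set b := (S - 1) * j with hb
  have hb1 : 1 ≤ b := Nat.mul_pos (by omega) (by omega)
  have hbN : (((S : ℝ) - 1) / (S * d)) * N = b := by
    rw [hN, hb]
    push_cast [Nat.cast_sub (by omega : 1 ≤ S)]
    field_simp
  obtain ⟨θ, hθ1, hθ2, hθ⟩ := exists_shift Z (fun a => N * cdfOf 0 φ a)
  rw [← hd, ← hc] at hθ1 hθ2 hθ
  have hθ0 : 0 < θ := hc0.trans_le hθ1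
  have hθ1' : θ < 1 := by linarith
  -- the quantiles
  have hrex : ∀ l : ℕ, ∃ y, l < N → y ∈ Set.Icc 0 B ∧ N * cdfOf 0 φ y = l + θ := by
    intro l
    by_cases hl : l < N
    · have hlN : (l : ℝ) + 1 ≤ N := by exact_mod_cast hl
      obtain ⟨y, hy, hyF⟩ := hφ.exists_quantile (u := ((l : ℝ) + θ) / N)
        ⟨by positivity, by rw [div_le_one hN0]; linarith⟩
      exact ⟨y, fun _ => ⟨hy, by rw [hyF]; field_simp⟩⟩
    · exact ⟨0, fun h => absurd h hl⟩
  choose r hr using hrex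
  have hxex : ∀ l : ℕ, ∃ y, (0 < l ∧ l < N) → y ∈ Set.Icc 0 B ∧ N * cdfOf 0 φ y = l - 1 / 2 + θ := by
    intro l
    by_cases hl : 0 < l ∧ l < N
    · have hlN : (l : ℝ) + 1 ≤ N := by exact_mod_cast hl.2
      have hl1 : (1 : ℝ) ≤ l := by exact_mod_cast hl.1
      obtain ⟨y, hy, hyF⟩ := hφ.exists_quantile (u := ((l : ℝ) - 1 / 2 + θ) / N)
        ⟨div_nonneg (by linarith) hN0.le, by rw [div_le_one hN0]; linarith⟩
      exact ⟨y, fun _ => ⟨hy, by rw [hyF]; field_simp⟩⟩
    · exact ⟨0, fun h => absurd h hl⟩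
  choose xs hxs using hxex
  have hrI : ∀ l < N, r l ∈ Set.Icc 0 B := fun l hl => (hr l hl).1
  have hrF : ∀ l < N, N * cdfOf 0 φ (r l) = l + θ := fun l hl => (hr l hl).2
  have hlt : ∀ {y z : ℝ}, N * cdfOf 0 φ y < N * cdfOf 0 φ z → y < z := fun h =>
    hφ.lt_of_cdf (lt_of_mul_lt_mul_left h hN0.le)
  have hrpos : ∀ l < N, 0 < r l := by
    intro l hl
    apply hlt
    rw [IsDensity.cdf_A, mul_zero, hrF l hl]
    positivity
  -- the roots avoid `Z`
  have hrZ : ∀ l < N, r l ∉ Z := by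
    intro l hl hmem
    have := hθ (r l) hmem (l : ℤ)
    simp only [hrF l hl] at this
    push_cast at this
    rw [sub_self, abs_zero] at this
    linarith
  -- potentials at the points of `Z`
  have hpotZ : ∀ a ∈ Z, N * ∫ y in (0 : ℝ)..B, φ y * Real.log (a - y) ≤
      ∑ l ∈ Finset.range N, Real.log (a - r l) + errE Λ c B N := by
    intro a ha
    have hF1 : cdfOf 0 φ a ≤ 1 := (hlast a ha).le
    set t := N * cdfOf 0 φ a - θ with ht
    refine hφ.potential (l0 := ⌈t⌉₊) hθ0.le hθ1'.le (hZB a ha) hrI hrF ?_ hc0 ?_ ?_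
    · rw [Nat.ceil_le, ht]
      have : (N : ℝ) * cdfOf 0 φ a ≤ N * 1 := mul_le_mul_of_nonneg_left hF1 hN0.le
      linarith
    · intro _
      have h1 := Nat.le_ceil t
      have h2 := hθ a ha (⌈t⌉₊ : ℤ)
      push_cast at h2
      have h3 : N * cdfOf 0 φ a - ((⌈t⌉₊ : ℝ) + θ) ≤ 0 := by rw [ht] at h1 ⊢; linarith
      rw [abs_of_nonpos h3] at h2
      linarith
    · intro h0
      have h1 : ((⌈t⌉₊ - 1 : ℕ) : ℝ) < t := Nat.lt_ceil.1 (by omega)
      have h2 := hθ a ha ((⌈t⌉₊ - 1 : ℕ) : ℤ)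
      have h3 : ((⌈t⌉₊ - 1 : ℕ) : ℝ) = (⌈t⌉₊ : ℝ) - 1 := by
        rw [Nat.cast_sub (by omega)]; norm_num
      rw [Int.cast_natCast, h3] at h2
      rw [h3] at h1
      have h4 : 0 ≤ N * cdfOf 0 φ a - ((⌈t⌉₊ : ℝ) - 1 + θ) := by rw [ht] at h1 ⊢; linarith
      rw [abs_of_nonneg h4] at h2
      linarith
  have hpot0 : N * IX ≤ ∑ l ∈ Finset.range N, Real.log (0 - r l) + errE Λ c B N := by
    refine hφ.potential (l0 := 0) hθ0.le hθ1'.le ⟨le_rfl, hB⟩ hrI hrF (Nat.zero_le _) hc0 ?_ ?_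
    · intro _
      rw [IsDensity.cdf_A]; push_cast; linarith
    · intro h; exact absurd h (lt_irrefl 0)
  have hpotx : ∀ l, 0 < l → l < N → N * ∫ y in (0 : ℝ)..B, φ y * Real.log (xs l - y) ≤
      ∑ l' ∈ Finset.range N, Real.log (xs l - r l') + errE Λ c B N := by
    intro l hl0 hl
    obtain ⟨hx1, hx2⟩ := hxs l ⟨hl0, hl⟩
    refine hφ.potential (l0 := l) hθ0.le hθ1'.le hx1 hrI hrF hl.le hc0 ?_ ?_
    · intro _; rw [hx2]; linarith
    · intro _; rw [hx2]; linarith
  have hxpos : ∀ l, 0 < l → l < N → 0 < xs l := by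
    intro l hl0 hl
    apply hlt
    rw [IsDensity.cdf_A, mul_zero, (hxs l ⟨hl0, hl⟩).2]
    have : (1 : ℝ) ≤ l := by exact_mod_cast hl0
    linarith
  have hxr : ∀ l, 0 < l → l < N → ∀ l' < N, xs l - r l' ≠ 0 := by
    intro l hl0 hl l' hl' h0
    have h1 := (hxs l ⟨hl0, hl⟩).2
    rw [sub_eq_zero.1 h0, hrF l' hl'] at h1
    have h2 : (l' : ℝ) - l = -(1 / 2) := by linarith
    have h3 : ((2 * (l' : ℤ) - 2 * (l : ℤ) : ℤ) : ℝ) = ((-1 : ℤ) : ℝ) := by push_cast; linarith
    have h4 : (2 * (l' : ℤ) - 2 * (l : ℤ) : ℤ) = -1 := by exact_mod_cast h3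
    omega
  -- domination in the middle
  have hdom : ∀ l, 0 < l → l < N →
      2 * (|(toR P).eval (xs l)| ^ b * |xs l|) < ∏ l' ∈ Finset.range N, |xs l - r l'| := by
    intro l hl0 hl
    have hpos : 0 < ∏ l' ∈ Finset.range N, |xs l - r l'| :=
      Finset.prod_pos fun l' hl' => abs_pos.2 (hxr l hl0 hl l' (Finset.mem_range.1 hl'))
    by_cases hmem : xs l ∈ Z
    · have : (toR P).eval (xs l) = 0 := by
        rw [toR_eval_of_roots hroots]
        exact Finset.prod_eq_zero hmem (sub_self _)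
      rw [this, abs_zero, zero_pow (by omega), zero_mul, mul_zero]
      exact hpos
    · have hPne : (toR P).eval (xs l) ≠ 0 := by
        rw [toR_eval_of_roots hroots, Finset.prod_ne_zero_iff]
        intro a ha h0
        exact hmem (by rw [sub_eq_zero.1 h0]; exact ha)
      have hx0 := hxpos l hl0 hl
      have hxB := (hxs l ⟨hl0, hl⟩).1
      rw [← Real.log_lt_log_iff (by positivity) hpos]
      have e1 : Real.log (∏ l' ∈ Finset.range N, |xs l - r l'|)
          = ∑ l' ∈ Finset.range N, Real.log (xs l - r l') := by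
        rw [Real.log_prod fun l' hl' => abs_ne_zero.2 (hxr l hl0 hl l' (Finset.mem_range.1 hl'))]
        exact Finset.sum_congr rfl fun l' _ => Real.log_abs _
      have e2 : Real.log (2 * (|(toR P).eval (xs l)| ^ b * |xs l|))
          = Real.log 2 + (b * ∑ a ∈ Z, Real.log (xs l - a) + Real.log (xs l)) := by
        rw [Real.log_mul (by norm_num) (by positivity), Real.log_mul (by positivity) (by positivity),
          Real.log_pow, Real.log_abs, Real.log_abs, toR_eval_of_roots hroots, Real.log_prod]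
        intro a ha h0
        exact hmem (by rw [sub_eq_zero.1 h0]; exact ha)
      rw [e1, e2]
      have h1 := hD (xs l) hxB hmem
      have h2 := mul_le_mul_of_nonneg_left h1 hN0.le
      have h3 := hpotx l hl0 hl
      have h4 : (N : ℝ) * ((((S : ℝ) - 1) / (S * d)) * ∑ a ∈ Z, Real.log (xs l - a) + δ)
          = b * ∑ a ∈ Z, Real.log (xs l - a) + δ * N := by
        rw [← hbN]; ring
      rw [h4] at h2
      have h5 : Real.log (xs l) ≤ Real.log (max B 1) :=
        Real.log_le_log hx0 (hxB.2.trans (le_max_left _ _))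
      linarith
  -- the first point
  obtain ⟨x0, hx00, hx0r, hx0d⟩ : ∃ x0 : ℝ, 0 < x0 ∧ x0 < r 0 ∧
      2 * (|(toR P).eval x0| ^ b * |x0|) < ∏ l' ∈ Finset.range N, |x0 - r l'| := by
    have hc1 : ContinuousAt (fun x : ℝ => 2 * (|(toR P).eval x| ^ b * |x|)) 0 :=
      (continuous_const.mul ((((toR P).continuous.abs).pow _).mul continuous_abs)).continuousAt
    have hc2 : ContinuousAt (fun x : ℝ => ∏ l' ∈ Finset.range N, |x - r l'|) 0 :=
      (continuous_finsetProd _ fun l' _ => (continuous_id.sub continuous_const).abs).continuousAt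
    have h1 : ∀ᶠ x in nhds (0 : ℝ), 2 * (|(toR P).eval x| ^ b * |x|) <
        ∏ l' ∈ Finset.range N, |x - r l'| := by
      refine hc1.eventually_lt hc2 ?_
      rw [abs_zero, mul_zero, mul_zero]
      refine Finset.prod_pos fun l' hl' => abs_pos.2 ?_
      have := hrpos l' (Finset.mem_range.1 hl')
      rw [zero_sub]; exact neg_ne_zero.2 this.ne'
    have h2 : ∀ᶠ x in nhdsWithin (0 : ℝ) (Set.Ioi 0), x < r 0 :=
      (gt_mem_nhds (hrpos 0 hNpos)).filter_mono nhdsWithin_le_nhds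
    obtain ⟨x0, ⟨ha, hb'⟩, hc'⟩ := ((h1.filter_mono nhdsWithin_le_nhds).and h2 |>.and
      (self_mem_nhdsWithin (a := (0 : ℝ)) (s := Set.Ioi 0))).exists
    exact ⟨x0, hc', hb', ha⟩
  -- the last point
  obtain ⟨xN, hxNB, hxNd⟩ : ∃ xN : ℝ, B < xN ∧
      2 * (|(toR P).eval xN| ^ b * |xN|) < ∏ l' ∈ Finset.range N, |xN - r l'| := by
    set A : ℝ[X] := ∏ l' ∈ Finset.range N, (X - C (r l')) with hA
    have hAm : A.Monic := monic_prod_of_monic _ _ fun _ _ => monic_X_sub_C _
    have hAd : A.natDegree = N := by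
      rw [hA, natDegree_prod_of_monic _ _ fun i _ => monic_X_sub_C _]; simp
    have hPm := toR_monic hP
    have hPd : (toR P).natDegree = d := by
      rw [hroots, natDegree_prod_of_monic _ _ fun i _ => monic_X_sub_C _]; simp [hd]
    have hlim : Filter.Tendsto (fun z : ℝ => (toR P ^ b * X).eval z / A.eval z) Filter.atTop
        (nhds 0) := by
      apply Polynomial.div_tendsto_atTop_zero_of_degree_lt
      have hm : (toR P ^ b * X).Monic := (hPm.pow b).mul monic_X
      rw [degree_eq_natDegree hm.ne_zero, degree_eq_natDegree hAm.ne_zero, hAd,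
        (hPm.pow b).natDegree_mul monic_X, hPm.natDegree_pow, natDegree_X, hPd]
      have : b * d + 1 < N := by
        obtain ⟨S', hS'⟩ : ∃ S', S = S' + 2 := ⟨S - 2, by omega⟩
        rw [hb, hN, hS']
        have e : S' + 2 - 1 = S' + 1 := by omega
        rw [e]
        have h1 : 2 ≤ d * j := Nat.le_mul_of_pos_left j hdpos |>.trans' hj2
        nlinarith
      exact_mod_cast this
    have hev1 : ∀ᶠ z : ℝ in Filter.atTop, |(toR P ^ b * X).eval z / A.eval z| < 1 / 2 := by
      have := hlim.abs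
      rw [abs_zero] at this
      exact this.eventually (gt_mem_nhds (by norm_num))
    obtain ⟨xN, hx1, hx2⟩ := (hev1.and (Filter.eventually_gt_atTop B)).exists
    refine ⟨xN, hx2, ?_⟩
    have hAne : A.eval xN ≠ 0 := by
      rw [hA, eval_prod, Finset.prod_ne_zero_iff]
      intro l' hl'
      simp only [eval_sub, eval_X, eval_C]
      have := (hrI l' (Finset.mem_range.1 hl')).2
      intro h0; linarith
    rw [abs_div, div_lt_iff₀ (abs_pos.2 hAne)] at hx1
    have e1 : |A.eval xN| = ∏ l' ∈ Finset.range N, |xN - r l'| := by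
      rw [hA, eval_prod, Finset.abs_prod]
      simp
    have e2 : |(toR P ^ b * X).eval xN| = |(toR P).eval xN| ^ b * |xN| := by
      rw [eval_mul, eval_pow, eval_X, abs_mul, abs_pow]
    rw [e1, e2] at hx1
    linarith
  -- assembly
  set x : Fin (N + 1) → ℝ := fun i => if i.1 = 0 then x0 else if i.1 = N then xN else xs i.1 with hx
  refine ⟨N, hNpos, fun l => r l.1, x, b, ⟨?_, ?_, ?_, ?_, ?_, ?_, ?_, ?_, ?_, ?_⟩, ?_, ?_⟩
  · rw [hx]; simpa using hx00
  · intro l
    rw [hx]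
    simp only [Fin.val_castSucc]
    by_cases h0 : l.1 = 0
    · rw [if_pos h0, h0]; exact hx0r
    · rw [if_neg h0, if_neg (by omega)]
      apply hlt
      rw [hrF _ l.2, (hxs l.1 ⟨by omega, l.2⟩).2]
      linarith
  · intro l
    rw [hx]
    simp only [Fin.val_succ]
    rw [if_neg (by omega)]
    by_cases h0 : l.1 + 1 = N
    · rw [if_pos h0]
      exact lt_of_le_of_lt (hrI _ l.2).2 hxNB
    · rw [if_neg h0]
      have hl1 := l.2
      apply hlt
      rw [hrF _ l.2, (hxs (l.1 + 1) ⟨by omega, by omega⟩).2]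
      push_cast
      linarith
  · intro i; fin_cases i
    · exact hP
    · exact monic_X
  · intro i; fin_cases i
    · exact hirr
    · exact irreducible_X
  · intro i; fin_cases i
    · exact hb1
    · exact le_rfl
  · exact ⟨1, rfl⟩
  · rw [Fin.sum_univ_two]
    simp only [Matrix.cons_val_zero, Matrix.cons_val_one]
    have hPd : P.natDegree = d := by
      rw [← natDegree_toR hP, hroots, natDegree_prod_of_monic _ _ fun i _ => monic_X_sub_C _]; simp [hd]
    rw [hPd, natDegree_X]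
    obtain ⟨S', hS'⟩ : ∃ S', S = S' + 2 := ⟨S - 2, by omega⟩
    rw [hb, hN, hS']
    have e : S' + 2 - 1 = S' + 1 := by omega
    rw [e]
    have h1 : 2 ≤ d * j := Nat.le_mul_of_pos_left j hdpos |>.trans' hj2
    nlinarith
  · intro i
    rw [Fin.prod_univ_two]
    simp only [Matrix.cons_val_zero, Matrix.cons_val_one, toR_X, eval_X, pow_one]
    have e : ∀ z : ℝ, ∏ l : Fin N, |z - r l.1| = ∏ l' ∈ Finset.range N, |z - r l'| := fun z =>
      Fin.prod_univ_eq_prod_range (fun l => |z - r l|) N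
    rw [e, hx]
    simp only
    have hi := i.2
    split_ifs with h0 h1
    · exact hx0d
    · exact hxNd
    · exact hdom i.1 (by omega) (by omega)
  · have e : ∀ g : ℝ → ℝ, ∏ l : Fin N, |g (r l.1)| = ∏ l' ∈ Finset.range N, |g (r l')| := fun g =>
      Fin.prod_univ_eq_prod_range (fun l => |g (r l)|) N
    intro i; fin_cases i
    · change 1 < ∏ l : Fin N, |(toR P).eval (r l.1)|
      rw [e (fun z => (toR P).eval z)]
      have hne' : ∀ l' ∈ Finset.range N, |(toR P).eval (r l')| ≠ 0 := by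
        intro l' hl'
        rw [abs_ne_zero, toR_eval_of_roots hroots, Finset.prod_ne_zero_iff]
        intro a ha h0
        exact hrZ l' (Finset.mem_range.1 hl') (by rw [sub_eq_zero.1 h0]; exact ha)
      rw [← Real.log_lt_log_iff one_pos (Finset.prod_pos fun l' hl' =>
        lt_of_le_of_ne (abs_nonneg _) (hne' l' hl').symm), Real.log_one, Real.log_prod hne']
      have e1 : ∑ l' ∈ Finset.range N, Real.log |(toR P).eval (r l')|
          = ∑ a ∈ Z, ∑ l' ∈ Finset.range N, Real.log (a - r l') := by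
        rw [Finset.sum_comm]
        refine Finset.sum_congr rfl fun l' hl' => ?_
        rw [Real.log_abs, toR_eval_of_roots hroots, Real.log_prod]
        · refine Finset.sum_congr rfl fun a _ => ?_
          rw [← Real.log_neg_eq_log]; congr 1; ring
        · intro a ha h0
          exact hrZ l' (Finset.mem_range.1 hl') (by rw [sub_eq_zero.1 h0]; exact ha)
      rw [e1]
      have h1 : ∑ a ∈ Z, (N * ∫ y in (0 : ℝ)..B, φ y * Real.log (a - y)) ≤
          ∑ a ∈ Z, (∑ l ∈ Finset.range N, Real.log (a - r l) + errE Λ c B N) :=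
        Finset.sum_le_sum hpotZ
      rw [← Finset.mul_sum, Finset.sum_add_distrib, Finset.sum_const, nsmul_eq_mul, ← hd, ← hIR] at h1
      have h2 : (d : ℝ) * errE Λ c B N ≤ IR / 2 * N := by
        have := mul_le_mul_of_nonneg_left hE2 hd0.le
        refine this.trans (le_of_eq ?_)
        field_simp
      have h3 : 0 < IR * N := mul_pos hR hN0
      linarith
    · change 1 < ∏ l : Fin N, |(toR (X : ℤ[X])).eval (r l.1)|
      simp only [toR_X, eval_X]
      rw [e (fun z => z)]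
      have hne' : ∀ l' ∈ Finset.range N, |r l'| ≠ 0 := by
        intro l' hl'
        exact abs_ne_zero.2 (hrpos l' (Finset.mem_range.1 hl')).ne'
      rw [← Real.log_lt_log_iff one_pos (Finset.prod_pos fun l' hl' =>
        lt_of_le_of_ne (abs_nonneg _) (hne' l' hl').symm), Real.log_one, Real.log_prod hne']
      have e1 : ∑ l' ∈ Finset.range N, Real.log |r l'|
          = ∑ l' ∈ Finset.range N, Real.log (0 - r l') := by
        refine Finset.sum_congr rfl fun l' _ => ?_
        rw [Real.log_abs, ← Real.log_neg_eq_log]; congr 1; ring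
      rw [e1]
      have h3 : 0 < IX * N := mul_pos hX hN0
      linarith
  · have e : ∑ l : Fin N, r l.1 = ∑ l ∈ Finset.range N, r l := Fin.sum_univ_eq_sum_range (fun l => r l) N
    rw [e, div_lt_iff₀ hN0]
    have := hφ.mean_le hrI hrF
    rw [← hM] at this
    linarith
  · intro a ha
    apply hlt
    simp only
    rw [hrF _ (by omega)]
    have h1 := hE5 a ha
    have h2 : (((N - 1 : ℕ) : ℝ)) = N - 1 := by
      rw [Nat.cast_sub (by omega)]; norm_num
    rw [h2]
    linarith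

end Pool.Agent.STP
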