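import Mathlib
import Pool.Agent.Lib.MP_8ca0c8_nt.Smooth1
import Pool.Agent.Lib.MP_8ca0c8_nt.Smooth6

/-!
# The smoothed density of a totally positive algebraic integer of large degree
-/

namespace Pool.Agent.STP

open Real MeasureTheory intervalIntegral Polynomial

lemma integral_indicator_mul {A B u v : ℝ} (h1 : A ≤ u) (h2 : u ≤ v) (h3 : v ≤ B) (g : ℝ → ℝ) :
    ∫ y in A..B, (Set.Ioc u v).indicator (fun _ => (1 : ℝ)) y * g y = ∫ y in u..v, g y := by
  rw [intervalIntegral.integral_of_le (h1.trans (h2.trans h3)), intervalIntegral.integral_of_le h2]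
  have e : (fun y => (Set.Ioc u v).indicator (fun _ => (1 : ℝ)) y * g y)
      = (Set.Ioc u v).indicator g := by
    funext y
    by_cases hy : y ∈ Set.Ioc u v
    · simp [hy]
    · simp [hy]
  rw [e, MeasureTheory.setIntegral_indicator measurableSet_Ioc,
    Set.inter_eq_right.2 (Set.Ioc_subset_Ioc h1 h3)]

lemma intervalIntegrable_indicator_mul {A B u v : ℝ} {g : ℝ → ℝ}
    (hg : IntervalIntegrable g volume A B) :
    IntervalIntegrable (fun y => (Set.Ioc u v).indicator (fun _ => (1 : ℝ)) y * g y) volume A B := by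
  have hb : ∀ y, ‖(Set.Ioc u v).indicator (fun _ => (1 : ℝ)) y‖ ≤ 1 := fun y => by
    by_cases hy : y ∈ Set.Ioc u v
    · simp [hy]
    · simp [hy]
  have hm : Measurable ((Set.Ioc u v).indicator (fun _ => (1 : ℝ))) :=
    measurable_const.indicator measurableSet_Ioc
  exact ⟨hg.1.bdd_mul hm.aestronglyMeasurable (ae_of_all _ hb),
    hg.2.bdd_mul hm.aestronglyMeasurable (ae_of_all _ hb)⟩

/-- the smoothed density -/
noncomputable def phi (Z : Finset ℝ) (s η : ℝ) (y : ℝ) : ℝ :=
  (∑ a ∈ Z, ((1 - s) / (Z.card * η)) * (Set.Ioc a (a + η)).indicator (fun _ => (1 : ℝ)) y)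
    + (s / 16) * (Set.Ioc (1 : ℝ) 17).indicator (fun _ => (1 : ℝ)) y

variable {Z : Finset ℝ} {s η B : ℝ}

lemma integral_phi (hZ : ∀ a ∈ Z, 0 ≤ a ∧ a + η ≤ B) (hη : 0 ≤ η) (hB : 17 ≤ B) {g : ℝ → ℝ}
    (hg : IntervalIntegrable g volume 0 B) :
    ∫ y in (0 : ℝ)..B, phi Z s η y * g y = ((1 - s) / (Z.card * η)) * (∑ a ∈ Z, ∫ y in a..(a + η), g y)
      + (s / 16) * ∫ y in (1 : ℝ)..17, g y := by
  have e : ∀ y, phi Z s η y * g y = (∑ a ∈ Z, ((1 - s) / (Z.card * η)) *
      ((Set.Ioc a (a + η)).indicator (fun _ => (1 : ℝ)) y * g y))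
      + (s / 16) * ((Set.Ioc (1 : ℝ) 17).indicator (fun _ => (1 : ℝ)) y * g y) := by
    intro y
    rw [phi, add_mul, Finset.sum_mul]
    congr 1
    · exact Finset.sum_congr rfl fun a _ => by ring
    · ring
  simp only [e]
  have hsum : IntervalIntegrable (fun y => ∑ a ∈ Z, ((1 - s) / (Z.card * η)) *
      ((Set.Ioc a (a + η)).indicator (fun _ => (1 : ℝ)) y * g y)) volume 0 B := by
    have := IntervalIntegrable.sum (μ := volume) (a := 0) (b := B) Z
      (f := fun a y => ((1 - s) / (Z.card * η)) *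
        ((Set.Ioc a (a + η)).indicator (fun _ => (1 : ℝ)) y * g y))
      (fun a _ => (intervalIntegrable_indicator_mul hg).const_mul _)
    have e2 : (∑ a ∈ Z, fun y => ((1 - s) / (Z.card * η)) *
        ((Set.Ioc a (a + η)).indicator (fun _ => (1 : ℝ)) y * g y)) = (fun y => ∑ a ∈ Z,
        ((1 - s) / (Z.card * η)) * ((Set.Ioc a (a + η)).indicator (fun _ => (1 : ℝ)) y * g y)) := by
      funext y
      rw [Finset.sum_apply]
    rw [e2] at this
    exact this
  rw [intervalIntegral.integral_add hsum ((intervalIntegrable_indicator_mul hg).const_mul _),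
    intervalIntegral.integral_finsetSum
      (fun a _ => (intervalIntegrable_indicator_mul hg).const_mul _),
    intervalIntegral.integral_const_mul, integral_indicator_mul (by norm_num) (by norm_num) hB,
    Finset.mul_sum]
  congr 1
  refine Finset.sum_congr rfl fun a ha => ?_
  rw [intervalIntegral.integral_const_mul, integral_indicator_mul (hZ a ha).1 (by linarith) (hZ a ha).2]

lemma isDensity_phi (hne : Z.Nonempty) (hZ : ∀ a ∈ Z, 0 ≤ a ∧ a + η ≤ B) (hη : 0 < η) (hB : 17 ≤ B)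
    (hs0 : 0 < s) (hs1 : s < 1) : IsDensity 0 B ((1 - s) / η + s / 16) (phi Z s η) := by
  have hd0 : (0 : ℝ) < Z.card := by exact_mod_cast Finset.card_pos.2 hne
  have hs : 0 < 1 - s := by linarith
  have hc : 0 ≤ (1 - s) / (Z.card * η) := by positivity
  have hi0 : ∀ (u v y : ℝ), 0 ≤ (Set.Ioc u v).indicator (fun _ => (1 : ℝ)) y := fun u v y =>
    Set.indicator_nonneg (fun _ _ => zero_le_one) y
  have hi1 : ∀ (u v y : ℝ), (Set.Ioc u v).indicator (fun _ => (1 : ℝ)) y ≤ 1 := fun u v y => by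
    by_cases hy : y ∈ Set.Ioc u v
    · simp [hy]
    · simp [hy]
  refine ⟨by linarith, by positivity, ?_, ?_, ?_, ?_⟩
  · unfold phi
    refine Measurable.add (Finset.measurable_sum _ fun a _ => ?_) ?_
    · exact (measurable_const.indicator measurableSet_Ioc).const_mul _
    · exact (measurable_const.indicator measurableSet_Ioc).const_mul _
  · intro y
    unfold phi
    have h1 : 0 ≤ ∑ a ∈ Z, ((1 - s) / (Z.card * η)) * (Set.Ioc a (a + η)).indicator (fun _ => (1 : ℝ)) y :=
      Finset.sum_nonneg fun a _ => mul_nonneg hc (hi0 _ _ _)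
    have h2 : 0 ≤ (s / 16) * (Set.Ioc (1 : ℝ) 17).indicator (fun _ => (1 : ℝ)) y :=
      mul_nonneg (by positivity) (hi0 _ _ _)
    linarith
  · intro y
    unfold phi
    have h1 : ∑ a ∈ Z, ((1 - s) / (Z.card * η)) * (Set.Ioc a (a + η)).indicator (fun _ => (1 : ℝ)) y ≤
        ∑ a ∈ Z, ((1 - s) / (Z.card * η)) :=
      Finset.sum_le_sum fun a _ => (mul_le_mul_of_nonneg_left (hi1 _ _ _) hc).trans (mul_one _).le
    have h2 : (s / 16) * (Set.Ioc (1 : ℝ) 17).indicator (fun _ => (1 : ℝ)) y ≤ s / 16 :=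
      (mul_le_mul_of_nonneg_left (hi1 _ _ _) (by positivity)).trans (mul_one _).le
    have h3 : ∑ a ∈ Z, ((1 - s) / (Z.card * η)) = (1 - s) / η := by
      rw [Finset.sum_const, nsmul_eq_mul]; field_simp
    linarith
  · have h := integral_phi (s := s) hZ hη.le hB (g := fun _ => (1 : ℝ)) intervalIntegrable_const
    simp only [mul_one] at h
    rw [h]
    have h1 : ∀ a ∈ Z, ∫ y in a..(a + η), (1 : ℝ) = η := by
      intro a _; simp
    rw [Finset.sum_congr rfl h1, Finset.sum_const, nsmul_eq_mul]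
    simp
    field_simp
    ring

lemma log_eight_ge : (1.07 : ℝ) ≤ Real.log (16 / 2) - 1 := by
  have : Real.log (16 / 2) = 3 * Real.log 2 := by
    rw [show (16 / 2 : ℝ) = 2 ^ 3 by norm_num, Real.log_pow]; norm_num
  rw [this]
  have := Real.log_two_gt_d9
  linarith

lemma sum_near_le {x K : ℝ} {κ : ℝ}
    (h : ((Z.filter fun a => |x - a| < K * η).card : ℝ) ≤ κ * Z.card) :
    ∑ a ∈ Z, (if |x - a| < K * η then (2.4 : ℝ) else 0) ≤ 2.4 * κ * Z.card := by
  rw [← Finset.sum_filter, Finset.sum_const, nsmul_eq_mul]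
  linarith

lemma near_sum_ge {x K κ : ℝ} {Z' : Finset ℝ} (hZ' : Z' ⊆ Z) (hη : 0 < η) (hK : 2 ≤ K)
    (hne : ∀ a ∈ Z', x - a ≠ 0)
    (h : ((Z.filter fun a => |x - a| < K * η).card : ℝ) ≤ κ * Z.card) :
    η * (∑ a ∈ Z', Real.log (x - a) - (2.4 * κ + 2 / K) * Z.card) ≤
      ∑ a ∈ Z', ∫ y in a..(a + η), Real.log (x - y) := by
  have h1 : ∑ a ∈ Z', η * (Real.log (x - a) - (if |x - a| < K * η then 2.4 else 0) - 2 / K) ≤
      ∑ a ∈ Z', ∫ y in a..(a + η), Real.log (x - y) :=
    Finset.sum_le_sum fun a ha => integral_log_near x a hη hK (hne a ha)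
  refine le_trans ?_ h1
  rw [← Finset.mul_sum]
  refine mul_le_mul_of_nonneg_left ?_ hη.le
  rw [Finset.sum_sub_distrib, Finset.sum_sub_distrib, Finset.sum_const, nsmul_eq_mul]
  have h2 : ∑ a ∈ Z', (if |x - a| < K * η then (2.4 : ℝ) else 0) ≤
      ∑ a ∈ Z, (if |x - a| < K * η then (2.4 : ℝ) else 0) :=
    Finset.sum_le_sum_of_subset_of_nonneg hZ' fun a _ _ => by split_ifs <;> norm_num
  have h3 := sum_near_le h
  have h4 : (Z'.card : ℝ) ≤ Z.card := by exact_mod_cast Finset.card_le_card hZ'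
  have h5 : (Z'.card : ℝ) * (2 / K) ≤ Z.card * (2 / K) :=
    mul_le_mul_of_nonneg_right h4 (by positivity)
  linarith

theorem exists_certR_of_params {P : ℤ[X]} (hP : P.Monic) (hirr : Irreducible P)
    (hroots : toR P = ∏ a ∈ Z, (X - C a)) (hpos : ∀ a ∈ Z, 0 < a) {t : ℝ} (ht : 0 ≤ t)
    (hT : ∑ a ∈ Z, a ≤ t * Z.card) {S : ℕ} (hS : 2 ≤ S) (hη : 0 < η)
    (hη1 : 2 * (8 * S * η) < 1) (hlog : 4 * t ≤ (1 / (10 * S)) ^ 2 * Real.log (1 / (2 * (8 * S * η))))
    (hd1 : 20 * (S : ℝ) ≤ Z.card) (hd2 : 2 * S * (1 - Real.log η) < Z.card)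
    {q : ℝ} (hq : t + η / 2 + 9 / S < q) :
    ∃ (N : ℕ) (hN : 0 < N) (r : Fin N → ℝ) (x : Fin (N + 1) → ℝ) (b : ℕ),
      CertR r x ![P, X] ![b, 1] ∧ (∑ l, r l) / N < q ∧ ∀ a ∈ Z, a < r ⟨N - 1, by omega⟩ := by
  classical
  have hS0 : (0 : ℝ) < S := by exact_mod_cast (by omega : 0 < S)
  have hS2 : (2 : ℝ) ≤ S := by exact_mod_cast hS
  have hd0 : (0 : ℝ) < Z.card := by nlinarith
  have hne : Z.Nonempty := Finset.card_pos.1 (by exact_mod_cast hd0)
  set d : ℝ := (Z.card : ℝ) with hd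
  set s : ℝ := 1 / S with hs
  have hs0 : 0 < s := by positivity
  have hs1 : s ≤ 1 / 2 := by rw [hs, div_le_div_iff₀ hS0 (by norm_num)]; linarith
  have h1s : 0 < 1 - s := by linarith
  set B : ℝ := ∑ a ∈ Z, a + η + 17 with hB
  have hsum0 : 0 ≤ ∑ a ∈ Z, a := Finset.sum_nonneg fun a ha => (hpos a ha).le
  have hB17 : 17 ≤ B := by rw [hB]; linarith
  have hZB : ∀ a ∈ Z, 0 ≤ a ∧ a + η ≤ B := by
    intro a ha
    have := Finset.single_le_sum (f := fun a : ℝ => a) (fun b hb => (hpos b hb).le) ha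
    exact ⟨(hpos a ha).le, by rw [hB]; linarith⟩
  have hφ := isDensity_phi (s := s) hne hZB hη hB17 hs0 (by linarith)
  have hK : (2 : ℝ) ≤ 8 * S := by linarith
  have hκ : ∀ x : ℝ, ((Z.filter fun a => |x - a| < 8 * S * η).card : ℝ) ≤ (1 / (10 * S)) * d := by
    intro x
    refine card_near hroots hpos ht hT (by positivity) (by positivity) hlog ?_ hη1 x
    rw [div_mul_eq_mul_div, le_div_iff₀ (by positivity), one_mul]
    linarith
  have hloss : 2.4 * (1 / (10 * (S : ℝ))) + 2 / (8 * S) = 0.49 * s := by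
    rw [hs]; field_simp; norm_num
  set c : ℝ := (1 - s) / (d * η) with hc
  have hc0 : 0 < c := by positivity
  have hcη : c * η = (1 - s) / d := by rw [hc]; field_simp
  have hint : ∀ x : ℝ, IntervalIntegrable (fun y => Real.log (x - y)) volume 0 B :=
    fun x => intervalIntegrable_log_sub x 0 B
  have hformula : ∀ x : ℝ, ∫ y in (0 : ℝ)..B, phi Z s η y * Real.log (x - y)
      = c * (∑ a ∈ Z, ∫ y in a..(a + η), Real.log (x - y)) + (s / 16) * ∫ y in (1 : ℝ)..17, Real.log (x - y) :=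
    fun x => integral_phi hZB hη.le hB17 (hint x)
  have hextra : ∀ x : ℝ, 1.07 * s ≤ (s / 16) * ∫ y in (1 : ℝ)..17, Real.log (x - y) := by
    intro x
    have h1 := integral_log_ge x 1 (l := 16) (by norm_num)
    have e : (1 : ℝ) + 16 = 17 := by norm_num
    rw [e] at h1
    have h2 := log_eight_ge
    have h3 : (16 : ℝ) * 1.07 ≤ ∫ y in (1 : ℝ)..17, Real.log (x - y) := by linarith
    have h4 := mul_le_mul_of_nonneg_left h3 (by positivity : 0 ≤ s / 16)
    linarith
  refine exists_certR hP hirr hroots hne hφ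
    (fun a ha => ⟨(hZB a ha).1, by have := (hZB a ha).2; linarith⟩) hS
    (δ := s / 2) (by positivity) ?_ ?_ ?_ ?_ ?_
  · -- domination
    intro x _ hxZ
    have h1 := near_sum_ge (Finset.Subset.refl Z) hη hK
      (fun a ha h0 => hxZ (by rw [sub_eq_zero.1 h0]; exact ha)) (hκ x)
    rw [hloss] at h1
    have h2 := mul_le_mul_of_nonneg_left h1 hc0.le
    have h3 := hextra x
    rw [hformula x]
    have e1 : ((S : ℝ) - 1) / (S * d) = (1 - s) / d := by rw [hs]; field_simp
    rw [← hd, e1]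
    have e2 : c * (η * (∑ a ∈ Z, Real.log (x - a) - 0.49 * s * d))
        = (1 - s) / d * ∑ a ∈ Z, Real.log (x - a) - (1 - s) * (0.49 * s) := by
      rw [← mul_assoc, hcη]; field_simp
    rw [← hd, e2] at h2
    nlinarith
  · -- resultant with `P`
    have hterm : ∀ a ∈ Z, (1 - s) / d * ((Real.log η - 1) + ∑ b ∈ Z.erase a, Real.log (a - b)
        - 0.49 * s * d) + 1.07 * s ≤ ∫ y in (0 : ℝ)..B, phi Z s η y * Real.log (a - y) := by
      intro a ha
      rw [hformula a, ← Finset.add_sum_erase Z _ ha]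
      have h1 := near_sum_ge (Finset.erase_subset a Z) hη hK (x := a)
        (fun b hb => sub_ne_zero.2 (Finset.ne_of_mem_erase hb).symm) (hκ a)
      rw [hloss] at h1
      have h2 : ∫ y in a..(a + η), Real.log (a - y) = η * (Real.log η - 1) := by
        rw [integral_log_sub]
        have e1 : a - (a + η) = -η := by ring
        rw [e1, Real.log_neg_eq_log, sub_self]
        ring
      have h3 := hextra a
      have h4 : η * ((Real.log η - 1) + ∑ b ∈ Z.erase a, Real.log (a - b) - 0.49 * s * d) ≤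
          (∫ y in a..(a + η), Real.log (a - y))
            + ∑ b ∈ Z.erase a, ∫ y in b..(b + η), Real.log (a - y) := by
        rw [h2]; rw [← hd] at h1; linarith
      have h5 := mul_le_mul_of_nonneg_left h4 hc0.le
      rw [← mul_assoc, hcη] at h5
      linarith
    have hsum := Finset.sum_le_sum hterm
    refine lt_of_lt_of_le ?_ hsum
    rw [Finset.sum_add_distrib, ← Finset.mul_sum, Finset.sum_sub_distrib, Finset.sum_add_distrib,
      Finset.sum_const, Finset.sum_const, Finset.sum_const, nsmul_eq_mul, nsmul_eq_mul, nsmul_eq_mul,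
      ← hd]
    have h0 := sum_log_sub_nonneg hroots
    have h1 : (1 - s) / d * (d * (Real.log η - 1) + 0 - d * (0.49 * s * d)) ≤
        (1 - s) / d * (d * (Real.log η - 1) + ∑ a ∈ Z, ∑ b ∈ Z.erase a, Real.log (a - b)
          - d * (0.49 * s * d)) :=
      mul_le_mul_of_nonneg_left (by linarith) (by positivity)
    have h2 : (1 - s) / d * (d * (Real.log η - 1) + 0 - d * (0.49 * s * d))
        = (1 - s) * (Real.log η - 1) - (1 - s) * (0.49 * s * d) := by
      field_simp
      ring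
    have h3 : 1 - Real.log η < s * d / 2 := by
      have : s * d / 2 = d / (2 * S) := by rw [hs]; field_simp
      rw [this, lt_div_iff₀ (by positivity)]
      linarith
    have h4 : Real.log η < 0 := Real.log_neg hη (by nlinarith)
    have h5 : (1 - s) * (Real.log η - 1) ≥ Real.log η - 1 := by nlinarith
    have h6 : (1 - s) * (0.49 * s * d) ≤ 0.49 * s * d := by
      have : 0 ≤ 0.49 * s * d := by positivity
      nlinarith
    linarith
  · -- resultant with `X`
    rw [hformula 0]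
    have h1 : η * ∑ a ∈ Z, Real.log a ≤ ∑ a ∈ Z, ∫ y in a..(a + η), Real.log (0 - y) := by
      rw [Finset.mul_sum]
      refine Finset.sum_le_sum fun a ha => ?_
      have ha0 := hpos a ha
      have h2 := const_le_integral (c := Real.log a) (by linarith : a ≤ a + η)
        (intervalIntegrable_log_sub 0 a (a + η)) (fun y hy => by
          have h3 := hy.1
          rw [zero_sub, Real.log_neg_eq_log]
          exact Real.log_le_log ha0 h3)
      have e : a + η - a = η := by ring
      rwa [e] at h2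
    have h2 := sum_log_nonneg hroots hpos
    have h3 : 0 ≤ c * ∑ a ∈ Z, ∫ y in a..(a + η), Real.log (0 - y) :=
      mul_nonneg hc0.le (le_trans (mul_nonneg hη.le h2) h1)
    have h4 := hextra 0
    have h5 : 0 < 1.07 * s := by positivity
    linarith
  · -- the last point
    intro a ha
    have hcdf := hφ.cdf_sub a B
    rw [hφ.cdf_B] at hcdf
    have h1 : (1 - s) / d ≤ ∫ y in a..B, phi Z s η y := by
      have h2 : ∫ y in a..B, c * ((Set.Ioc a (a + η)).indicator (fun _ => (1 : ℝ)) y * 1)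
          = (1 - s) / d := by
        rw [intervalIntegral.integral_const_mul, integral_indicator_mul le_rfl (by linarith) (hZB a ha).2]
        simp [hcη]
      rw [← h2]
      refine intervalIntegral.integral_mono_on (by have := (hZB a ha).2; linarith)
        ((intervalIntegrable_indicator_mul intervalIntegrable_const).const_mul _) (hφ.int _ _) ?_
      intro y _
      rw [mul_one, phi]
      have hi0 : ∀ (u v y : ℝ), 0 ≤ (Set.Ioc u v).indicator (fun _ => (1 : ℝ)) y := fun u v y =>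
        Set.indicator_nonneg (fun _ _ => zero_le_one) y
      have h3 := Finset.single_le_sum (f := fun a : ℝ => ((1 - s) / (Z.card * η)) *
        (Set.Ioc a (a + η)).indicator (fun _ => (1 : ℝ)) y)
        (fun b _ => mul_nonneg hc0.le (hi0 _ _ _)) ha
      have h4 : 0 ≤ (s / 16) * (Set.Ioc (1 : ℝ) 17).indicator (fun _ => (1 : ℝ)) y :=
        mul_nonneg (by positivity) (hi0 _ _ _)
      rw [hc, hd]
      linarith
    have h2 : 0 < (1 - s) / d := by positivity
    linarith
  · -- the mean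
    rw [integral_phi hZB hη.le hB17 (g := fun y => y) (continuous_id.intervalIntegrable 0 B), ← hd, ← hc]
    have h1 : ∀ a ∈ Z, ∫ y in a..(a + η), y = η * (a + η / 2) := by
      intro a _
      rw [integral_id]; ring
    rw [Finset.sum_congr rfl h1, ← Finset.mul_sum, Finset.sum_add_distrib, Finset.sum_const,
      nsmul_eq_mul, ← hd, integral_id, ← mul_assoc, hcη]
    have h2 : (1 - s) / d * (∑ a ∈ Z, a + d * (η / 2)) ≤ (1 - s) / d * (t * d + d * (η / 2)) :=
      mul_le_mul_of_nonneg_left (by linarith) (by positivity)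
    have h3 : (1 - s) / d * (t * d + d * (η / 2)) = (1 - s) * (t + η / 2) := by field_simp
    have h4 : s / 16 * ((17 ^ 2 - 1 ^ 2) / 2) = 9 / S := by rw [hs]; ring
    rw [h4]
    have h5 : (1 - s) * (t + η / 2) ≤ t + η / 2 := by
      have : 0 ≤ t + η / 2 := by positivity
      nlinarith
    linarith

/-- For all totally positive algebraic integers of sufficiently large degree and mean trace at most
`t < q` there is a real certificate with mean below `q`. -/
theorem exists_certR_of_large {t q : ℝ} (ht : 0 ≤ t) (htq : t < q) :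
    ∃ D : ℕ, ∀ (P : ℤ[X]) (Z : Finset ℝ), P.Monic → Irreducible P →
      toR P = ∏ a ∈ Z, (X - C a) → (∀ a ∈ Z, 0 < a) → D ≤ Z.card → ∑ a ∈ Z, a ≤ t * Z.card →
      ∃ (N : ℕ) (hN : 0 < N) (r : Fin N → ℝ) (x : Fin (N + 1) → ℝ) (b : ℕ),
        CertR r x ![P, X] ![b, 1] ∧ (∑ l, r l) / N < q ∧ ∀ a ∈ Z, a < r ⟨N - 1, by omega⟩ := by
  obtain ⟨S, hS⟩ := exists_nat_gt (max 2 (18 / (q - t)))
  have hS2' : (2 : ℝ) < S := (le_max_left _ _).trans_lt hS
  have hS2 : 2 ≤ S := by exact_mod_cast hS2'.le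
  have hS3 : 18 / (q - t) < S := (le_max_right _ _).trans_lt hS
  have hS0 : (0 : ℝ) < S := by linarith
  have h9 : 9 / (S : ℝ) < (q - t) / 2 := by
    rw [div_lt_iff₀ (sub_pos.2 htq)] at hS3
    rw [div_lt_div_iff₀ hS0 (by norm_num)]
    linarith
  -- choice of `η`
  have hlim : Filter.Tendsto (fun e : ℝ => 1 / (2 * (8 * S * e))) (nhdsWithin 0 (Set.Ioi 0))
      Filter.atTop := by
    have h1 : Filter.Tendsto (fun e : ℝ => e⁻¹) (nhdsWithin 0 (Set.Ioi 0)) Filter.atTop :=
      tendsto_inv_nhdsGT_zero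
    have h2 := h1.const_mul_atTop (by positivity : (0 : ℝ) < 1 / (2 * (8 * S)))
    refine h2.congr fun e => ?_
    rw [one_div, one_div, ← mul_inv]; ring_nf
  have e1 : ∀ᶠ e : ℝ in nhdsWithin 0 (Set.Ioi 0),
      4 * t / (1 / (10 * (S : ℝ))) ^ 2 < Real.log (1 / (2 * (8 * S * e))) :=
    (Real.tendsto_log_atTop.comp hlim).eventually_gt_atTop _
  have e2 : ∀ᶠ e : ℝ in nhdsWithin 0 (Set.Ioi 0), e < min (1 / (32 * (S : ℝ))) (q - t) :=
    (gt_mem_nhds (lt_min (by positivity) (sub_pos.2 htq))).filter_mono nhdsWithin_le_nhds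
  obtain ⟨η, ⟨h1, h2⟩, h3⟩ := ((e1.and e2).and (self_mem_nhdsWithin (a := (0 : ℝ))
    (s := Set.Ioi 0))).exists
  have hη : 0 < η := h3
  have hη1 : η < 1 / (32 * (S : ℝ)) := h2.trans_le (min_le_left _ _)
  have hη2 : η < q - t := h2.trans_le (min_le_right _ _)
  obtain ⟨D, hD⟩ := exists_nat_gt (max (20 * (S : ℝ)) (2 * S * (1 - Real.log η)))
  refine ⟨D, fun P Z hP hirr hroots hpos hcard hT => ?_⟩
  have hDc : (D : ℝ) ≤ Z.card := by exact_mod_cast hcard
  refine exists_certR_of_params hP hirr hroots hpos ht hT hS2 hη ?_ ?_ ?_ ?_ ?_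
  · rw [lt_div_iff₀ (by positivity)] at hη1
    linarith
  · rw [div_lt_iff₀ (by positivity)] at h1
    linarith
  · have := (le_max_left (20 * (S : ℝ)) (2 * S * (1 - Real.log η))).trans_lt hD
    linarith
  · have := (le_max_right (20 * (S : ℝ)) (2 * S * (1 - Real.log η))).trans_lt hD
    linarith
  · linarith

end Pool.Agent.STP
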