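import Mathlib
import Pool.Agent.Lib.MP_8ca0c8_nt.Above
import Pool.Agent.Lib.MP_8ca0c8_nt.Smooth4
import Pool.Agent.Lib.MP_8ca0c8_nt.Smooth7

/-!
# Above a limit point every rational number is a mean trace
-/

namespace Pool.Agent.STP

open Polynomial Topology

/-- The polynomial data of a totally positive algebraic integer. -/
lemma exists_data {α : ℂ} (hα : IsTotallyPositive α) : ∃ (P : ℤ[X]) (Z : Finset ℝ),
    P.Monic ∧ Irreducible P ∧ toR P = ∏ a ∈ Z, (X - C a) ∧ (∀ a ∈ Z, 0 < a) ∧ Z.Nonempty ∧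
      meanTrace α = (((∑ a ∈ Z, a) / Z.card : ℝ) : ℂ) := by
  classical
  obtain ⟨hint, hroots⟩ := hα
  have hintQ : IsIntegral ℚ α := hint.tower_top
  set P := minpoly ℤ α with hP
  have hPm : P.Monic := minpoly.monic hint
  have hmap : minpoly ℚ α = P.map (algebraMap ℤ ℚ) :=
    minpoly.isIntegrallyClosed_eq_field_fractions' ℚ hint
  set M := (minpoly ℚ α).aroots ℂ with hM
  have hsep : (minpoly ℚ α).Separable := (minpoly.irreducible hintQ).separable
  have hnd : M.Nodup := nodup_roots hsep.map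
  have hre : ∀ z ∈ M, ((z.re : ℝ) : ℂ) = z := by
    intro z hz
    obtain ⟨r, _, hr⟩ := hroots z hz
    rw [hr, Complex.ofReal_re]
  have hpos : ∀ z ∈ M, 0 < z.re := by
    intro z hz
    obtain ⟨r, hr0, hr⟩ := hroots z hz
    rw [hr, Complex.ofReal_re]; exact hr0
  have hndre : (M.map Complex.re).Nodup := by
    refine hnd.map_on fun x hx y hy hxy => ?_
    rw [← hre x hx, ← hre y hy, hxy]
  set Z := (M.map Complex.re).toFinset with hZ
  have hZval : Z.val = M.map Complex.re := by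
    rw [hZ, Multiset.toFinset_val, hndre.dedup]
  have hPC : P.map (algebraMap ℤ ℂ) = (M.map fun z => X - C z).prod := by
    have e1 : P.map (algebraMap ℤ ℂ) = (minpoly ℚ α).map (algebraMap ℚ ℂ) := by
      rw [hmap, Polynomial.map_map]; congr 1
    rw [e1]
    have h2 := (IsAlgClosed.splits ((minpoly ℚ α).map (algebraMap ℚ ℂ))).eq_prod_roots
    rw [((minpoly.monic hintQ).map (algebraMap ℚ ℂ)).leadingCoeff, C_1, one_mul] at h2
    exact h2
  have htoR : toR P = ∏ a ∈ Z, (X - C a) := by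
    have h1 : ∏ a ∈ Z, (X - C a) = (M.map fun z => X - C z.re).prod := by
      have e : ∏ a ∈ Z, (X - C a : ℝ[X]) = (Z.val.map fun a => (X - C a : ℝ[X])).prod := rfl
      rw [e, hZval, Multiset.map_map]
      rfl
    apply Polynomial.map_injective (algebraMap ℝ ℂ) (algebraMap ℝ ℂ).injective
    have h2 : (toR P).map (algebraMap ℝ ℂ) = P.map (algebraMap ℤ ℂ) := by
      rw [toR, Polynomial.map_map]; congr 1
    rw [h2, hPC, h1, Polynomial.map_multiset_prod, Multiset.map_map]
    congr 1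
    refine Multiset.map_congr rfl fun z hz => ?_
    simp only [Function.comp_apply, Polynomial.map_sub, Polynomial.map_X, Polynomial.map_C]
    congr 2
    exact (hre z hz).symm
  have hcard : Multiset.card M = Z.card := by
    have : Z.card = Multiset.card Z.val := rfl
    rw [this, hZval, Multiset.card_map]
  have hcardM : Multiset.card M = (minpoly ℚ α).natDegree := by
    have h1 := splits_iff_card_roots.1 (IsAlgClosed.splits ((minpoly ℚ α).map (algebraMap ℚ ℂ)))
    rw [natDegree_map] at h1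
    exact h1
  have hZpos : 0 < Z.card := by
    rw [← hcard, hcardM]; exact minpoly.natDegree_pos hintQ
  refine ⟨P, Z, hPm, minpoly.irreducible hint, htoR, ?_, Finset.card_pos.1 hZpos, ?_⟩
  · intro a ha
    have : a ∈ M.map Complex.re := by rw [← hZval]; exact ha
    obtain ⟨z, hz, rfl⟩ := Multiset.mem_map.1 this
    exact hpos z hz
  · have h1 : M.sum = ((∑ a ∈ Z, a : ℝ) : ℂ) := by
      have e : ∑ a ∈ Z, a = (Z.val.map fun a => a).sum := rfl
      rw [e, hZval, Multiset.map_map]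
      have e2 : (((Multiset.map ((fun a => a) ∘ Complex.re) M).sum : ℝ) : ℂ)
          = (Multiset.map (fun z => ((z.re : ℝ) : ℂ)) M).sum := by
        have := (Complex.ofRealHom : ℝ →+* ℂ).map_multiset_sum (Multiset.map ((fun a => a) ∘ Complex.re) M)
        rw [Multiset.map_map] at this
        exact this
      rw [e2]
      conv_lhs => rw [← Multiset.map_id M]
      congr 1
      exact Multiset.map_congr rfl fun z hz => (hre z hz).symm
    rw [meanTrace, ← hM, h1, ← hcardM, hcard]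
    push_cast
    rfl

lemma sum_int {P : ℤ[X]} {Z : Finset ℝ} (h : toR P = ∏ a ∈ Z, (X - C a)) :
    ∑ a ∈ Z, a = ((-P.nextCoeff : ℤ) : ℝ) := by
  have h1 := prod_X_sub_C_nextCoeff (s := Z) (fun a : ℝ => a)
  rw [← h] at h1
  have h2 : (toR P).nextCoeff = ((P.nextCoeff : ℤ) : ℝ) :=
    nextCoeff_map (Int.cast_injective (α := ℝ)) P
  rw [h2] at h1
  push_cast
  linarith

lemma mem_meanTraceSet_iff {t : ℝ} (ht : t ∈ meanTraceSet) : ∃ (P : ℤ[X]) (Z : Finset ℝ),
    P.Monic ∧ Irreducible P ∧ toR P = ∏ a ∈ Z, (X - C a) ∧ (∀ a ∈ Z, 0 < a) ∧ Z.Nonempty ∧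
      t = (∑ a ∈ Z, a) / Z.card := by
  obtain ⟨α, hα, hmt⟩ := ht
  obtain ⟨P, Z, h1, h2, h3, h4, h5, h6⟩ := exists_data hα
  refine ⟨P, Z, h1, h2, h3, h4, h5, ?_⟩
  rw [h6] at hmt
  exact_mod_cast hmt.symm

lemma meanTraceSet_pos {t : ℝ} (ht : t ∈ meanTraceSet) : 0 < t := by
  obtain ⟨P, Z, _, _, _, h4, h5, h6⟩ := mem_meanTraceSet_iff ht
  rw [h6]
  exact div_pos (Finset.sum_pos h4 h5) (by exact_mod_cast Finset.card_pos.2 h5)

lemma meanTraceSet_rat {t : ℝ} (ht : t ∈ meanTraceSet) : ∃ q : ℚ, (q : ℝ) = t := by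
  obtain ⟨P, Z, _, _, h3, h4, h5, h6⟩ := mem_meanTraceSet_iff ht
  refine ⟨((-P.nextCoeff : ℤ) : ℚ) / Z.card, ?_⟩
  rw [h6, sum_int h3]
  push_cast
  rfl

/-- Near a limit point there are mean traces of totally positive algebraic integers of arbitrarily
large degree. -/
lemma exists_large {t t' : ℝ} (ht : IsLimitPoint meanTraceSet t) (htt : t < t') (D : ℕ) :
    ∃ (P : ℤ[X]) (Z : Finset ℝ), P.Monic ∧ Irreducible P ∧ toR P = ∏ a ∈ Z, (X - C a) ∧
      (∀ a ∈ Z, 0 < a) ∧ Z.Nonempty ∧ D ≤ Z.card ∧ (∑ a ∈ Z, a) ≤ t' * Z.card := by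
  by_contra hcon
  push Not at hcon
  have hinf := ht (Set.Iio t') (Iio_mem_nhds htt)
  apply hinf
  set F : Set ℝ := (fun p : ℤ × ℕ => (p.1 : ℝ) / p.2) '' (Set.Icc (0 : ℤ) (⌊|t'| * D⌋) ×ˢ Set.Iio D) with hF
  have hfin : F.Finite := ((Set.finite_Icc _ _).prod (Set.finite_Iio _)).image _
  refine hfin.subset ?_
  rintro y ⟨hy1, hy2⟩
  obtain ⟨P, Z, h1, h2, h3, h4, h5, h6⟩ := mem_meanTraceSet_iff hy2
  have hc0 : (0 : ℝ) < Z.card := by exact_mod_cast Finset.card_pos.2 h5
  have hle : ∑ a ∈ Z, a ≤ t' * Z.card := by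
    have : y < t' := hy1
    rw [h6, div_lt_iff₀ hc0] at this
    exact this.le
  have hcard : Z.card < D := by
    by_contra hge
    push Not at hge
    exact absurd hle (not_le.2 (hcon P Z h1 h2 h3 h4 h5 hge))
  refine ⟨(-P.nextCoeff, Z.card), ⟨?_, hcard⟩, ?_⟩
  · have hs := sum_int h3
    have hpos : 0 < ∑ a ∈ Z, a := Finset.sum_pos h4 h5
    rw [hs] at hpos hle
    refine ⟨by exact_mod_cast hpos.le, ?_⟩
    rw [Int.le_floor]
    refine hle.trans ?_
    have h7 : t' * (Z.card : ℝ) ≤ |t'| * Z.card := mul_le_mul_of_nonneg_right (le_abs_self _) hc0.le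
    have h8 : |t'| * (Z.card : ℝ) ≤ |t'| * D :=
      mul_le_mul_of_nonneg_left (by exact_mod_cast hcard.le) (abs_nonneg _)
    linarith
  · simp only
    rw [h6, sum_int h3]

/-- **Every rational number above a limit point of the set of mean traces is a mean trace.** -/
theorem mem_of_limitPoint {t : ℝ} (ht : IsLimitPoint meanTraceSet t) (q : ℚ) (hq : t < q) :
    (q : ℝ) ∈ meanTraceSet := by
  classical
  set t' : ℝ := (t + q) / 2 with ht'
  have h1 : t < t' := by rw [ht']; linarith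
  have h2 : t' < q := by rw [ht']; linarith
  have ht0 : 0 ≤ t' := by
    obtain ⟨y, hy1, hy2⟩ := (ht (Set.Iio t') (Iio_mem_nhds h1)).nonempty
    exact (meanTraceSet_pos hy2).le.trans (le_of_lt hy1)
  obtain ⟨D, hD⟩ := exists_certR_of_large ht0 h2
  obtain ⟨P, Z, hP, hirr, hroots, hpos, hne, hcard, hsum⟩ := exists_large ht h1 D
  obtain ⟨N, hN, r, x, b, hcert, hmean, hlast⟩ := hD P Z hP hirr hroots hpos hcard hsum
  set m := Z.max' hne with hm
  have hmZ : m ∈ Z := Finset.max'_mem Z hne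
  obtain ⟨a, ha1, ha2⟩ := exists_rat_btwn (hlast m hmZ)
  obtain ⟨r', x', hcert', hmean', hlast'⟩ := hcert.exists_cert hmean ha2
  have ha0 : (0 : ℝ) < a := (hpos m hmZ).trans ha1
  have ha0' : 0 < a := by exact_mod_cast ha0
  refine hcert'.above' a ?_ ?_ q ?_
  · intro _
    exact_mod_cast hlast'.le
  · intro i y z hy hyz
    fin_cases i
    · change |aeval y P| ≤ |aeval z P|
      have h3 : ∀ w : ℚ, a ≤ w → ((|aeval w P| : ℚ) : ℝ) = ∏ c ∈ Z, ((w : ℝ) - c) := by
        intro w hw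
        have hw' : (a : ℝ) ≤ w := by exact_mod_cast hw
        rw [Rat.cast_abs, cast_aeval, toR_eval_of_roots hroots]
        apply abs_of_nonneg
        refine Finset.prod_nonneg fun c hc => ?_
        have := Finset.le_max' Z c hc
        linarith
      have h4 : ((|aeval y P| : ℚ) : ℝ) ≤ ((|aeval z P| : ℚ) : ℝ) := by
        rw [h3 y hy, h3 z (hy.trans hyz)]
        have hy' : (a : ℝ) ≤ y := by exact_mod_cast hy
        have hyz' : (y : ℝ) ≤ z := by exact_mod_cast hyz
        refine Finset.prod_le_prod (fun c hc => ?_) fun c _ => by linarith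
        have := Finset.le_max' Z c hc
        linarith
      exact_mod_cast h4
    · change |aeval y (X : ℤ[X])| ≤ |aeval z (X : ℤ[X])|
      rw [aeval_X, aeval_X, abs_of_pos (by linarith), abs_of_pos (by linarith)]
      exact hyz
  · have : (((∑ l, r' l) / (N : ℚ) : ℚ) : ℝ) < ((q : ℚ) : ℝ) := hmean'
    exact_mod_cast this.le

end Pool.Agent.STP
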