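import Pool.Agent.Lib.MP_8ca0c8_nt.T1Data

namespace Pool.Agent.STP.T1

open Pool.Agent.STP

theorem dom0 : (X0.all fun x => domOK M ps Rs x) = true := by decide +kernel

theorem dom1 : (X1.all fun x => domOK M ps Rs x) = true := by decide +kernel

theorem dom2 : (X2.all fun x => domOK M ps Rs x) = true := by decide +kernel

theorem dom3 : (X3.all fun x => domOK M ps Rs x) = true := by decide +kernel

theorem dom4 : (X4.all fun x => domOK M ps Rs x) = true := by decide +kernel

theorem dom5 : (X5.all fun x => domOK M ps Rs x) = true := by decide +kernel

theorem dom6 : (X6.all fun x => domOK M ps Rs x) = true := by decide +kernel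

theorem dom7 : (X7.all fun x => domOK M ps Rs x) = true := by decide +kernel

end Pool.Agent.STP.T1
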