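import Pool.Agent.Lib.MP_8ca0c8_nt.T1Data

namespace Pool.Agent.STP.T1

open Pool.Agent.STP

theorem dom8 : (X8.all fun x => domOK M ps Rs x) = true := by decide +kernel

theorem dom9 : (X9.all fun x => domOK M ps Rs x) = true := by decide +kernel

theorem dom10 : (X10.all fun x => domOK M ps Rs x) = true := by decide +kernel

theorem dom11 : (X11.all fun x => domOK M ps Rs x) = true := by decide +kernel

theorem dom12 : (X12.all fun x => domOK M ps Rs x) = true := by decide +kernel

theorem dom13 : (X13.all fun x => domOK M ps Rs x) = true := by decide +kernel

theorem dom14 : (X14.all fun x => domOK M ps Rs x) = true := by decide +kernel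

theorem dom15 : (X15.all fun x => domOK M ps Rs x) = true := by decide +kernel

end Pool.Agent.STP.T1
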