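import Pool.Agent.Lib.MP_8ca0c8_nt.T1Data

namespace Pool.Agent.STP.T1

open Pool.Agent.STP

theorem dom16 : (X16.all fun x => domOK M ps Rs x) = true := by decide +kernel

theorem dom17 : (X17.all fun x => domOK M ps Rs x) = true := by decide +kernel

theorem dom18 : (X18.all fun x => domOK M ps Rs x) = true := by decide +kernel

theorem dom19 : (X19.all fun x => domOK M ps Rs x) = true := by decide +kernel

theorem dom20 : (X20.all fun x => domOK M ps Rs x) = true := by decide +kernel

theorem dom21 : (X21.all fun x => domOK M ps Rs x) = true := by decide +kernel

theorem dom22 : (X22.all fun x => domOK M ps Rs x) = true := by decide +kernel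

theorem dom23 : (X23.all fun x => domOK M ps Rs x) = true := by decide +kernel

end Pool.Agent.STP.T1
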