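import Pool.Agent.Lib.MP_8ca0c8_nt.T1Data

namespace Pool.Agent.STP.T1

open Pool.Agent.STP

theorem dom24 : (X24.all fun x => domOK M ps Rs x) = true := by decide +kernel

theorem dom25 : (X25.all fun x => domOK M ps Rs x) = true := by decide +kernel

theorem dom26 : (X26.all fun x => domOK M ps Rs x) = true := by decide +kernel

theorem dom27 : (X27.all fun x => domOK M ps Rs x) = true := by decide +kernel

theorem dom28 : (X28.all fun x => domOK M ps Rs x) = true := by decide +kernel

theorem dom29 : (X29.all fun x => domOK M ps Rs x) = true := by decide +kernel

theorem dom30 : (X30.all fun x => domOK M ps Rs x) = true := by decide +kernel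

theorem dom31 : (X31.all fun x => domOK M ps Rs x) = true := by decide +kernel

end Pool.Agent.STP.T1
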