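import Pool.Agent.Lib.MP_8ca0c8_nt.T1Data

namespace Pool.Agent.STP.T1

open Pool.Agent.STP

theorem dom32 : (X32.all fun x => domOK M ps Rs x) = true := by decide +kernel

theorem dom33 : (X33.all fun x => domOK M ps Rs x) = true := by decide +kernel

theorem dom34 : (X34.all fun x => domOK M ps Rs x) = true := by decide +kernel

theorem dom35 : (X35.all fun x => domOK M ps Rs x) = true := by decide +kernel

theorem dom36 : (X36.all fun x => domOK M ps Rs x) = true := by decide +kernel

theorem dom37 : (X37.all fun x => domOK M ps Rs x) = true := by decide +kernel

theorem dom38 : (X38.all fun x => domOK M ps Rs x) = true := by decide +kernel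

theorem dom39 : (X39.all fun x => domOK M ps Rs x) = true := by decide +kernel

theorem dom40 : (X40.all fun x => domOK M ps Rs x) = true := by decide +kernel

end Pool.Agent.STP.T1
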