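import Pool.Agent.Lib.MP_8ca0c8_nt.Pratt
import Pool.Agent.Lib.MP_8ca0c8_nt.Irr
import Pool.Agent.Lib.MP_8ca0c8_nt.T1Data

namespace Pool.Agent.STP.T1

open Pool.Agent.STP

theorem prime_232811 : Nat.Prime 232811 := by
  refine prime_of_lucas 2 18 [2, 5, 31, 751] (by decide +kernel) ?_
  simp only [List.mem_cons, List.not_mem_nil, or_false, forall_eq_or_imp, forall_eq]
  refine ⟨by norm_num, by norm_num, by norm_num, by norm_num⟩

theorem prime_332873 : Nat.Prime 332873 := by
  refine prime_of_lucas 3 19 [2, 2, 2, 41609] (by decide +kernel) ?_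
  simp only [List.mem_cons, List.not_mem_nil, or_false, forall_eq_or_imp, forall_eq]
  refine ⟨by norm_num, by norm_num, by norm_num, by norm_num⟩

theorem prime_465067 : Nat.Prime 465067 := by
  refine prime_of_lucas 3 19 [2, 3, 3, 7, 3691] (by decide +kernel) ?_
  simp only [List.mem_cons, List.not_mem_nil, or_false, forall_eq_or_imp, forall_eq]
  refine ⟨by norm_num, by norm_num, by norm_num, by norm_num, by norm_num⟩

theorem prime_994901 : Nat.Prime 994901 := by
  refine prime_of_lucas 2 20 [2, 2, 5, 5, 9949] (by decide +kernel) ?_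
  simp only [List.mem_cons, List.not_mem_nil, or_false, forall_eq_or_imp, forall_eq]
  refine ⟨by norm_num, by norm_num, by norm_num, by norm_num, by norm_num⟩

theorem prime_1076069 : Nat.Prime 1076069 := by
  refine prime_of_lucas 10 21 [2, 2, 7, 38431] (by decide +kernel) ?_
  simp only [List.mem_cons, List.not_mem_nil, or_false, forall_eq_or_imp, forall_eq]
  refine ⟨by norm_num, by norm_num, by norm_num, by norm_num⟩

theorem prime_1094099 : Nat.Prime 1094099 := by
  refine prime_of_lucas 2 21 [2, 311, 1759] (by decide +kernel) ?_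
  simp only [List.mem_cons, List.not_mem_nil, or_false, forall_eq_or_imp, forall_eq]
  refine ⟨by norm_num, by norm_num, by norm_num⟩

theorem prime_1113899 : Nat.Prime 1113899 := by
  refine prime_of_lucas 2 21 [2, 521, 1069] (by decide +kernel) ?_
  simp only [List.mem_cons, List.not_mem_nil, or_false, forall_eq_or_imp, forall_eq]
  refine ⟨by norm_num, by norm_num, by norm_num⟩

theorem prime_1862489 : Nat.Prime 1862489 := by
  refine prime_of_lucas 3 21 [2, 2, 2, 232811] (by decide +kernel) ?_
  simp only [List.mem_cons, List.not_mem_nil, or_false, forall_eq_or_imp, forall_eq]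
  refine ⟨by norm_num, by norm_num, by norm_num, prime_232811⟩

theorem prime_1989803 : Nat.Prime 1989803 := by
  refine prime_of_lucas 2 21 [2, 994901] (by decide +kernel) ?_
  simp only [List.mem_cons, List.not_mem_nil, or_false, forall_eq_or_imp, forall_eq]
  refine ⟨by norm_num, prime_994901⟩

theorem prime_24138971 : Nat.Prime 24138971 := by
  refine prime_of_lucas 2 25 [2, 5, 503, 4799] (by decide +kernel) ?_
  simp only [List.mem_cons, List.not_mem_nil, or_false, forall_eq_or_imp, forall_eq]
  refine ⟨by norm_num, by norm_num, by norm_num, by norm_num⟩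

theorem prime_30894961 : Nat.Prime 30894961 := by
  refine prime_of_lucas 7 25 [2, 2, 2, 2, 3, 5, 109, 1181] (by decide +kernel) ?_
  simp only [List.mem_cons, List.not_mem_nil, or_false, forall_eq_or_imp, forall_eq]
  refine ⟨by norm_num, by norm_num, by norm_num, by norm_num, by norm_num, by norm_num, by norm_num, by norm_num⟩

theorem prime_60930241 : Nat.Prime 60930241 := by
  refine prime_of_lucas 13 26 [2, 2, 2, 2, 2, 2, 3, 5, 7, 9067] (by decide +kernel) ?_
  simp only [List.mem_cons, List.not_mem_nil, or_false, forall_eq_or_imp, forall_eq]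
  refine ⟨by norm_num, by norm_num, by norm_num, by norm_num, by norm_num, by norm_num, by norm_num, by norm_num, by norm_num, by norm_num⟩

theorem prime_129251887 : Nat.Prime 129251887 := by
  refine prime_of_lucas 3 27 [2, 3, 113, 379, 503] (by decide +kernel) ?_
  simp only [List.mem_cons, List.not_mem_nil, or_false, forall_eq_or_imp, forall_eq]
  refine ⟨by norm_num, by norm_num, by norm_num, by norm_num, by norm_num⟩

theorem prime_286868737 : Nat.Prime 286868737 := by
  refine prime_of_lucas 5 29 [2, 2, 2, 2, 2, 2, 2, 2, 3, 3, 3, 7, 7, 7, 11, 11] (by decide +kernel) ?_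
  simp only [List.mem_cons, List.not_mem_nil, or_false, forall_eq_or_imp, forall_eq]
  refine ⟨by norm_num, by norm_num, by norm_num, by norm_num, by norm_num, by norm_num, by norm_num, by norm_num, by norm_num, by norm_num, by norm_num, by norm_num, by norm_num, by norm_num, by norm_num, by norm_num⟩

theorem prime_491297473 : Nat.Prime 491297473 := by
  refine prime_of_lucas 11 29 [2, 2, 2, 2, 2, 2, 3, 3, 337, 2531] (by decide +kernel) ?_
  simp only [List.mem_cons, List.not_mem_nil, or_false, forall_eq_or_imp, forall_eq]
  refine ⟨by norm_num, by norm_num, by norm_num, by norm_num, by norm_num, by norm_num, by norm_num, by norm_num, by norm_num, by norm_num⟩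

theorem prime_692405281 : Nat.Prime 692405281 := by
  refine prime_of_lucas 11 30 [2, 2, 2, 2, 2, 3, 3, 3, 5, 7, 7, 3271] (by decide +kernel) ?_
  simp only [List.mem_cons, List.not_mem_nil, or_false, forall_eq_or_imp, forall_eq]
  refine ⟨by norm_num, by norm_num, by norm_num, by norm_num, by norm_num, by norm_num, by norm_num, by norm_num, by norm_num, by norm_num, by norm_num, by norm_num⟩

theorem prime_1190353849 : Nat.Prime 1190353849 := by
  refine prime_of_lucas 7 31 [2, 2, 2, 3, 149, 332873] (by decide +kernel) ?_
  simp only [List.mem_cons, List.not_mem_nil, or_false, forall_eq_or_imp, forall_eq]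
  refine ⟨by norm_num, by norm_num, by norm_num, by norm_num, by norm_num, prime_332873⟩

theorem prime_38564160823 : Nat.Prime 38564160823 := by
  refine prime_of_lucas 5 36 [2, 3, 3, 11, 181, 1076069] (by decide +kernel) ?_
  simp only [List.mem_cons, List.not_mem_nil, or_false, forall_eq_or_imp, forall_eq]
  refine ⟨by norm_num, by norm_num, by norm_num, by norm_num, by norm_num, prime_1076069⟩

theorem prime_1189796477869 : Nat.Prime 1189796477869 := by
  refine prime_of_lucas 10 41 [2, 2, 3, 3, 37, 563, 859, 1847] (by decide +kernel) ?_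
  simp only [List.mem_cons, List.not_mem_nil, or_false, forall_eq_or_imp, forall_eq]
  refine ⟨by norm_num, by norm_num, by norm_num, by norm_num, by norm_num, by norm_num, by norm_num, by norm_num⟩

theorem prime_252079820421571 : Nat.Prime 252079820421571 := by
  refine prime_of_lucas 2 48 [2, 3, 3, 5, 5701, 491297473] (by decide +kernel) ?_
  simp only [List.mem_cons, List.not_mem_nil, or_false, forall_eq_or_imp, forall_eq]
  refine ⟨by norm_num, by norm_num, by norm_num, by norm_num, by norm_num, prime_491297473⟩

theorem prime_433041207435409 : Nat.Prime 433041207435409 := by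
  refine prime_of_lucas 14 49 [2, 2, 2, 2, 3, 11, 13, 53, 1190353849] (by decide +kernel) ?_
  simp only [List.mem_cons, List.not_mem_nil, or_false, forall_eq_or_imp, forall_eq]
  refine ⟨by norm_num, by norm_num, by norm_num, by norm_num, by norm_num, by norm_num, by norm_num, by norm_num, prime_1190353849⟩

theorem prime_433083321122869 : Nat.Prime 433083321122869 := by
  refine prime_of_lucas 2 49 [2, 2, 3, 3, 13, 465067, 1989803] (by decide +kernel) ?_
  simp only [List.mem_cons, List.not_mem_nil, or_false, forall_eq_or_imp, forall_eq]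
  refine ⟨by norm_num, by norm_num, by norm_num, by norm_num, by norm_num, prime_465067, prime_1989803⟩

theorem prime_561601359357889861 : Nat.Prime 561601359357889861 := by
  refine prime_of_lucas 2 59 [2, 2, 3, 3, 5, 24138971, 129251887] (by decide +kernel) ?_
  simp only [List.mem_cons, List.not_mem_nil, or_false, forall_eq_or_imp, forall_eq]
  refine ⟨by norm_num, by norm_num, by norm_num, by norm_num, by norm_num, prime_24138971, prime_129251887⟩

theorem irr0 : Irreducible (ofList p0.cs) :=
  irreducible_cert (v := 2) [-1] (-1) (2) 3 (by decide +kernel)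
    (by norm_num)

theorem irr1 : Irreducible (ofList p1.cs) :=
  irreducible_cert (v := 2) [-2] (-1) (3) 5 (by decide +kernel)
    (by norm_num)

theorem irr2 : Irreducible (ofList p2.cs) :=
  irreducible_cert (v := 2) [-3] (-1) (4) 7 (by decide +kernel)
    (by norm_num)

theorem irr3 : Irreducible (ofList p3.cs) :=
  irreducible_cert (v := 5) [-1, -1] (1) (4) 4 (by decide +kernel)
    (by norm_num)

theorem irr4 : Irreducible (ofList p4.cs) :=
  irreducible_cert (v := 29) [1, -1, -2] (1) (5) 6 (by decide +kernel)
    (by norm_num)

theorem irr5 : Irreducible (ofList p5.cs) :=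
  irreducible_cert (v := 211) [1, 2, -2, -3] (1) (6) 8 (by decide +kernel)
    (by norm_num)

theorem irr6 : Irreducible (ofList p6.cs) :=
  irreducible_cert (v := 241) [1, 3, -1, -3] (1) (6) 8 (by decide +kernel)
    (by norm_num)

theorem irr7 : Irreducible (ofList p7.cs) :=
  irreducible_cert (v := 571) [1, 3, -3, -4, 1] (2) (-2) 6 (by decide +kernel)
    (by norm_num)

theorem irr8 : Irreducible (ofList p8.cs) :=
  irreducible_cert (v := 2017) [3, 4, -5, -5, 1] (2) (-3) 7 (by decide +kernel)
    (by norm_num)

theorem irr9 : Irreducible (ofList p9.cs) :=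
  irreducible_cert (v := 2029) [1, 1, -6, -5, 1] (2) (-3) 7 (by decide +kernel)
    (by norm_num)

theorem irr10 : Irreducible (ofList p10.cs) :=
  irreducible_cert (v := 5501) [1, -1, -9, -6, 1] (2) (-4) 7 (by decide +kernel)
    (by norm_num)

theorem irr11 : Irreducible (ofList p11.cs) :=
  irreducible_cert (v := 7) [-1, -2] (1) (5) 5 (by decide +kernel)
    (by norm_num)

theorem irr12 : Irreducible (ofList p12.cs) :=
  irreducible_cert (v := 1113899) [-1, -10, -8, 20, 17, -9, -8, 1] (2) (-4) 8 (by decide +kernel)
    prime_1113899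

theorem irr13 : Irreducible (ofList p13.cs) :=
  irreducible_cert (v := 1094099) [-1, -4, 7, 30, 15, -13, -9, 1] (2) (-4) 9 (by decide +kernel)
    prime_1094099

theorem irr14 : Irreducible (ofList p14.cs) :=
  irreducible_cert (v := 30894961) [2, 3, -9, -10, 12, 6, -6] (1) (-10) 15 (by decide +kernel)
    prime_30894961

theorem irr15 : Irreducible (ofList p15.cs) :=
  irreducible_cert (v := 38564160823) [-1, 1, 37, 50, -68, -110, 42, 98, 6, -32, -8, 3] (2) (-6) 12 (by decide +kernel)
    prime_38564160823

theorem irr16 : Irreducible (ofList p16.cs) :=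
  irreducible_cert (v := 692405281) [1, -4, -40, -55, 30, 82, 19, -25, -10, 2] (2) (-6) 11 (by decide +kernel)
    prime_692405281

theorem irr17 : Irreducible (ofList p17.cs) :=
  irreducible_cert (v := 1189796477869) [-1, -3, 9, -3, -102, -105, 58, 105, 7, -32, -8, 3] (2) (12) 12 (by decide +kernel)
    prime_1189796477869

theorem irr18 : Irreducible (ofList p18.cs) :=
  irreducible_cert (v := 286868737) [1, 0, -28, -46, 24, 70, 13, -26, -10, 2] (2) (9) 11 (by decide +kernel)
    prime_286868737

theorem irr19 : Irreducible (ofList p19.cs) :=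
  irreducible_cert (v := 433041207435409) [1, -4, -16, 107, 349, 124, -453, -387, 135, 229, 20, -48, -12, 3] (2) (13) 13 (by decide +kernel)
    prime_433041207435409

theorem irr20 : Irreducible (ofList p20.cs) :=
  irreducible_cert (v := 252079820421571) [-1, -19, -53, 112, 463, 240, -459, -450, 111, 236, 26, -47, -12, 3] (2) (-9) 13 (by decide +kernel)
    prime_252079820421571

theorem irr21 : Irreducible (ofList p21.cs) :=
  irreducible_cert (v := 433083321122869) [-1, -17, -40, 104, 370, 123, -474, -391, 145, 235, 21, -48, -12, 3] (2) (13) 13 (by decide +kernel)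
    prime_433083321122869

theorem irr22 : Irreducible (ofList p22.cs) :=
  irreducible_cert (v := 1862489) [-1, -1, 10, 23, 5, -14, -6, 2] (2) (8) 9 (by decide +kernel)
    prime_1862489

theorem irr23 : Irreducible (ofList p23.cs) :=
  irreducible_cert (v := 60930241) [1, 4, -16, -45, 6, 60, 18, -21, -9, 2] (2) (8) 10 (by decide +kernel)
    prime_60930241

theorem irr24 : Irreducible (ofList p24.cs) :=
  irreducible_cert (v := 561601359357889861) [-1, -1, 49, 109, -360, -1087, -103, 1798, 1136, -981, -1049, 119, 379, 52, -58, -15, 3] (2) (13) 14 (by decide +kernel)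
    prime_561601359357889861

theorem irr25 : Irreducible (ofList p25.cs) :=
  irreducible_cert (v := 17) [-1, -3, 0] (2) (5) 4 (by decide +kernel)
    (by norm_num)

theorem mono : (ps.all fun p => (shiftList 5 p.cs).all fun c => decide (0 ≤ c)) = true := by decide +kernel

end Pool.Agent.STP.T1
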