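import Pool.Agent.Lib.MP_8ca0c8_nt.T1Data

namespace Pool.Agent.STP.T1

open Pool.Agent.STP

theorem res0 : Nat.blt (10000000000 ^ (1 * 1000)) (prodVals p0 Rs) = true := by decide +kernel

theorem res1 : Nat.blt (10000000000 ^ (1 * 1000)) (prodVals p1 Rs) = true := by decide +kernel

theorem res2 : Nat.blt (10000000000 ^ (1 * 1000)) (prodVals p2 Rs) = true := by decide +kernel

theorem res3 : Nat.blt (10000000000 ^ (2 * 1000)) (prodVals p3 Rs) = true := by decide +kernel

theorem res4 : Nat.blt (10000000000 ^ (3 * 1000)) (prodVals p4 Rs) = true := by decide +kernel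

theorem res5 : Nat.blt (10000000000 ^ (4 * 1000)) (prodVals p5 Rs) = true := by decide +kernel

theorem res6 : Nat.blt (10000000000 ^ (4 * 1000)) (prodVals p6 Rs) = true := by decide +kernel

theorem res7 : Nat.blt (10000000000 ^ (5 * 1000)) (prodVals p7 Rs) = true := by decide +kernel

theorem res8 : Nat.blt (10000000000 ^ (5 * 1000)) (prodVals p8 Rs) = true := by decide +kernel

theorem res9 : Nat.blt (10000000000 ^ (5 * 1000)) (prodVals p9 Rs) = true := by decide +kernel

theorem res10 : Nat.blt (10000000000 ^ (5 * 1000)) (prodVals p10 Rs) = true := by decide +kernel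

theorem res11 : Nat.blt (10000000000 ^ (2 * 1000)) (prodVals p11 Rs) = true := by decide +kernel

theorem res12 : Nat.blt (10000000000 ^ (8 * 1000)) (prodVals p12 Rs) = true := by decide +kernel

theorem res13 : Nat.blt (10000000000 ^ (8 * 1000)) (prodVals p13 Rs) = true := by decide +kernel

theorem res14 : Nat.blt (10000000000 ^ (7 * 1000)) (prodVals p14 Rs) = true := by decide +kernel

theorem res15 : Nat.blt (10000000000 ^ (12 * 1000)) (prodVals p15 Rs) = true := by decide +kernel

theorem res16 : Nat.blt (10000000000 ^ (10 * 1000)) (prodVals p16 Rs) = true := by decide +kernel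

theorem res17 : Nat.blt (10000000000 ^ (12 * 1000)) (prodVals p17 Rs) = true := by decide +kernel

theorem res18 : Nat.blt (10000000000 ^ (10 * 1000)) (prodVals p18 Rs) = true := by decide +kernel

theorem res19 : Nat.blt (10000000000 ^ (14 * 1000)) (prodVals p19 Rs) = true := by decide +kernel

theorem res20 : Nat.blt (10000000000 ^ (14 * 1000)) (prodVals p20 Rs) = true := by decide +kernel

theorem res21 : Nat.blt (10000000000 ^ (14 * 1000)) (prodVals p21 Rs) = true := by decide +kernel

theorem res22 : Nat.blt (10000000000 ^ (8 * 1000)) (prodVals p22 Rs) = true := by decide +kernel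

theorem res23 : Nat.blt (10000000000 ^ (10 * 1000)) (prodVals p23 Rs) = true := by decide +kernel

theorem res24 : Nat.blt (10000000000 ^ (17 * 1000)) (prodVals p24 Rs) = true := by decide +kernel

theorem res25 : Nat.blt (10000000000 ^ (3 * 1000)) (prodVals p25 Rs) = true := by decide +kernel

theorem inter : interlace Xs.flatten Rs.flatten = true := by decide +kernel

theorem split : (ps.all fun p => splitOK (scale 10000000000 p.cs) p.pos p.neg) = true := by decide +kernel

theorem len : Rs.flatten.length = 1000 := by decide +kernel

theorem sumR : Rs.flatten.sum = 18055461069145 := by decide +kernel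

theorem lenX : Xs.flatten.length = 1001 := by decide +kernel

theorem lastR : Rs.flatten.getLast? = some 52441031543 := by decide +kernel

end Pool.Agent.STP.T1
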