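import Mathlib
import Pool.Agent.Lib.MP_8ca0c8_nt.Above
import Pool.Agent.Lib.MP_8ca0c8_nt.T1Irr
import Pool.Agent.Lib.MP_8ca0c8_nt.T1Res
import Pool.Agent.Lib.MP_8ca0c8_nt.T1Dom0
import Pool.Agent.Lib.MP_8ca0c8_nt.T1Dom1
import Pool.Agent.Lib.MP_8ca0c8_nt.T1Dom2
import Pool.Agent.Lib.MP_8ca0c8_nt.T1Dom3
import Pool.Agent.Lib.MP_8ca0c8_nt.T1Dom4

namespace Pool.Agent.STP.T1

open Pool.Agent.STP Polynomial

theorem irr : ∀ p ∈ ps, Irreducible (ofList p.cs) := by
  simp only [ps, List.mem_cons, List.not_mem_nil, or_false, forall_eq_or_imp, forall_eq]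
  exact ⟨irr0, irr1, irr2, irr3, irr4, irr5, irr6, irr7, irr8, irr9, irr10, irr11, irr12, irr13, irr14, irr15, irr16, irr17, irr18, irr19, irr20, irr21, irr22, irr23, irr24, irr25⟩

theorem res : ∀ p ∈ ps, 10000000000 ^ ((p.cs.length - 1) * Rs.flatten.length) < prodVals p Rs := by
  rw [len]
  simp only [ps, List.mem_cons, List.not_mem_nil, or_false, forall_eq_or_imp, forall_eq]
  exact ⟨(Nat.blt_eq.mp res0), (Nat.blt_eq.mp res1), (Nat.blt_eq.mp res2), (Nat.blt_eq.mp res3), (Nat.blt_eq.mp res4), (Nat.blt_eq.mp res5), (Nat.blt_eq.mp res6), (Nat.blt_eq.mp res7), (Nat.blt_eq.mp res8), (Nat.blt_eq.mp res9), (Nat.blt_eq.mp res10), (Nat.blt_eq.mp res11), (Nat.blt_eq.mp res12), (Nat.blt_eq.mp res13), (Nat.blt_eq.mp res14), (Nat.blt_eq.mp res15), (Nat.blt_eq.mp res16), (Nat.blt_eq.mp res17), (Nat.blt_eq.mp res18), (Nat.blt_eq.mp res19), (Nat.blt_eq.mp res20), (Nat.blt_eq.mp res21), (Nat.blt_eq.mp res22), (Nat.blt_eq.mp res23), (Nat.blt_eq.mp res24), (Nat.blt_eq.mp res25)⟩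

theorem dom : ∀ x ∈ Xs.flatten, M * prodB x ps < prodDiffs x Rs := by
  intro x hx
  rw [List.mem_flatten] at hx
  obtain ⟨l, hl, hxl⟩ := hx
  have key : ∀ l ∈ Xs, (l.all fun x => domOK M ps Rs x) = true := by
    simp only [Xs, List.mem_cons, List.not_mem_nil, or_false, forall_eq_or_imp, forall_eq]
    exact ⟨dom0, dom1, dom2, dom3, dom4, dom5, dom6, dom7, dom8, dom9, dom10, dom11, dom12, dom13, dom14, dom15, dom16, dom17, dom18, dom19, dom20, dom21, dom22, dom23, dom24, dom25, dom26, dom27, dom28, dom29, dom30, dom31, dom32, dom33, dom34, dom35, dom36, dom37, dom38, dom39, dom40⟩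
  have h1 := List.all_eq_true.1 (key l hl) x hxl
  exact Nat.blt_eq.mp h1

theorem cert_ok : CertOK 10000000000 ps Rs Xs.flatten where
  hD := by norm_num
  hx0 := by decide +kernel
  hinter := inter
  hlen := by decide +kernel
  hlead := by decide +kernel
  hsplit := fun p hp => List.all_eq_true.1 split p hp
  hb := by decide +kernel
  hX := ⟨p0, List.mem_cons_self, rfl⟩
  hirr := irr
  hdeg := by decide +kernel
  hdom := by
    intro x hx
    have e : Rs.flatten.length - (ps.map fun p => p.b * (p.cs.length - 1)).sum = 103 := by decide +kernel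
    rw [e]
    exact dom x hx
  hres := res

/-- Every rational number `≥ 18055461069145 / 10000000000000` is the mean trace of a totally positive algebraic
integer. -/
theorem above (q : ℚ) (hq : (18055461069145 : ℚ) / 10000000000000 ≤ q) : (q : ℝ) ∈ meanTraceSet := by
  refine cert_ok.above 5 52441031543 lastR (by norm_num) ?_ q ?_
  · intro p hp c hc
    have h1 := List.all_eq_true.1 mono p hp
    exact of_decide_eq_true (List.all_eq_true.1 h1 c hc)
  · rw [sumR, len]
    refine le_trans (le_of_eq ?_) hq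
    norm_num

end Pool.Agent.STP.T1
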