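import Mathlib
import Pool.Agent.Lib.MP_8ca0c8_nt.Smooth8
import Pool.Agent.Lib.MP_8ca0c8_nt.T1Final

/-!
# The structure of the set of mean traces
-/

namespace Pool.Agent.STP

open Polynomial Topology

lemma isLimitPoint_of_gt {t x : ℝ} (ht : IsLimitPoint meanTraceSet t) (htx : t < x) :
    IsLimitPoint meanTraceSet x :=
  isLimitPoint_of_rat (c := x) (fun q hq => mem_of_limitPoint ht q (htx.trans_le hq)) x le_rfl

lemma isLimitPoint_nonneg {t : ℝ} (ht : IsLimitPoint meanTraceSet t) : 0 ≤ t := by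
  by_contra h
  push Not at h
  obtain ⟨y, hy1, hy2⟩ := (ht (Set.Iio 0) (Iio_mem_nhds h)).nonempty
  exact absurd (meanTraceSet_pos hy2) (not_lt.2 (le_of_lt hy1))

lemma isLimitPoint_of_accPt {S : Set ℝ} {x : ℝ} (h : AccPt x (Filter.principal S)) :
    IsLimitPoint S x := by
  intro U hU hfin
  rw [accPt_iff_nhds] at h
  have h1 : U \ ((U ∩ S) \ {x}) ∈ 𝓝 x := by
    rw [Set.sdiff_eq]
    refine Filter.inter_mem hU ?_
    exact (hfin.subset Set.sdiff_subset).isClosed.isOpen_compl.mem_nhds (by simp)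
  obtain ⟨y, ⟨hy1, hy2⟩, hy3⟩ := h _ h1
  exact hy1.2 ⟨⟨hy1.1, hy2⟩, hy3⟩

theorem structure_theorem : ∃ l : ℝ, {x : ℝ | IsLimitPoint meanTraceSet x} = Set.Ici l ∧
    (∀ x : ℝ, l < x → (x ∈ meanTraceSet ↔ ∃ q : ℚ, (q : ℝ) = x)) ∧
    ∀ c : ℝ, c < l → (meanTraceSet ∩ Set.Iic c).Finite := by
  set L := {x : ℝ | IsLimitPoint meanTraceSet x} with hL
  have hne : L.Nonempty := by
    refine ⟨2, isLimitPoint_of_rat (c := 2) (fun q hq => T1.above q ?_) 2 le_rfl⟩
    have : (2 : ℚ) ≤ q := by exact_mod_cast hq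
    refine le_trans ?_ this
    norm_num
  have hbdd : BddBelow L := ⟨0, fun x hx => isLimitPoint_nonneg hx⟩
  set l := sInf L with hl
  have habove : ∀ x, l < x → ∃ t, IsLimitPoint meanTraceSet t ∧ t < x := by
    intro x hx
    obtain ⟨t, ht, htx⟩ := exists_lt_of_csInf_lt hne hx
    exact ⟨t, ht, htx⟩
  have habove' : ∀ x, l < x → IsLimitPoint meanTraceSet x := by
    intro x hx
    obtain ⟨t, ht, htx⟩ := habove x hx
    exact isLimitPoint_of_gt ht htx
  have hLl : L = Set.Ici l := by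
    ext x
    constructor
    · intro hx; exact csInf_le hbdd hx
    · intro hx
      rcases eq_or_lt_of_le (Set.mem_Ici.1 hx) with h1 | h1
      · subst h1
        intro U hU
        obtain ⟨ε, hε, hεU⟩ := Metric.mem_nhds_iff.1 hU
        have h2 := habove' (l + ε / 2) (by linarith)
        refine (h2 (Metric.ball l ε) ?_).mono (Set.inter_subset_inter_left _ hεU)
        refine Metric.isOpen_ball.mem_nhds ?_
        rw [Metric.mem_ball, Real.dist_eq]
        rw [abs_of_pos (by linarith)]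
        linarith
      · exact habove' x h1
  refine ⟨l, hLl, ?_, ?_⟩
  · intro x hx
    constructor
    · exact meanTraceSet_rat
    · rintro ⟨q, rfl⟩
      obtain ⟨t, ht, htx⟩ := habove _ hx
      exact mem_of_limitPoint ht q htx
  · intro c hc
    by_contra hinf
    have hsub : meanTraceSet ∩ Set.Iic c ⊆ Set.Icc 0 c := fun y hy =>
      ⟨(meanTraceSet_pos hy.1).le, hy.2⟩
    obtain ⟨x, hx, hacc⟩ := Set.Infinite.exists_accPt_of_subset_isCompact hinf isCompact_Icc hsub
    have h1 : IsLimitPoint meanTraceSet x :=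
      isLimitPoint_of_accPt (hacc.mono (Filter.principal_mono.2 Set.inter_subset_left))
    have h2 : l ≤ x := by
      have : x ∈ L := h1
      rw [hLl] at this
      exact this
    have := hx.2
    linarith

end Pool.Agent.STP
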